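import Pool.Agent.P.MP_c34bf4_an.Volterra

namespace Pool.Agent.P.MP_c34bf4_an

open MeasureTheory Filter Set Topology

/-- Forward recursion on pairs of entire functions. -/
noncomputable def approxFwd (q : ℕ → ℝ) (b : ℝ) (A B : ℂ → ℂ) : ℕ → (ℂ → ℂ) × (ℂ → ℂ)
  | 0 => (A, B)
  | n + 1 => ((approxFwd q b A B n).2, fun ζ =>
      2 * (q (n + 1) : ℂ) * (approxFwd q b A B n).2 ζ - (b : ℂ) * (approxFwd q b A B n).1 ζ +
        (approxFwd q b A B n).2 ζ ^ 2)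

theorem approxFwd_good (q : ℕ → ℝ) (b : ℝ) {A B : ℂ → ℂ} (hA : Differentiable ℂ A)
    (hB : Differentiable ℂ B) (hA' : ∀ t : ℝ, (A t).im = 0) (hB' : ∀ t : ℝ, (B t).im = 0)
    (n : ℕ) : (Differentiable ℂ (approxFwd q b A B n).1 ∧
      ∀ t : ℝ, ((approxFwd q b A B n).1 t).im = 0) ∧
      (Differentiable ℂ (approxFwd q b A B n).2 ∧
      ∀ t : ℝ, ((approxFwd q b A B n).2 t).im = 0) := by
  induction n with
  | zero => exact ⟨⟨hA, hA'⟩, ⟨hB, hB'⟩⟩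
  | succ n ih =>
    obtain ⟨⟨d1, r1⟩, ⟨d2, r2⟩⟩ := ih
    refine ⟨⟨d2, r2⟩, ?_, ?_⟩
    · exact ((d2.const_mul _).sub (d1.const_mul _)).add (d2.pow 2)
    · intro t
      simp [approxFwd, pow_two, r1 t, r2 t]

/-- Solutions with prescribed entire data at the times `M`, `M + 1`. -/
theorem exists_back_sol {b : ℝ} (hb : b ≠ 0) (M : ℕ) : ∀ (q : ℕ → ℝ) (A B : ℂ → ℂ),
    Differentiable ℂ A → Differentiable ℂ B → (∀ t : ℝ, (A t).im = 0) →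
    (∀ t : ℝ, (B t).im = 0) →
    ∃ a : ℕ → ℂ → ℂ, (∀ n, Differentiable ℂ (a n)) ∧ (∀ n (t : ℝ), (a n t).im = 0) ∧
      (∀ ζ, NSol q b fun n => a n ζ) ∧ a M = A ∧ a (M + 1) = B := by
  have hb' : (b : ℂ) ≠ 0 := by exact_mod_cast hb
  induction M with
  | zero =>
    intro q A B hA hB hA' hB'
    refine ⟨fun n => (approxFwd q b A B n).1, fun n => (approxFwd_good q b hA hB hA' hB' n).1.1,
      fun n => (approxFwd_good q b hA hB hA' hB' n).1.2, fun ζ n => rfl, rfl, rfl⟩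
  | succ M ih =>
    intro q A B hA hB hA' hB'
    obtain ⟨a, d, re, sol, e0, e1⟩ := ih (fun n => q (n + 1)) A B hA hB hA' hB'
    refine ⟨fun n => match n with
      | 0 => fun ζ => (2 * (q 1 : ℂ) * a 0 ζ + a 0 ζ ^ 2 - a 1 ζ) * ((b⁻¹ : ℝ) : ℂ)
      | n + 1 => a n, ?_, ?_, ?_, e0, e1⟩
    · intro n
      cases n with
      | zero => exact ((((d 0).const_mul _).add ((d 0).pow 2)).sub (d 1)).mul_const _
      | succ n => exact d n
    · intro n t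
      cases n with
      | zero =>
        have h0 := re 0 t
        have h1 := re 1 t
        simp only [Complex.mul_im, Complex.ofReal_im, Complex.sub_im, Complex.add_im, pow_two,
          Complex.mul_re, h0, h1, Complex.im_ofNat, Complex.re_ofNat]
        ring
      | succ n => exact re n t
    · intro ζ n
      cases n with
      | zero =>
        simp only [zero_add]
        push_cast
        field_simp
        ring
      | succ n => exact sol ζ n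

variable {q : ℕ → ℝ} {b r : ℝ} {s t : ℕ → ℝ}

/-- Integral equation of the approximants. -/
theorem Lin.approx_int (h : Lin q b r s t) {u : ℕ → ℂ} (hu : NSol q b u) {ζ : ℂ} {M : ℕ}
    (hM0 : u M = ζ * s M) (hM1 : u (M + 1) = ζ * s (M + 1)) {n : ℕ} (hn : n ≤ M) :
    u n - ζ * s n = ∑ k ∈ Finset.Ioc n M, (gr b s t n k : ℂ) * u k ^ 2 := by
  have hb' : (b : ℂ) ^ M ≠ 0 := pow_ne_zero _ (by exact_mod_cast h.b_ne)
  have hw : ((s (M + 1) : ℂ) * t M - s M * t (M + 1)) = (b : ℂ) ^ M := by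
    exact_mod_cast h.wr M
  have hx : xi b t u M = ζ := by
    rw [xi, hM0, hM1, div_eq_iff hb', ← hw]; ring
  have he : eta b s u M = 0 := by
    rw [eta, hM0, hM1, div_eq_iff hb']; ring
  have := h.volterra hu.isol hn
  rw [hx, he] at this
  rw [this]; ring

theorem approx_pow_id {r ω : ℝ} (hr : 0 < r) (k : ℕ) :
    (ω ^ 2 / r) ^ k * ((r * ω) ^ k) ^ 2 = (r * ω ^ 4) ^ k := by
  rw [← pow_mul, mul_comm k 2, pow_mul, ← mul_pow]
  congr 1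
  field_simp

theorem approx_pow_id' {r ω : ℝ} (hr : 0 < r) (k : ℕ) :
    (ω ^ 2 / r) ^ k * (r * ω) ^ k * r ^ k = (r * ω ^ 3) ^ k := by
  rw [← mul_pow, ← mul_pow]
  congr 1
  field_simp

/-- A priori bound for the approximants. -/
theorem Lin.apriori (h : Lin q b r s t) {ω C : ℝ} (hω : 1 < ω) (hσ : r * ω ^ 4 < 1)
    (hC : 1 ≤ C) (hbd : ∀ n : ℕ, |s n| ≤ C * (r * ω) ^ n ∧ |t n| ≤ C * (|b| * ω / r) ^ n)
    {u : ℕ → ℂ} (hu : NSol q b u) {ζ : ℂ} {N M : ℕ} (hM0 : u M = ζ * s M)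
    (hM1 : u (M + 1) = ζ * s (M + 1))
    (hζ : ‖ζ‖ * (r * ω ^ 4) ^ N ≤ (1 - r * ω ^ 4) / (16 * C ^ 3)) (n : ℕ) (hN : N ≤ n)
    (hn : n ≤ M) :
    ‖u n‖ ≤ 2 * C * ‖ζ‖ * (r * ω) ^ n ∧
      ‖u n - ζ * s n‖ ≤ 8 * C ^ 4 / (1 - r * ω ^ 4) * ‖ζ‖ ^ 2 * (r * (r * ω ^ 4)) ^ n := by
  have hr := h.r_pos
  have hω0 : 0 < ω := by linarith
  have hC0 : 0 < C := by linarith
  have hσ0 : 0 ≤ r * ω ^ 4 := by positivity
  have h1σ : 0 < 1 - r * ω ^ 4 := by linarith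
  have step : ∀ n, N ≤ n → n ≤ M →
      (∀ k, n < k → k ≤ M → ‖u k‖ ≤ 2 * C * ‖ζ‖ * (r * ω) ^ k) →
      ‖u n‖ ≤ 2 * C * ‖ζ‖ * (r * ω) ^ n ∧
        ‖u n - ζ * s n‖ ≤ 8 * C ^ 4 / (1 - r * ω ^ 4) * ‖ζ‖ ^ 2 * (r * (r * ω ^ 4)) ^ n := by
    intro n hN hn ih
    have h2 : ‖u n - ζ * s n‖ ≤
        8 * C ^ 4 / (1 - r * ω ^ 4) * ‖ζ‖ ^ 2 * (r * (r * ω ^ 4)) ^ n := by
      rw [h.approx_int hu hM0 hM1 hn]
      calc ‖∑ k ∈ Finset.Ioc n M, (gr b s t n k : ℂ) * u k ^ 2‖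
          ≤ ∑ k ∈ Finset.Ioc n M, ‖(gr b s t n k : ℂ) * u k ^ 2‖ := norm_sum_le _ _
        _ ≤ ∑ k ∈ Finset.Ioc n M, 8 * C ^ 4 * ‖ζ‖ ^ 2 * r ^ n * (r * ω ^ 4) ^ k := by
          refine Finset.sum_le_sum fun k hk => ?_
          rw [Finset.mem_Ioc] at hk
          rw [norm_mul, norm_pow, Complex.norm_real, Real.norm_eq_abs, ← approx_pow_id hr]
          have g1 := h.gr_bound hω hC hbd hk.1.le
          have g2 : ‖u k‖ ^ 2 ≤ (2 * C * ‖ζ‖ * (r * ω) ^ k) ^ 2 :=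
            pow_le_pow_left₀ (norm_nonneg _) (ih k hk.1 hk.2) 2
          calc |gr b s t n k| * ‖u k‖ ^ 2
              ≤ (2 * C ^ 2 * r ^ n * (ω ^ 2 / r) ^ k) * (2 * C * ‖ζ‖ * (r * ω) ^ k) ^ 2 :=
                mul_le_mul g1 g2 (by positivity) (by positivity)
            _ = _ := by ring
        _ = 8 * C ^ 4 * ‖ζ‖ ^ 2 * r ^ n * ∑ k ∈ Finset.Ioc n M, (r * ω ^ 4) ^ k := by
          rw [Finset.mul_sum]
        _ ≤ 8 * C ^ 4 * ‖ζ‖ ^ 2 * r ^ n * ((r * ω ^ 4) ^ n / (1 - r * ω ^ 4)) :=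
          mul_le_mul_of_nonneg_left (sum_Ioc_pow_le hσ0 hσ n M) (by positivity)
        _ = _ := by rw [mul_pow r (r * ω ^ 4)]; ring
    refine ⟨?_, h2⟩
    have h3 : ‖ζ‖ * (r * ω ^ 4) ^ n ≤ (1 - r * ω ^ 4) / (16 * C ^ 3) :=
      (mul_le_mul_of_nonneg_left (pow_le_pow_of_le_one hσ0 hσ.le hN) (norm_nonneg _)).trans hζ
    have h4 : ‖ζ * (s n : ℂ)‖ ≤ C * ‖ζ‖ * (r * ω) ^ n := by
      rw [norm_mul, Complex.norm_real, Real.norm_eq_abs]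
      calc ‖ζ‖ * |s n| ≤ ‖ζ‖ * (C * (r * ω) ^ n) :=
            mul_le_mul_of_nonneg_left (hbd n).1 (norm_nonneg _)
        _ = _ := by ring
    have h5 : r ^ n ≤ (r * ω) ^ n :=
      pow_le_pow_left₀ hr.le (le_mul_of_one_le_right hr.le hω.le) n
    have h6 : 8 * C ^ 4 / (1 - r * ω ^ 4) * ‖ζ‖ ^ 2 * (r * (r * ω ^ 4)) ^ n ≤
        C * ‖ζ‖ * (r * ω) ^ n := by
      calc 8 * C ^ 4 / (1 - r * ω ^ 4) * ‖ζ‖ ^ 2 * (r * (r * ω ^ 4)) ^ n
          = (8 * C ^ 4 / (1 - r * ω ^ 4) * ‖ζ‖ * r ^ n) * (‖ζ‖ * (r * ω ^ 4) ^ n) := by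
            rw [mul_pow r (r * ω ^ 4)]; ring
        _ ≤ (8 * C ^ 4 / (1 - r * ω ^ 4) * ‖ζ‖ * r ^ n) * ((1 - r * ω ^ 4) / (16 * C ^ 3)) :=
            mul_le_mul_of_nonneg_left h3 (by positivity)
        _ = (C * ‖ζ‖ / 2) * r ^ n := by field_simp; ring
        _ ≤ (C * ‖ζ‖) * (r * ω) ^ n :=
            mul_le_mul (half_le_self (by positivity)) h5 (by positivity) (by positivity)
    calc ‖u n‖ = ‖ζ * s n + (u n - ζ * s n)‖ := by congr 1; ring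
      _ ≤ ‖ζ * (s n : ℂ)‖ + ‖u n - ζ * s n‖ := norm_add_le _ _
      _ ≤ C * ‖ζ‖ * (r * ω) ^ n + C * ‖ζ‖ * (r * ω) ^ n := add_le_add h4 (h2.trans h6)
      _ = _ := by ring
  have all : ∀ j n, N ≤ n → n ≤ M → M - n < j → ‖u n‖ ≤ 2 * C * ‖ζ‖ * (r * ω) ^ n := by
    intro j
    induction j with
    | zero => intro n _ _ hj; omega
    | succ j ih =>
      intro n hN hn hj
      exact (step n hN hn fun k hk hkM => ih k (by omega) hkM (by omega)).1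
  exact step n hN hn fun k hk hkM => all (M - k + 1) k (by omega) hkM (by omega)

/-- Consecutive approximants are geometrically close. -/
theorem Lin.cauchy (h : Lin q b r s t) {ω C : ℝ} (hω : 1 < ω) (hσ : r * ω ^ 4 < 1)
    (hC : 1 ≤ C) (hbd : ∀ n : ℕ, |s n| ≤ C * (r * ω) ^ n ∧ |t n| ≤ C * (|b| * ω / r) ^ n)
    {u u' : ℕ → ℂ} (hu : NSol q b u) (hu' : NSol q b u') {ζ : ℂ} {N M : ℕ}
    (hM0 : u M = ζ * s M) (hM1 : u (M + 1) = ζ * s (M + 1))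
    (hM0' : u' (M + 1) = ζ * s (M + 1)) (hM1' : u' (M + 2) = ζ * s (M + 2))
    (hζ : ‖ζ‖ * (r * ω ^ 4) ^ N ≤ (1 - r * ω ^ 4) / (16 * C ^ 3)) (n : ℕ) (hN : N ≤ n)
    (hn : n ≤ M) :
    ‖u' n - u n‖ ≤ 16 * C ^ 4 * ‖ζ‖ ^ 2 * (r * ω ^ 4) ^ M := by
  have hr := h.r_pos
  have hr1 : r ≤ 1 := h.r_le.trans h.b_lt.le
  have hω0 : 0 < ω := by linarith
  have hC0 : 0 < C := by linarith
  have hσ0 : 0 ≤ r * ω ^ 4 := by positivity
  have h1σ : 0 < 1 - r * ω ^ 4 := by linarith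
  have h34 : r * ω ^ 3 ≤ r * ω ^ 4 :=
    mul_le_mul_of_nonneg_left (pow_le_pow_right₀ hω.le (by norm_num)) hr.le
  have key := gronwall_back (y := fun n => ‖u' n - u n‖ / r ^ n)
    (κ := fun k => 8 * C ^ 3 * ‖ζ‖ * (r * ω ^ 4) ^ k) (N := N) (M := M)
    (E := 2 * C ^ 4 * ‖ζ‖ ^ 2 * (r * ω ^ 4) ^ (M + 1)) (fun k => by positivity) ?_
    (by positivity) ?_ n hN hn
  · have hrn : 0 < r ^ n := pow_pos hr n
    have hrn1 : r ^ n ≤ 1 := pow_le_one₀ hr.le hr1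
    rw [div_le_iff₀ hrn] at key
    have hp : (r * ω ^ 4) ^ (M + 1) ≤ (r * ω ^ 4) ^ M :=
      pow_le_pow_of_le_one hσ0 hσ.le (Nat.le_succ M)
    calc ‖u' n - u n‖ ≤ 2 * (2 * C ^ 4 * ‖ζ‖ ^ 2 * (r * ω ^ 4) ^ (M + 1)) * r ^ n := key
      _ ≤ 2 * (2 * C ^ 4 * ‖ζ‖ ^ 2 * (r * ω ^ 4) ^ M) * 1 := by gcongr
      _ ≤ 16 * C ^ 4 * ‖ζ‖ ^ 2 * (r * ω ^ 4) ^ M := by
        have : 0 ≤ C ^ 4 * ‖ζ‖ ^ 2 * (r * ω ^ 4) ^ M := by positivity
        nlinarith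
  · rw [← Finset.mul_sum]
    calc 8 * C ^ 3 * ‖ζ‖ * ∑ k ∈ Finset.Ioc N M, (r * ω ^ 4) ^ k
        ≤ 8 * C ^ 3 * ‖ζ‖ * ((r * ω ^ 4) ^ N / (1 - r * ω ^ 4)) :=
          mul_le_mul_of_nonneg_left (sum_Ioc_pow_le hσ0 hσ N M) (by positivity)
      _ = 8 * C ^ 3 / (1 - r * ω ^ 4) * (‖ζ‖ * (r * ω ^ 4) ^ N) := by ring
      _ ≤ 8 * C ^ 3 / (1 - r * ω ^ 4) * ((1 - r * ω ^ 4) / (16 * C ^ 3)) :=
          mul_le_mul_of_nonneg_left hζ (by positivity)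
      _ = 1 / 2 := by field_simp; ring
  · intro m hNm hm
    have hrm : 0 < r ^ m := pow_pos hr m
    have e1 := h.approx_int hu hM0 hM1 hm
    have e2 := h.approx_int hu' hM0' hM1' (hm.trans (Nat.le_succ M))
    rw [Finset.sum_Ioc_succ_top hm] at e2
    have e3 : u' m - u m = (gr b s t m (M + 1) : ℂ) * u' (M + 1) ^ 2 +
        ∑ k ∈ Finset.Ioc m M, (gr b s t m k : ℂ) * ((u' k + u k) * (u' k - u k)) := by
      have e4 : ∑ k ∈ Finset.Ioc m M, (gr b s t m k : ℂ) * ((u' k + u k) * (u' k - u k)) =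
          ∑ k ∈ Finset.Ioc m M, (gr b s t m k : ℂ) * u' k ^ 2 -
            ∑ k ∈ Finset.Ioc m M, (gr b s t m k : ℂ) * u k ^ 2 := by
        rw [← Finset.sum_sub_distrib]
        exact Finset.sum_congr rfl fun k _ => by ring
      rw [e4]
      linear_combination e2 - e1
    rw [div_le_iff₀ hrm, e3, add_mul, Finset.sum_mul]
    refine (norm_add_le _ _).trans (add_le_add ?_ ((norm_sum_le _ _).trans
      (Finset.sum_le_sum fun k hk => ?_)))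
    · rw [norm_mul, norm_pow, Complex.norm_real, Real.norm_eq_abs, ← approx_pow_id hr, hM0',
        norm_mul, Complex.norm_real, Real.norm_eq_abs]
      have g1 := h.gr_bound hω hC hbd (hm.trans (Nat.le_succ M))
      have g2 : (‖ζ‖ * |s (M + 1)|) ^ 2 ≤ (‖ζ‖ * (C * (r * ω) ^ (M + 1))) ^ 2 :=
        pow_le_pow_left₀ (by positivity)
          (mul_le_mul_of_nonneg_left (hbd (M + 1)).1 (norm_nonneg _)) 2
      calc |gr b s t m (M + 1)| * (‖ζ‖ * |s (M + 1)|) ^ 2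
          ≤ (2 * C ^ 2 * r ^ m * (ω ^ 2 / r) ^ (M + 1)) * (‖ζ‖ * (C * (r * ω) ^ (M + 1))) ^ 2 :=
            mul_le_mul g1 g2 (by positivity) (by positivity)
        _ = _ := by ring
    · rw [Finset.mem_Ioc] at hk
      have hrk : 0 < r ^ k := pow_pos hr k
      have g1 := h.gr_bound hω hC hbd hk.1.le
      have g2 := (h.apriori hω hσ hC hbd hu hM0 hM1 hζ k (by omega) hk.2).1
      have g3 := (h.apriori hω hσ hC hbd hu' hM0' hM1' hζ k (by omega) (by omega)).1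
      have g4 : ‖u' k + u k‖ ≤ 4 * C * ‖ζ‖ * (r * ω) ^ k :=
        (norm_add_le _ _).trans (by linarith)
      have g5 : (r * ω ^ 3) ^ k ≤ (r * ω ^ 4) ^ k := pow_le_pow_left₀ (by positivity) h34 k
      rw [norm_mul, norm_mul, Complex.norm_real, Real.norm_eq_abs]
      calc |gr b s t m k| * (‖u' k + u k‖ * ‖u' k - u k‖)
          ≤ (2 * C ^ 2 * r ^ m * (ω ^ 2 / r) ^ k) * ((4 * C * ‖ζ‖ * (r * ω) ^ k) * ‖u' k - u k‖) :=
            mul_le_mul g1 (mul_le_mul_of_nonneg_right g4 (norm_nonneg _)) (by positivity)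
              (by positivity)
        _ = 8 * C ^ 3 * ‖ζ‖ * ((ω ^ 2 / r) ^ k * (r * ω) ^ k * r ^ k) *
              (‖u' k - u k‖ / r ^ k) * r ^ m := by
            field_simp
            ring
        _ ≤ 8 * C ^ 3 * ‖ζ‖ * (r * ω ^ 4) ^ k * (‖u' k - u k‖ / r ^ k) * r ^ m := by
            rw [approx_pow_id' hr]
            gcongr

end Pool.Agent.P.MP_c34bf4_an
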