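import Pool.Agent.P.MP_c34bf4_an.Basic

namespace Pool.Agent.P.MP_c34bf4_an

open MeasureTheory Filter Set Topology

theorem back_cont {c b L : ℝ} (hb : b ≠ 0) {Γ : unitInterval → ℤ → ℝ}
    (hrec : ∀ t i, Γ t (i + 2) = Γ t (i + 1) ^ 2 + c - b * Γ t i)
    (hL : ∀ t t', |Γ t 0 - Γ t' 0| ≤ L * |(t : ℝ) - t'| ∧ |Γ t 1 - Γ t' 1| ≤ L * |(t : ℝ) - t'|)
    (i : ℤ) : Continuous fun t => Γ t i := by
  have lip : ∀ j : ℤ, (∀ t t', |Γ t j - Γ t' j| ≤ L * |(t : ℝ) - t'|) →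
      Continuous fun t => Γ t j := by
    intro j hj
    refine (LipschitzWith.of_dist_le' (K := L) ?_).continuous
    intro t t'
    rw [Real.dist_eq, Subtype.dist_eq, Real.dist_eq]
    exact hj t t'
  have key : ∀ i : ℤ, (Continuous fun t => Γ t i) ∧ Continuous fun t => Γ t (i + 1) := by
    intro i
    induction i using Int.induction_on with
    | zero =>
      refine ⟨lip 0 fun t t' => (hL t t').1, ?_⟩
      simpa using lip 1 fun t t' => (hL t t').2
    | succ n ih =>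
      refine ⟨ih.2, ?_⟩
      have e : (fun t => Γ t ((n : ℤ) + 1 + 1)) =
          fun t => Γ t ((n : ℤ) + 1) ^ 2 + c - b * Γ t n := by
        funext t
        rw [← hrec t n, show (n : ℤ) + 1 + 1 = n + 2 by ring]
      rw [e]
      exact ((ih.2.pow 2).add continuous_const).sub (continuous_const.mul ih.1)
    | pred n ih =>
      refine ⟨?_, ?_⟩
      · have e : (fun t => Γ t (-(n : ℤ) - 1)) =
            fun t => (Γ t (-(n : ℤ)) ^ 2 + c - Γ t (-(n : ℤ) + 1)) / b := by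
          funext t
          have h1 := hrec t (-(n : ℤ) - 1)
          rw [show -(n : ℤ) - 1 + 2 = -(n : ℤ) + 1 by ring,
            show -(n : ℤ) - 1 + 1 = -(n : ℤ) by ring] at h1
          rw [h1]
          field_simp
          ring
        rw [e]
        exact (((ih.1.pow 2).add continuous_const).sub ih.2).div_const b
      · rw [show -(n : ℤ) - 1 + 1 = -(n : ℤ) by ring]
        exact ih.1
  exact (key i).1

theorem back_nsol {c b : ℝ} {x : ℝ × ℝ} {w : ℤ → ℝ}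
    (hrec : ∀ i, w (i + 2) = w (i + 1) ^ 2 + c - b * w i) (n : ℕ) :
    NSol (orb c b x) b (fun k => ((w ((k : ℤ) - n) - orb c b x k : ℝ) : ℂ)) := by
  intro k
  have h1 := hrec ((k : ℤ) - n)
  have e2 : (((k + 2 : ℕ) : ℤ) - n) = (k : ℤ) - n + 2 := by push_cast; ring
  have e1 : (((k + 1 : ℕ) : ℤ) - n) = (k : ℤ) - n + 1 := by push_cast; ring
  simp only
  rw [e2, e1, h1, orb_rec]
  push_cast
  ring

theorem back_arc {c b τ R L δ κ : ℝ} (hb : b ≠ 0) (hκ0 : 0 ≤ κ)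
    (hκ : κ < 1) {x : ℝ × ℝ} {φ : ℕ → ℂ → ℂ} (h : Stab (orb c b x) b τ φ) (n : ℕ)
    (hE : ECurve R L δ κ univ c b ((henon c b)^[n] x)) :
    ∃ ζ : unitInterval → ℝ, Continuous ζ ∧ ζ 0 = 0 ∧
      (∀ t, ‖curve (orb c b x) φ (ζ t)‖ ≤ R) ∧
      δ ≤ max ‖φ n (ζ 1)‖ ‖φ (n + 1) (ζ 1)‖ := by
  obtain ⟨Γ, hR, hrec, h1, h0, hL, hc, hδ⟩ := hE
  have hrec' : ∀ t i, Γ t (i + 2) = Γ t (i + 1) ^ 2 + c - b * Γ t i :=
    fun t i => hrec t i (mem_univ _)
  rw [iterate_eq] at h1 h0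
  simp only at h1 h0
  set u : unitInterval → ℕ → ℂ :=
    fun t k => ((Γ t ((k : ℤ) - n) - orb c b x k : ℝ) : ℂ) with hu
  have hsol : ∀ t, NSol (orb c b x) b (u t) := fun t => back_nsol (hrec' t) n
  have hz : NSol (orb c b x) b (fun _ => 0) := by
    intro k
    simp
  have hu0 : u 0 = fun _ => 0 := by
    refine NSol.eq_of_eq hb (hsol 0) hz n ?_ ?_
    · simp only [hu, sub_self, h0]
      simp
    · have e1 : (((n + 1 : ℕ) : ℤ) - n) = 1 := by push_cast; ring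
      simp only [hu, e1, h1, sub_self]
      simp
  have hq : ∀ k : ℕ, orb c b x k = Γ 0 ((k : ℤ) - n) := by
    intro k
    have h2 := congrFun hu0 k
    simp only [hu] at h2
    have h3 : Γ 0 ((k : ℤ) - n) - orb c b x k = 0 := by exact_mod_cast h2
    linarith
  set θ : ℝ := max κ (1 / 2) with hθ
  have hθ0 : 0 < θ := lt_of_lt_of_le (by norm_num) (le_max_right _ _)
  have hθ1 : θ < 1 := max_lt hκ (by norm_num)
  have hθn : 0 < θ ^ n := pow_pos hθ0 n
  have hbd : ∀ t k, ‖u t k‖ ≤ (2 * |R| + |L|) / θ ^ n * θ ^ k := by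
    intro t k
    simp only [hu, Complex.norm_real, Real.norm_eq_abs]
    rw [hq k]
    rcases le_total n k with hk | hk
    · obtain ⟨j, rfl⟩ := Nat.exists_eq_add_of_le hk
      have e1 : (((n + j : ℕ) : ℤ) - n) = (j : ℤ) := by push_cast; ring
      rw [e1]
      have e2 : (2 * |R| + |L|) / θ ^ n * θ ^ (n + j) = (2 * |R| + |L|) * θ ^ j := by
        rw [pow_add]; field_simp
      rw [e2]
      have h3 : κ ^ j ≤ θ ^ j := pow_le_pow_left₀ hκ0 (le_max_left _ _) j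
      have h4 : 0 ≤ κ ^ j := pow_nonneg hκ0 j
      calc |Γ t j - Γ 0 j| ≤ L * κ ^ j := hc t j
        _ ≤ |L| * κ ^ j := mul_le_mul_of_nonneg_right (le_abs_self L) h4
        _ ≤ |L| * θ ^ j := mul_le_mul_of_nonneg_left h3 (abs_nonneg L)
        _ ≤ (2 * |R| + |L|) * θ ^ j := by
          have := abs_nonneg R
          exact mul_le_mul_of_nonneg_right (by linarith) (h4.trans h3)
    · have h3 : θ ^ n ≤ θ ^ k := pow_le_pow_of_le_one hθ0.le hθ1.le hk
      have h4 : (1 : ℝ) ≤ θ ^ k / θ ^ n := (one_le_div hθn).2 h3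
      have h5 : (2 * |R| + |L|) / θ ^ n * θ ^ k = (2 * |R| + |L|) * (θ ^ k / θ ^ n) := by ring
      rw [h5]
      have h6 : |Γ t ((k : ℤ) - n) - Γ 0 ((k : ℤ) - n)| ≤ 2 * |R| + |L| := by
        have a1 := hR t ((k : ℤ) - n)
        have a2 := hR 0 ((k : ℤ) - n)
        have a3 := abs_sub (Γ t ((k : ℤ) - n)) (Γ 0 ((k : ℤ) - n))
        have a4 := le_abs_self R
        have a5 := abs_nonneg L
        linarith
      have h7 : 0 ≤ 2 * |R| + |L| := by positivity
      exact h6.trans (le_mul_of_one_le_right h7 h4)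
  have hcont : ∀ k, Continuous fun t => u t k := by
    intro k
    exact Complex.continuous_ofReal.comp ((back_cont hb hrec' hL _).sub continuous_const)
  have hreal : ∀ t k, (u t k).im = 0 := fun t k => Complex.ofReal_im _
  obtain ⟨ζ, hζ, hφ⟩ := h.onto u _ θ hθ0.le hθ1 hsol hbd hcont hreal
  refine ⟨ζ, hζ, ?_, ?_, ?_⟩
  · have a0 : φ 0 (ζ 0) = φ 0 0 := by rw [← hφ, hu0, h.zero]
    have a1 : φ 1 (ζ 0) = φ 1 0 := by rw [← hφ, hu0, h.zero]
    exact_mod_cast h.inj _ _ a0 a1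
  · intro t
    have a : ∀ k : ℕ, orb c b x k + (φ k (ζ t)).re = Γ t ((k : ℤ) - n) := by
      intro k
      rw [← hφ]
      simp only [hu, Complex.ofReal_re]
      ring
    simp only [curve, a, Prod.norm_def, Real.norm_eq_abs]
    exact max_le (hR _ _) (hR _ _)
  · rw [← hφ, ← hφ]
    have e1 : (((n + 1 : ℕ) : ℤ) - n) = 1 := by push_cast; ring
    simp only [hu, Complex.norm_real, Real.norm_eq_abs, e1, sub_self, ← h0, ← h1]
    exact hδ

/-- Infinitely many returns to the set of arcs force a bounded branch. -/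
theorem Stab.bounded_of_frequently {c b τ R L δ κ : ℝ} (hb : b ≠ 0) (hδ : 0 < δ) (hκ0 : 0 ≤ κ)
    (hκ : κ < 1) {x : ℝ × ℝ} {φ : ℕ → ℂ → ℂ} (h : Stab (orb c b x) b τ φ)
    (hE : ∃ᶠ n in atTop, ECurve R L δ κ univ c b ((henon c b)^[n] x)) :
    Bornology.IsBounded (curve (orb c b x) φ '' Ioi 0) ∨
      Bornology.IsBounded (curve (orb c b x) φ '' Iio 0) := by
  by_contra hcon
  rw [not_or] at hcon
  obtain ⟨hp, hm⟩ := hcon
  have ex : ∀ S : Set ℝ, ¬ Bornology.IsBounded (curve (orb c b x) φ '' S) →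
      ∃ t ∈ S, R < ‖curve (orb c b x) φ t‖ := by
    intro S hS
    by_contra hn
    apply hS
    refine isBounded_iff_forall_norm_le.2 ⟨R, ?_⟩
    rintro _ ⟨t, ht, rfl⟩
    by_contra h2
    exact hn ⟨t, ht, lt_of_not_ge h2⟩
  obtain ⟨tp, htp, hRp⟩ := ex _ hp
  obtain ⟨tm, htm, hRm⟩ := ex _ hm
  rw [mem_Ioi] at htp
  rw [mem_Iio] at htm
  obtain ⟨D, θ, hθ0, hθ1, hD⟩ := h.decay (max tp (-tm))
  have hlim : Tendsto (fun n : ℕ => D * θ ^ n) atTop (𝓝 0) := by
    simpa using (tendsto_pow_atTop_nhds_zero_of_lt_one hθ0 hθ1).const_mul D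
  obtain ⟨N, hN⟩ := eventually_atTop.1 (hlim.eventually (gt_mem_nhds hδ))
  obtain ⟨n, hn, hEn⟩ := frequently_atTop.1 hE N
  obtain ⟨ζ, hζ, hζ0, hball, hbig⟩ := back_arc hb hκ0 hκ h n hEn
  have hout : max tp (-tm) < |ζ 1| := by
    by_contra h2
    have h3 : ‖((ζ 1 : ℝ) : ℂ)‖ ≤ max tp (-tm) := by
      rw [Complex.norm_real, Real.norm_eq_abs]
      exact le_of_not_gt h2
    have a1 := (hD n _ h3).trans_lt (hN n hn)
    have a2 := (hD (n + 1) _ h3).trans_lt (hN (n + 1) (by omega))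
    exact absurd hbig (not_le.2 (max_lt a1 a2))
  rcases le_total 0 (ζ 1) with h2 | h2
  · rw [abs_of_nonneg h2] at hout
    have h3 : tp ∈ Icc (ζ 0) (ζ 1) :=
      ⟨by rw [hζ0]; exact htp.le, ((le_max_left _ _).trans hout.le)⟩
    obtain ⟨t, ht⟩ := intermediate_value_univ 0 1 hζ h3
    have := hball t
    rw [ht] at this
    exact absurd this (not_le.2 hRp)
  · rw [abs_of_nonpos h2] at hout
    have h3 : tm ∈ Icc (ζ 1) (ζ 0) :=
      ⟨by have := (le_max_right _ _).trans hout.le; linarith, by rw [hζ0]; exact htm.le⟩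
    obtain ⟨t, ht⟩ := intermediate_value_univ 1 0 hζ h3
    have := hball t
    rw [ht] at this
    exact absurd this (not_le.2 hRm)

end Pool.Agent.P.MP_c34bf4_an
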