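import Pool.Agent.P.MP_c34bf4_an.Defs

/-!
# Auxiliary definitions and basic facts for the Hénon family
-/

namespace Pool.Agent.P.MP_c34bf4_an

open MeasureTheory Filter Set

/-- Second coordinate along the forward orbit. -/
def orb (c b : ℝ) (x : ℝ × ℝ) (n : ℕ) : ℝ := ((henon c b)^[n] x).2

/-- Derivative of the Hénon map. -/
noncomputable def dH (b : ℝ) (z : ℝ × ℝ) : (ℝ × ℝ) →L[ℝ] (ℝ × ℝ) :=
  ((2 * z.1) • ContinuousLinearMap.fst ℝ ℝ ℝ - b • ContinuousLinearMap.snd ℝ ℝ ℝ).prod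
    (ContinuousLinearMap.fst ℝ ℝ ℝ)

/-- Derivative of the iterates. -/
noncomputable def dIt (c b : ℝ) : ℕ → ℝ × ℝ → (ℝ × ℝ) →L[ℝ] (ℝ × ℝ)
  | 0, _ => ContinuousLinearMap.id ℝ (ℝ × ℝ)
  | n + 1, z => (dH b ((henon c b)^[n] z)).comp (dIt c b n z)

/-- A point with a vector whose forward exponent exists and is at most `log |b|`. -/
def Reg (c b : ℝ) (x : ℝ × ℝ) : Prop :=
  ∃ (v : ℝ × ℝ) (r : ℝ), 0 < r ∧ r ≤ |b| ∧ ∀ ω : ℝ, 1 < ω → ∃ C : ℝ, ∀ n : ℕ,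
    ‖dIt c b n x v‖ ≤ C * (r * ω) ^ n ∧ (r / ω) ^ n ≤ C * ‖dIt c b n x v‖

/-- Solutions of the linearised scalar recurrence. -/
def LinSol (q : ℕ → ℝ) (b : ℝ) (s : ℕ → ℝ) : Prop :=
  ∀ n, s (n + 2) = 2 * q (n + 1) * s (n + 1) - b * s n

/-- Solutions of the linearised recurrence with a forcing term `g`. -/
def ISol (q : ℕ → ℝ) (b : ℝ) (g u : ℕ → ℂ) : Prop :=
  ∀ n, u (n + 2) = 2 * (q (n + 1) : ℂ) * u (n + 1) - (b : ℂ) * u n + g (n + 1)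

/-- Differences of complex orbits with the real orbit `q`. -/
def NSol (q : ℕ → ℝ) (b : ℝ) (u : ℕ → ℂ) : Prop :=
  ∀ n, u (n + 2) = 2 * (q (n + 1) : ℂ) * u (n + 1) - (b : ℂ) * u n + u (n + 1) ^ 2

/-- A tempered pair of solutions of the linearised recurrence. -/
structure Lin (q : ℕ → ℝ) (b r : ℝ) (s t : ℕ → ℝ) : Prop where
  r_pos : 0 < r
  r_le : r ≤ |b|
  b_lt : |b| < 1
  hs : LinSol q b s
  ht : LinSol q b t
  wr : ∀ n, s (n + 1) * t n - s n * t (n + 1) = b ^ n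
  bd : ∀ ω : ℝ, 1 < ω → ∃ C : ℝ, 1 ≤ C ∧ ∀ n : ℕ,
    |s n| ≤ C * (r * ω) ^ n ∧ |t n| ≤ C * (|b| * ω / r) ^ n

/-- Coefficient along `s`. -/
noncomputable def xi (b : ℝ) (t : ℕ → ℝ) (u : ℕ → ℂ) (n : ℕ) : ℂ :=
  (u (n + 1) * (t n : ℂ) - u n * (t (n + 1) : ℂ)) / (b : ℂ) ^ n

/-- Coefficient along `t`. -/
noncomputable def eta (b : ℝ) (s : ℕ → ℝ) (u : ℕ → ℂ) (n : ℕ) : ℂ :=
  ((s (n + 1) : ℂ) * u n - (s n : ℂ) * u (n + 1)) / (b : ℂ) ^ n

/-- Discrete Green function. -/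
noncomputable def gr (b : ℝ) (s t : ℕ → ℝ) (n k : ℕ) : ℝ := (t n * s k - s n * t k) / b ^ k

/-- An entire family of solutions tangent to `ζ s`, with explicit estimates. -/
structure Tang (q : ℕ → ℝ) (b r ω c K : ℝ) (s : ℕ → ℝ) (φ : ℕ → ℂ → ℂ) : Prop where
  diff : ∀ n, Differentiable ℂ (φ n)
  real : ∀ n (t : ℝ), (φ n t).im = 0
  sol : ∀ ζ, NSol q b (fun n => φ n ζ)
  c_pos : 0 < c
  K_nonneg : 0 ≤ K
  Kc : K * c ≤ 1
  est : ∀ (N n : ℕ) (ζ : ℂ), N ≤ n → ‖ζ‖ * (r * ω ^ 4) ^ N ≤ c →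
    ‖φ n ζ‖ ≤ K * ‖ζ‖ * (r * ω) ^ n ∧
      ‖φ n ζ - ζ * s n‖ ≤ K / c * ‖ζ‖ ^ 2 * (r * (r * ω ^ 4)) ^ n

/-- The part of the stable parametrisation that is symmetric and elementary. -/
structure Stab0 (q : ℕ → ℝ) (b τ : ℝ) (φ : ℕ → ℂ → ℂ) : Prop where
  diff : ∀ n, Differentiable ℂ (φ n)
  zero : ∀ n, φ n 0 = 0
  sol : ∀ ζ, NSol q b (fun n => φ n ζ)
  real : ∀ n (t : ℝ), (φ n t).im = 0
  grow : ∃ c : ℝ, 0 < c ∧ ∀ (n : ℕ) (ζ : ℂ), ‖ζ‖ * τ ^ n ≤ c → ‖φ n ζ‖ ≤ 1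
  decay : ∀ ρ : ℝ, ∃ D θ : ℝ, 0 ≤ θ ∧ θ < 1 ∧ ∀ (n : ℕ) (ζ : ℂ), ‖ζ‖ ≤ ρ → ‖φ n ζ‖ ≤ D * θ ^ n
  inj : ∀ ζ ζ', φ 0 ζ = φ 0 ζ' → φ 1 ζ = φ 1 ζ' → ζ = ζ'

/-- Entire parametrisation of the stable manifold along the orbit `q`. -/
structure Stab (q : ℕ → ℝ) (b τ : ℝ) (φ : ℕ → ℂ → ℂ) : Prop extends Stab0 q b τ φ where
  imm : ∀ ζ, ¬ (deriv (φ 0) ζ = 0 ∧ deriv (φ 1) ζ = 0)
  onto : ∀ (u : unitInterval → ℕ → ℂ) (D θ : ℝ), 0 ≤ θ → θ < 1 → (∀ t, NSol q b (u t)) →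
    (∀ t n, ‖u t n‖ ≤ D * θ ^ n) → (∀ n, Continuous fun t => u t n) →
    (∀ t n, (u t n).im = 0) →
    ∃ ζ : unitInterval → ℝ, Continuous ζ ∧ ∀ t n, u t n = φ n (ζ t)

/-- The real curve attached to `φ`. -/
noncomputable def curve (q : ℕ → ℝ) (φ : ℕ → ℂ → ℂ) (t : ℝ) : ℝ × ℝ :=
  (q 1 + (φ 1 t).re, q 0 + (φ 0 t).re)

/-- There is a Lipschitz arc of bounded orbits starting at `x`, of size at least `δ`,
uniformly contracted in the future; the recurrence is required at the indices in `S`. -/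
def ECurve (R L δ κ : ℝ) (S : Set ℤ) (c b : ℝ) (x : ℝ × ℝ) : Prop :=
  ∃ Γ : unitInterval → ℤ → ℝ, (∀ t i, |Γ t i| ≤ R) ∧
    (∀ t, ∀ i ∈ S, Γ t (i + 2) = Γ t (i + 1) ^ 2 + c - b * Γ t i) ∧
    Γ 0 1 = x.1 ∧ Γ 0 0 = x.2 ∧
    (∀ t t', |Γ t 0 - Γ t' 0| ≤ L * |(t : ℝ) - t'| ∧ |Γ t 1 - Γ t' 1| ≤ L * |(t : ℝ) - t'|) ∧
    (∀ t (k : ℕ), |Γ t k - Γ 0 k| ≤ L * κ ^ k) ∧
    δ ≤ max |Γ 1 0 - Γ 0 0| |Γ 1 1 - Γ 0 1|

theorem iterate_eq (c b : ℝ) (x : ℝ × ℝ) (n : ℕ) :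
    (henon c b)^[n] x = (orb c b x (n + 1), orb c b x n) := by
  simp only [orb, Function.iterate_succ_apply', henon]

theorem orb_rec (c b : ℝ) (x : ℝ × ℝ) (n : ℕ) :
    orb c b x (n + 2) = orb c b x (n + 1) ^ 2 + c - b * orb c b x n := by
  simp only [orb, Function.iterate_succ_apply', henon]

theorem orb_zero (c b : ℝ) (x : ℝ × ℝ) : orb c b x 0 = x.2 := rfl

theorem orb_one (c b : ℝ) (x : ℝ × ℝ) : orb c b x 1 = x.1 := rfl

theorem orb_iterate (c b : ℝ) (x : ℝ × ℝ) (m n : ℕ) :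
    orb c b ((henon c b)^[m] x) n = orb c b x (n + m) := by
  simp only [orb, Function.iterate_add_apply]

/-- An orbit is determined by the recurrence and the first two terms. -/
theorem orb_eq_of_rec (c b : ℝ) (x : ℝ × ℝ) (w : ℕ → ℝ)
    (hw : ∀ n, w (n + 2) = w (n + 1) ^ 2 + c - b * w n) (h1 : w 1 = x.1) (h0 : w 0 = x.2)
    (n : ℕ) : orb c b x n = w n := by
  have : ∀ n, orb c b x n = w n ∧ orb c b x (n + 1) = w (n + 1) := by
    intro n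
    induction n with
    | zero => exact ⟨h0.symm, h1.symm⟩
    | succ n ih => exact ⟨ih.2, by rw [orb_rec, hw, ih.1, ih.2]⟩
  exact (this n).1

theorem dH_apply (b : ℝ) (z v : ℝ × ℝ) : dH b z v = (2 * z.1 * v.1 - b * v.2, v.1) := by
  simp [dH]

theorem continuous_henon_param :
    Continuous fun w : (ℝ × ℝ) × (ℝ × ℝ) => henon w.1.1 w.1.2 w.2 := by
  unfold henon; fun_prop

theorem continuous_henon (c b : ℝ) : Continuous (henon c b) := by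
  unfold henon; fun_prop

theorem continuous_iterate_param (n : ℕ) :
    Continuous fun w : (ℝ × ℝ) × (ℝ × ℝ) => (henon w.1.1 w.1.2)^[n] w.2 := by
  induction n with
  | zero => exact continuous_snd
  | succ n ih =>
    simp only [Function.iterate_succ_apply']
    exact continuous_henon_param.comp (continuous_fst.prodMk ih)

theorem continuous_dH_param : Continuous fun w : ℝ × (ℝ × ℝ) => dH w.1 w.2 := by
  unfold dH
  refine (ContinuousLinearMap.prodL ℝ).continuous.comp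
    (f := fun w : ℝ × (ℝ × ℝ) => ((2 * w.2.1) • ContinuousLinearMap.fst ℝ ℝ ℝ -
      w.1 • ContinuousLinearMap.snd ℝ ℝ ℝ, ContinuousLinearMap.fst ℝ ℝ ℝ)) ?_
  fun_prop

theorem continuous_dIt_param (n : ℕ) :
    Continuous fun w : (ℝ × ℝ) × (ℝ × ℝ) => dIt w.1.1 w.1.2 n w.2 := by
  induction n with
  | zero => exact continuous_const
  | succ n ih =>
    simp only [dIt]
    refine Continuous.clm_comp ?_ ih
    exact continuous_dH_param.comp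
      ((continuous_snd.comp continuous_fst).prodMk (continuous_iterate_param n))

theorem continuous_dIt (c b : ℝ) (n : ℕ) : Continuous (dIt c b n) :=
  (continuous_dIt_param n).comp (f := fun z : ℝ × ℝ => ((c, b), z)) (by fun_prop)

theorem hasFDerivAt_henon (c b : ℝ) (z : ℝ × ℝ) : HasFDerivAt (henon c b) (dH b z) z := by
  have h1 : HasFDerivAt (fun z : ℝ × ℝ => z.1) (ContinuousLinearMap.fst ℝ ℝ ℝ) z :=
    hasFDerivAt_fst
  have h2 : HasFDerivAt (fun z : ℝ × ℝ => z.2) (ContinuousLinearMap.snd ℝ ℝ ℝ) z :=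
    hasFDerivAt_snd
  have h3 := (((h1.pow 2).add_const c).sub (h2.const_mul b)).prodMk h1
  have e : dH b z = ((2 • z.1 ^ (2 - 1)) • ContinuousLinearMap.fst ℝ ℝ ℝ -
      b • ContinuousLinearMap.snd ℝ ℝ ℝ).prod (ContinuousLinearMap.fst ℝ ℝ ℝ) := by
    simp [dH]
  rw [e]
  exact h3

theorem hasFDerivAt_iterate (c b : ℝ) (n : ℕ) (z : ℝ × ℝ) :
    HasFDerivAt (henon c b)^[n] (dIt c b n z) z := by
  induction n with
  | zero => exact hasFDerivAt_id z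
  | succ n ih =>
    rw [Function.iterate_succ']
    exact (hasFDerivAt_henon c b _).comp z ih

theorem fderiv_iterate (c b : ℝ) (n : ℕ) (z : ℝ × ℝ) :
    fderiv ℝ (henon c b)^[n] z = dIt c b n z := (hasFDerivAt_iterate c b n z).fderiv

theorem dIt_add (c b : ℝ) (m n : ℕ) (z : ℝ × ℝ) :
    dIt c b (m + n) z = (dIt c b m ((henon c b)^[n] z)).comp (dIt c b n z) := by
  induction m with
  | zero => simp [dIt]
  | succ m ih =>
    rw [show m + 1 + n = (m + n) + 1 by ring]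
    simp only [dIt, ih, Function.iterate_add_apply, ContinuousLinearMap.comp_assoc]

theorem dIt_succ_apply (c b : ℝ) (n : ℕ) (z v : ℝ × ℝ) :
    dIt c b (n + 1) z v = dH b ((henon c b)^[n] z) (dIt c b n z v) := rfl

theorem dIt_det (c b : ℝ) (n : ℕ) (z : ℝ × ℝ) :
    (dIt c b n z (1, 0)).1 * (dIt c b n z (0, 1)).2 -
      (dIt c b n z (0, 1)).1 * (dIt c b n z (1, 0)).2 = b ^ n := by
  induction n with
  | zero => simp [dIt]
  | succ n ih =>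
    simp only [dIt_succ_apply, dH_apply, pow_succ]
    rw [← ih]; ring

theorem dIt_eq (c b : ℝ) (n : ℕ) (z v : ℝ × ℝ) :
    dIt c b n z v = ((dIt c b (n + 1) z v).2, (dIt c b n z v).2) := by
  simp only [dIt_succ_apply, dH_apply]

theorem linSol_dIt (c b : ℝ) (z v : ℝ × ℝ) :
    LinSol (orb c b z) b (fun n => (dIt c b n z v).2) := by
  intro n
  simp only [dIt_succ_apply, dH_apply, iterate_eq]

theorem dH_ne_zero {b : ℝ} (hb : b ≠ 0) (z : ℝ × ℝ) {v : ℝ × ℝ} (hv : v ≠ 0) : dH b z v ≠ 0 := by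
  intro h
  rw [dH_apply, Prod.mk_eq_zero] at h
  apply hv
  have h1 := h.2
  have h2 : v.2 = 0 := by
    have := h.1
    rw [h1] at this
    simpa [hb] using this
  exact Prod.ext h1 h2

theorem dIt_apply_ne_zero (c : ℝ) {b : ℝ} (hb : b ≠ 0) (n : ℕ) (z : ℝ × ℝ) {v : ℝ × ℝ}
    (hv : v ≠ 0) : dIt c b n z v ≠ 0 := by
  induction n with
  | zero => exact hv
  | succ n ih => exact dH_ne_zero hb _ ih

theorem dIt_ne_zero (c : ℝ) {b : ℝ} (hb : b ≠ 0) (n : ℕ) (z : ℝ × ℝ) : dIt c b n z ≠ 0 := by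
  intro h
  have := dIt_apply_ne_zero c hb n z (v := (1, 0)) (by simp)
  rw [h] at this
  exact this rfl

theorem NSol.isol {q : ℕ → ℝ} {b : ℝ} {u : ℕ → ℂ} (h : NSol q b u) :
    ISol q b (fun n => u n ^ 2) u := h

/-- Backward uniqueness for the nonlinear recurrence. -/
theorem NSol.eq_of_eq {q : ℕ → ℝ} {b : ℝ} (hb : b ≠ 0) {u u' : ℕ → ℂ} (h : NSol q b u)
    (h' : NSol q b u') (N : ℕ) (h0 : u N = u' N) (h1 : u (N + 1) = u' (N + 1)) : u = u' := by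
  have hb' : (b : ℂ) ≠ 0 := by exact_mod_cast hb
  have back : ∀ N, u N = u' N → u (N + 1) = u' (N + 1) → u 0 = u' 0 ∧ u 1 = u' 1 := by
    intro N
    induction N with
    | zero => exact fun a b => ⟨a, b⟩
    | succ N ih =>
      intro a1 a2
      refine ih ?_ a1
      have e1 := h N
      have e2 := h' N
      rw [a2, a1, e2] at e1
      exact mul_left_cancel₀ hb' (by linear_combination e1)
  obtain ⟨a0, a1⟩ := back N h0 h1
  have fw : ∀ n, u n = u' n ∧ u (n + 1) = u' (n + 1) := by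
    intro n
    induction n with
    | zero => exact ⟨a0, a1⟩
    | succ n ih => exact ⟨ih.2, by rw [h n, h' n, ih.1, ih.2]⟩
  exact funext fun n => (fw n).1

theorem Lin.b_ne {q : ℕ → ℝ} {b r : ℝ} {s t : ℕ → ℝ} (h : Lin q b r s t) : b ≠ 0 :=
  abs_pos.1 (h.r_pos.trans_le h.r_le)

theorem Stab0.neg {q : ℕ → ℝ} {b τ : ℝ} {φ : ℕ → ℂ → ℂ} (h : Stab0 q b τ φ) :
    Stab0 q b τ (fun n ζ => φ n (-ζ)) where
  diff n := (h.diff n).comp differentiable_neg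
  zero n := by simpa using h.zero n
  sol ζ := h.sol (-ζ)
  real n t := by simpa using h.real n (-t)
  grow := by
    obtain ⟨c, hc, h1⟩ := h.grow
    exact ⟨c, hc, fun n ζ hζ => h1 n (-ζ) (by simpa using hζ)⟩
  decay ρ := by
    obtain ⟨D, θ, h0, h1, h2⟩ := h.decay ρ
    exact ⟨D, θ, h0, h1, fun n ζ hζ => h2 n (-ζ) (by simpa using hζ)⟩
  inj ζ ζ' a b := neg_injective (h.inj _ _ a b)

end Pool.Agent.P.MP_c34bf4_an
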