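import Pool.Agent.P.MP_c34bf4_an.Volterra

namespace Pool.Agent.P.MP_c34bf4_an

open MeasureTheory Filter Set Topology

variable {q : ℕ → ℝ} {b r : ℝ} {s t : ℕ → ℝ}

theorem boot_term {b : ℝ} (hb : b ≠ 0) {z : ℂ} {x D C ρ a : ℝ} {k : ℕ} (hz : ‖z‖ ≤ D * ρ ^ k)
    (hx : |x| ≤ C * a ^ k) :
    ‖z ^ 2 * (x : ℂ) / (b : ℂ) ^ k‖ ≤ C * D ^ 2 * (ρ ^ 2 * a / |b|) ^ k := by
  have hβ : 0 < |b| ^ k := pow_pos (abs_pos.2 hb) k
  rw [norm_div, norm_mul, norm_pow, norm_pow, Complex.norm_real, Complex.norm_real,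
    Real.norm_eq_abs, Real.norm_eq_abs, div_pow, mul_pow, ← mul_div_assoc]
  refine div_le_div_of_nonneg_right ?_ hβ.le
  have h1 : ‖z‖ ^ 2 ≤ (D * ρ ^ k) ^ 2 := pow_le_pow_left₀ (norm_nonneg _) hz 2
  calc ‖z‖ ^ 2 * |x| ≤ (D * ρ ^ k) ^ 2 * (C * a ^ k) :=
        mul_le_mul h1 hx (abs_nonneg _) (sq_nonneg _)
    _ = _ := by rw [mul_pow, ← pow_mul, ← pow_mul, mul_comm k 2]; ring

/-- One improvement step for the decay rate. -/
theorem Lin.boot_step (h : Lin q b r s t) {ω ρ ρ' : ℝ} (hω : 1 < ω) (hρ : 0 ≤ ρ)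
    (h1 : ω * ρ < 1) (h2 : r * ω < ρ') (h3 : ω ^ 2 * ρ ^ 2 ≤ ρ') (D : ℝ) :
    ∃ D' : ℝ, ∀ u : ℕ → ℂ, NSol q b u → (∀ n, ‖u n‖ ≤ D * ρ ^ n) →
      ∀ n, ‖u n‖ ≤ D' * ρ' ^ n := by
  obtain ⟨C, hC, hbd⟩ := h.bd ω hω
  have hr := h.r_pos
  have hβ : 0 < |b| := abs_pos.2 h.b_ne
  have hω0 : 0 < ω := by linarith
  have hrω : 0 < r * ω := mul_pos hr hω0
  have hC0 : 0 ≤ C := by linarith
  have hρ1 : ρ ≤ 1 := by nlinarith
  have hrb : r / |b| ≤ 1 := (div_le_one hβ).2 h.r_le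
  obtain ⟨γ, hγ⟩ : ∃ γ, γ = ρ' / (r * ω) := ⟨_, rfl⟩
  have hγ1 : 1 < γ := hγ ▸ (one_lt_div hrω).2 h2
  have hγρ : γ * (r * ω) = ρ' := by rw [hγ]; field_simp
  obtain ⟨l, hl⟩ : ∃ l, l = ρ ^ 2 * (r * ω) / |b| := ⟨_, rfl⟩
  obtain ⟨m, hm⟩ : ∃ m, m = r * ω * ρ / |b| := ⟨_, rfl⟩
  have hm0 : 0 ≤ m := by rw [hm]; positivity
  have hm1 : m < 1 := by
    have : m = r / |b| * (ω * ρ) := by rw [hm]; ring
    rw [this]
    exact lt_of_le_of_lt (mul_le_of_le_one_left (by positivity) hrb) h1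
  have hl0 : 0 ≤ l := by rw [hl]; positivity
  have hl1 : l < 1 := by
    have : l = ρ * m := by rw [hl, hm]; ring
    rw [this]
    exact lt_of_le_of_lt (mul_le_of_le_one_left hm0 hρ1) hm1
  have hlt : l * (|b| * ω / r) ≤ ρ' := by
    have : l * (|b| * ω / r) = ω ^ 2 * ρ ^ 2 := by rw [hl]; field_simp
    rw [this]; exact h3
  have hγt : ρ ^ 2 * (|b| * ω / r) / |b| ≤ γ := by
    rw [hγ, le_div_iff₀ hrω]
    refine le_of_eq_of_le ?_ h3
    field_simp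
  obtain ⟨D1, hD1⟩ : ∃ D1, D1 = D * ρ * |t 0| + D * |t 1| + C * D ^ 2 * γ / (γ - 1) := ⟨_, rfl⟩
  refine ⟨D1 * C + C * D ^ 2 * l / (1 - l) * C, fun u hu hb n => ?_⟩
  have hD : 0 ≤ D := by simpa using (norm_nonneg _).trans (hb 0)
  have hq : 0 ≤ C * D ^ 2 * γ / (γ - 1) := div_nonneg (by positivity) (by linarith)
  have hD10 : 0 ≤ D1 := by rw [hD1]; positivity
  have hD11 : C * D ^ 2 * γ ≤ D1 * (γ - 1) := by
    rw [← div_le_iff₀ (by linarith), hD1]
    have : 0 ≤ D * ρ * |t 0| + D * |t 1| := by positivity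
    linarith
  have hxi : ∀ n, ‖xi b t u n‖ ≤ D1 * γ ^ n := fun n => by
    induction n with
    | zero =>
      have a0 := hb 0
      have a1 := hb 1
      rw [pow_zero, mul_one] at a0
      rw [pow_one] at a1
      rw [xi, pow_zero, div_one, pow_zero, mul_one, zero_add]
      refine (norm_sub_le _ _).trans ?_
      rw [norm_mul, norm_mul, Complex.norm_real, Complex.norm_real, Real.norm_eq_abs,
        Real.norm_eq_abs, hD1]
      have b0 := mul_le_mul_of_nonneg_right a0 (abs_nonneg (t 1))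
      have b1 := mul_le_mul_of_nonneg_right a1 (abs_nonneg (t 0))
      linarith
    | succ n ih =>
      rw [h.xi_succ hu.isol]
      refine (norm_add_le _ _).trans ?_
      have a1 := boot_term h.b_ne (hb (n + 1)) (hbd (n + 1)).2
      have a2 : (ρ ^ 2 * (|b| * ω / r) / |b|) ^ (n + 1) ≤ γ ^ (n + 1) :=
        pow_le_pow_left₀ (by positivity) hγt _
      have a3 := mul_le_mul_of_nonneg_left a2 (show 0 ≤ C * D ^ 2 by positivity)
      have a4 := mul_le_mul_of_nonneg_right hD11 (pow_nonneg (by linarith : 0 ≤ γ) n)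
      refine (add_le_add ih (a1.trans a3)).trans ?_
      rw [pow_succ γ n]
      linarith
  have hlim : Tendsto (eta b s u) atTop (𝓝 0) := by
    have h0 : Tendsto (fun n => C * D * (r * ω + ρ) * m ^ n) atTop (𝓝 0) := by
      simpa using (tendsto_pow_atTop_nhds_zero_of_lt_one hm0 hm1).const_mul (C * D * (r * ω + ρ))
    refine squeeze_zero_norm (fun n => ?_) h0
    rw [eta, norm_div, norm_pow, Complex.norm_real, Real.norm_eq_abs, hm, div_pow,
      ← mul_div_assoc]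
    refine div_le_div_of_nonneg_right ((norm_sub_le _ _).trans ?_) (pow_pos hβ n).le
    rw [norm_mul, norm_mul, Complex.norm_real, Complex.norm_real, Real.norm_eq_abs,
      Real.norm_eq_abs]
    have b0 := mul_le_mul (hbd (n + 1)).1 (hb n) (norm_nonneg _) (by positivity)
    have b1 := mul_le_mul (hbd n).1 (hb (n + 1)) (norm_nonneg _) (by positivity)
    refine (add_le_add b0 b1).trans (le_of_eq ?_)
    rw [mul_pow (r * ω) ρ n]
    ring
  have heta : ‖eta b s u n‖ ≤ C * D ^ 2 * l * l ^ n / (1 - l) := by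
    have := dist_le_of_le_geometric_of_tendsto l (C * D ^ 2 * l) hl1 (fun k => by
      rw [dist_eq_norm, h.eta_succ hu.isol, sub_sub_cancel]
      refine (boot_term h.b_ne (hb (k + 1)) (hbd (k + 1)).1).trans (le_of_eq ?_)
      rw [← hl]
      ring) hlim n
    rwa [dist_zero_right] at this
  rw [h.decomp u n]
  refine (norm_add_le _ _).trans ?_
  rw [norm_mul, norm_mul, Complex.norm_real, Complex.norm_real, Real.norm_eq_abs,
    Real.norm_eq_abs, add_mul]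
  have hq' : 0 ≤ C * D ^ 2 * l / (1 - l) := div_nonneg (by positivity) (by linarith)
  refine add_le_add ?_ ?_
  · refine (mul_le_mul (hxi n) (hbd n).1 (abs_nonneg _)
      (mul_nonneg hD10 (pow_nonneg (by linarith) n))).trans (le_of_eq ?_)
    rw [← hγρ, mul_pow γ]
    ring
  · refine (mul_le_mul heta (hbd n).2 (abs_nonneg _) ((norm_nonneg _).trans heta)).trans ?_
    have a1 : (l * (|b| * ω / r)) ^ n ≤ ρ' ^ n := pow_le_pow_left₀ (by positivity) hlt n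
    refine le_of_eq_of_le ?_ (mul_le_mul_of_nonneg_left a1 (mul_nonneg hq' hC0))
    rw [mul_pow l]
    ring

/-- Exponentially decaying solutions decay at the stable rate, uniformly. -/
theorem Lin.boot (h : Lin q b r s t) {θ P : ℝ} (hθ0 : 0 ≤ θ) (hθ : θ < 1) (hP : r < P) (D : ℝ) :
    ∃ D' : ℝ, ∀ u : ℕ → ℂ, NSol q b u → (∀ n, ‖u n‖ ≤ D * θ ^ n) →
      ∀ n, ‖u n‖ ≤ D' * P ^ n := by
  have hP0 : 0 < P := h.r_pos.trans hP
  have triv : ∀ ρ, θ ≤ ρ → ∀ u : ℕ → ℂ, (∀ n, ‖u n‖ ≤ D * θ ^ n) → ∀ n, ‖u n‖ ≤ D * ρ ^ n :=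
    fun ρ hρ u hb n => by
      have hD : 0 ≤ D := by simpa using (norm_nonneg _).trans (hb 0)
      exact (hb n).trans (mul_le_mul_of_nonneg_left (pow_le_pow_left₀ hθ0 hρ n) hD)
  rcases le_or_gt θ P with hle | hlt
  · exact ⟨D, fun u _ hb => triv P hle u hb⟩
  obtain ⟨κ, hκ1, hκ2⟩ := exists_between hθ
  have hκ0 : 0 ≤ κ := hθ0.trans hκ1.le
  obtain ⟨ω, ⟨a1, a2⟩, hω⟩ : ∃ ω : ℝ, (ω ^ 2 * θ < κ ∧ r * ω < P) ∧ 1 < ω := by
    have e1 : ∀ᶠ ω : ℝ in 𝓝 1, ω ^ 2 * θ < κ :=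
      (by fun_prop : Continuous fun ω : ℝ => ω ^ 2 * θ).continuousAt.eventually_lt
        continuousAt_const (by simpa using hκ1)
    have e2 : ∀ᶠ ω : ℝ in 𝓝 1, r * ω < P :=
      (by fun_prop : Continuous fun ω : ℝ => r * ω).continuousAt.eventually_lt
        continuousAt_const (by simpa using hP)
    exact (((e1.and e2).filter_mono nhdsWithin_le_nhds).and
      (self_mem_nhdsWithin (s := Ioi (1 : ℝ)))).exists
  have key : ∀ k : ℕ, ∃ D' : ℝ, ∀ u : ℕ → ℂ, NSol q b u → (∀ n, ‖u n‖ ≤ D * θ ^ n) →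
      ∀ n, ‖u n‖ ≤ D' * (max P (θ * κ ^ k)) ^ n := fun k => by
    induction k with
    | zero => exact ⟨D, fun u _ hb => triv _ (by simp) u hb⟩
    | succ k ih =>
      obtain ⟨D', hD'⟩ := ih
      have b0 : 0 ≤ max P (θ * κ ^ k) := hP0.le.trans (le_max_left _ _)
      have b1 : max P (θ * κ ^ k) ≤ θ :=
        max_le hlt.le (mul_le_of_le_one_right hθ0 (pow_le_one₀ hκ0 hκ2.le))
      have b2 : κ * max P (θ * κ ^ k) ≤ max P (θ * κ ^ (k + 1)) := by
        rw [mul_max_of_nonneg _ _ hκ0]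
        exact max_le_max (mul_le_of_le_one_left hP0.le hκ2.le) (le_of_eq (by ring))
      have b3 : ω * θ ≤ ω ^ 2 * θ := mul_le_mul_of_nonneg_right (by nlinarith) hθ0
      obtain ⟨D'', hD''⟩ := h.boot_step (ρ' := max P (θ * κ ^ (k + 1))) hω b0
        (by nlinarith) (a2.trans_le (le_max_left _ _)) (by
          refine le_trans ?_ b2
          have b4 : ω ^ 2 * max P (θ * κ ^ k) ≤ κ :=
            (mul_le_mul_of_nonneg_left b1 (sq_nonneg ω)).trans a1.le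
          have := mul_le_mul_of_nonneg_right b4 b0
          nlinarith) D'
      exact ⟨D'', fun u hu hb => hD'' u hu (hD' u hu hb)⟩
  obtain ⟨k, hk⟩ := exists_pow_lt_of_lt_one hP0 hκ2
  obtain ⟨D', hD'⟩ := key k
  rw [max_eq_left ((mul_le_of_le_one_left (pow_nonneg hκ0 k) hθ.le).trans hk.le)] at hD'
  exact ⟨D', hD'⟩

end Pool.Agent.P.MP_c34bf4_an
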