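import Mathlib

namespace Pool.Agent.P.MP_c34bf4_an

open MeasureTheory Filter Set Topology

theorem charpoly_eval (L : (ℝ × ℝ) →L[ℝ] (ℝ × ℝ)) (z : ℂ) :
    Polynomial.aeval z (LinearMap.charpoly (L : (ℝ × ℝ) →ₗ[ℝ] (ℝ × ℝ))) =
      z ^ 2 - (((L (1, 0)).1 + (L (0, 1)).2 : ℝ) : ℂ) * z +
        (((L (1, 0)).1 * (L (0, 1)).2 - (L (0, 1)).1 * (L (1, 0)).2 : ℝ) : ℂ) := by
  rw [← LinearMap.charpoly_toMatrix _ (Module.Basis.finTwoProd ℝ), Matrix.charpoly_fin_two,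
    Matrix.trace_fin_two, Matrix.det_fin_two]
  simp [LinearMap.toMatrix_apply]

theorem charpoly_apply (L : (ℝ × ℝ) →L[ℝ] (ℝ × ℝ)) (x y : ℝ) :
    L (x, y) = (x * (L (1, 0)).1 + y * (L (0, 1)).1, x * (L (1, 0)).2 + y * (L (0, 1)).2) := by
  have h : ((x, y) : ℝ × ℝ) = x • ((1, 0) : ℝ × ℝ) + y • ((0, 1) : ℝ × ℝ) := by simp
  rw [h, map_add, map_smul, map_smul]
  ext <;> simp

theorem charpoly_sq (L : (ℝ × ℝ) →L[ℝ] (ℝ × ℝ)) :
    L * L = ((L (1, 0)).1 + (L (0, 1)).2) • L -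
      ((L (1, 0)).1 * (L (0, 1)).2 - (L (0, 1)).1 * (L (1, 0)).2) • (1 : (ℝ × ℝ) →L[ℝ] (ℝ × ℝ)) := by
  refine ContinuousLinearMap.ext fun p => ?_
  obtain ⟨x, y⟩ := p
  rw [ContinuousLinearMap.mul_apply, ContinuousLinearMap.sub_apply,
    ContinuousLinearMap.smul_apply, ContinuousLinearMap.smul_apply, ContinuousLinearMap.one_apply,
    charpoly_apply L x y, charpoly_apply]
  ext <;> simp only [Prod.fst_sub, Prod.snd_sub, Prod.smul_mk, smul_eq_mul] <;> ring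

theorem roots_lt_one_of_norm_le (L : (ℝ × ℝ) →L[ℝ] (ℝ × ℝ)) (h : ‖L‖ ≤ 1 / 4) (z : ℂ)
    (hz : Polynomial.aeval z (LinearMap.charpoly (L : (ℝ × ℝ) →ₗ[ℝ] (ℝ × ℝ))) = 0) :
    ‖z‖ < 1 := by
  rw [charpoly_eval] at hz
  have h1 : ‖L (1, 0)‖ ≤ 1 / 4 := by
    have := L.le_opNorm (1, 0)
    simp only [Prod.norm_def, norm_one, norm_zero, zero_le_one, sup_of_le_left, mul_one] at this ⊢
    exact this.trans h
  have h2 : ‖L (0, 1)‖ ≤ 1 / 4 := by
    have := L.le_opNorm (0, 1)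
    simp only [Prod.norm_def, norm_one, norm_zero, zero_le_one, sup_of_le_right, mul_one] at this ⊢
    exact this.trans h
  have ha : |(L (1, 0)).1| ≤ 1 / 4 := (norm_fst_le _).trans h1
  have hc : |(L (1, 0)).2| ≤ 1 / 4 := (norm_snd_le _).trans h1
  have hb : |(L (0, 1)).1| ≤ 1 / 4 := (norm_fst_le _).trans h2
  have hd : |(L (0, 1)).2| ≤ 1 / 4 := (norm_snd_le _).trans h2
  generalize (L (1, 0)).1 = a at *
  generalize (L (1, 0)).2 = c at *
  generalize (L (0, 1)).1 = b at *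
  generalize (L (0, 1)).2 = d at *
  have ht : |a + d| ≤ 1 / 2 := (abs_add_le _ _).trans (by linarith)
  have hD : |a * d - b * c| ≤ 1 / 8 := by
    refine (abs_sub _ _).trans ?_
    rw [abs_mul, abs_mul]
    have := mul_le_mul ha hd (abs_nonneg _) (by norm_num)
    have := mul_le_mul hb hc (abs_nonneg _) (by norm_num)
    linarith
  have e : z ^ 2 = ((a + d : ℝ) : ℂ) * z - ((a * d - b * c : ℝ) : ℂ) := by
    linear_combination hz
  have hn : ‖z‖ ^ 2 ≤ |a + d| * ‖z‖ + |a * d - b * c| := by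
    rw [← norm_pow, e]
    refine (norm_sub_le _ _).trans ?_
    rw [norm_mul, Complex.norm_real, Complex.norm_real, Real.norm_eq_abs, Real.norm_eq_abs]
  by_contra hc'
  have hz1 : 1 ≤ ‖z‖ := not_lt.1 hc'
  have := mul_le_mul_of_nonneg_right ht (norm_nonneg z)
  nlinarith

/-- the Lucas sequence of the pair `t, D` -/
def charpolyU (t D : ℝ) : ℕ → ℝ
  | 0 => 0
  | 1 => 1
  | n + 2 => t * charpolyU t D (n + 1) - D * charpolyU t D n

theorem charpoly_pow {A : Type*} [Ring A] [Algebra ℝ A] (L : A) {t D : ℝ}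
    (h : L * L = t • L - D • (1 : A)) (n : ℕ) :
    L ^ (n + 1) = charpolyU t D (n + 1) • L - (D * charpolyU t D n) • (1 : A) := by
  induction n with
  | zero => simp [charpolyU]
  | succ n ih =>
    rw [pow_succ, ih, sub_mul, smul_mul_assoc, smul_mul_assoc, h, one_mul, charpolyU]
    module

theorem charpoly_diff {t D : ℝ} {z w : ℂ} (h1 : z + w = t) (h2 : z * w = D) (n : ℕ) :
    (charpolyU t D (n + 1) : ℂ) = z * charpolyU t D n + w ^ n := by
  induction n with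
  | zero => simp [charpolyU]
  | succ n ih =>
    rw [charpolyU]
    push_cast
    rw [← h1, ← h2, pow_succ]
    linear_combination w * ih

theorem charpoly_bound {t D ρ : ℝ} {z w : ℂ} (h1 : z + w = t) (h2 : z * w = D) (hz : ‖z‖ ≤ ρ)
    (hw : ‖w‖ ≤ ρ) (hρ : 1 / 2 ≤ ρ) (n : ℕ) : |charpolyU t D n| ≤ 2 * (n * ρ ^ n) := by
  induction n with
  | zero => simp [charpolyU]
  | succ n ih =>
    have hρ0 : 0 ≤ ρ := by linarith
    have e : |charpolyU t D (n + 1)| ≤ ρ * |charpolyU t D n| + ρ ^ n := by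
      rw [← Real.norm_eq_abs, ← Complex.norm_real, charpoly_diff h1 h2]
      refine (norm_add_le _ _).trans (add_le_add ?_ ?_)
      · rw [norm_mul, Complex.norm_real, Real.norm_eq_abs]
        exact mul_le_mul_of_nonneg_right hz (abs_nonneg _)
      · rw [norm_pow]
        exact pow_le_pow_left₀ (norm_nonneg _) hw n
    have p := pow_nonneg hρ0 n
    have q := mul_le_mul_of_nonneg_left ih hρ0
    have r := mul_le_mul_of_nonneg_left hρ p
    rw [pow_succ]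
    push_cast
    nlinarith

theorem exists_pow_norm_le (L : (ℝ × ℝ) →L[ℝ] (ℝ × ℝ))
    (h : ∀ z : ℂ, Polynomial.aeval z (LinearMap.charpoly (L : (ℝ × ℝ) →ₗ[ℝ] (ℝ × ℝ))) = 0 →
      ‖z‖ < 1) :
    ∃ n : ℕ, 0 < n ∧ ‖L ^ n‖ ≤ 1 / 8 := by
  have hsq := charpoly_sq L
  simp only [charpoly_eval] at h
  generalize (L (1, 0)).1 + (L (0, 1)).2 = t at h hsq
  generalize (L (1, 0)).1 * (L (0, 1)).2 - (L (0, 1)).1 * (L (1, 0)).2 = D at h hsq
  obtain ⟨s, hs⟩ := IsAlgClosed.exists_eq_mul_self ((t : ℂ) ^ 2 - 4 * D)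
  have h1 : ((t : ℂ) + s) / 2 + (t - s) / 2 = t := by ring
  have h2 : ((t : ℂ) + s) / 2 * ((t - s) / 2) = D := by linear_combination (1 / 4 : ℂ) * hs
  have hz : ‖((t : ℂ) + s) / 2‖ < 1 := h _ (by linear_combination (-1 / 4 : ℂ) * hs)
  have hw : ‖((t : ℂ) - s) / 2‖ < 1 := h _ (by linear_combination (-1 / 4 : ℂ) * hs)
  set ρ : ℝ := max (max ‖((t : ℂ) + s) / 2‖ ‖((t : ℂ) - s) / 2‖) (1 / 2) with hρ
  have hρ1 : ρ < 1 := max_lt (max_lt hz hw) (by norm_num)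
  have hρ2 : 1 / 2 ≤ ρ := le_max_right _ _
  have hb := charpoly_bound h1 h2 ((le_max_left _ _).trans (le_max_left _ _))
    ((le_max_right _ _).trans (le_max_left _ _)) hρ2
  have t0 : Tendsto (fun n : ℕ => 2 * (n * ρ ^ n)) atTop (𝓝 0) := by
    simpa using (tendsto_self_mul_const_pow_of_lt_one (by linarith) hρ1).const_mul 2
  have t1 : Tendsto (fun n : ℕ => |charpolyU t D n|) atTop (𝓝 0) :=
    squeeze_zero (fun _ => abs_nonneg _) hb t0
  have t2 : Tendsto (fun n : ℕ => |charpolyU t D (n + 1)| * ‖L‖ + |D| * |charpolyU t D n|)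
      atTop (𝓝 0) := by
    simpa using (((tendsto_add_atTop_iff_nat 1).2 t1).mul_const ‖L‖).add (t1.const_mul |D|)
  obtain ⟨n, hn⟩ := (t2.eventually (ge_mem_nhds (by norm_num : (0 : ℝ) < 1 / 8))).exists
  refine ⟨n + 1, Nat.succ_pos n, le_trans ?_ hn⟩
  rw [charpoly_pow L hsq]
  refine (norm_sub_le _ _).trans (add_le_add ?_ ?_)
  · rw [norm_smul, Real.norm_eq_abs]
  · rw [norm_smul, Real.norm_eq_abs, abs_mul]
    exact mul_le_of_le_one_right (by positivity) ContinuousLinearMap.norm_id_le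

end Pool.Agent.P.MP_c34bf4_an
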