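import Mathlib

namespace Pool.Agent.P.MP_c34bf4_an

open MeasureTheory Filter Set Topology

theorem slit_root (w : ℂ) : ∃ v : ℂ, v ^ 4 = w ∧ |v.im| ≤ v.re := by
  obtain ⟨z, hz⟩ := IsAlgClosed.exists_pow_nat_eq w (show 0 < 4 by norm_num)
  have hI : Complex.I ^ 4 = 1 := Complex.I_pow_four
  rcases le_total |z.im| |z.re| with h | h
  · rcases le_total 0 z.re with h' | h'
    · exact ⟨z, hz, by rwa [abs_of_nonneg h'] at h⟩
    · refine ⟨-z, by rw [← hz]; ring, ?_⟩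
      rw [Complex.neg_im, Complex.neg_re, abs_neg]
      rwa [abs_of_nonpos h'] at h
  · rcases le_total 0 z.im with h' | h'
    · refine ⟨-(Complex.I * z), by rw [← hz, show (-(Complex.I * z)) ^ 4 = Complex.I ^ 4 * z ^ 4 by
        ring, hI, one_mul], ?_⟩
      rw [abs_of_nonneg h'] at h
      simpa using h
    · refine ⟨Complex.I * z, by rw [← hz, mul_pow, hI, one_mul], ?_⟩
      rw [abs_of_nonpos h'] at h
      simpa using h

theorem slit_sector {G : ℂ → ℂ} (hG : Differentiable ℂ G) {δ : ℝ}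
    (h1 : ∀ z : ℂ, |z.im| = z.re → ‖z‖ ≤ 1 → ‖G z‖ ≤ δ)
    (h2 : ∀ z : ℂ, |z.im| ≤ z.re → ‖z‖ = 1 → ‖G z‖ ≤ δ) {v : ℂ} (hv : |v.im| ≤ v.re)
    (hv' : ‖v‖ ≤ 1) : ‖G v‖ ≤ δ := by
  set K : Set ℂ := {z | |z.im| ≤ z.re ∧ ‖z‖ ≤ 1} with hK
  have c1 : Continuous fun z : ℂ => |z.im| := by fun_prop
  have hc : IsClosed K :=
    (isClosed_le c1 Complex.continuous_re).inter (isClosed_le continuous_norm continuous_const)
  have hb : Bornology.IsBounded K :=
    (Metric.isBounded_closedBall (x := (0:ℂ)) (r := 1)).subset fun z hz => by simpa using hz.2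
  have ho : IsOpen {z : ℂ | |z.im| < z.re ∧ ‖z‖ < 1} :=
    (isOpen_lt c1 Complex.continuous_re).inter (isOpen_lt continuous_norm continuous_const)
  refine Complex.norm_le_of_forall_mem_frontier_norm_le hb hG.diffContOnCl (fun z hz => ?_)
    (subset_closure (show v ∈ K from ⟨hv, hv'⟩))
  have hzK : z ∈ K := hc.frontier_subset hz
  by_cases e1 : |z.im| = z.re
  · exact h1 z e1 hzK.2
  by_cases e2 : ‖z‖ = 1
  · exact h2 z hzK.1 e2
  exact absurd (interior_maximal (fun y hy => (⟨hy.1.le, hy.2.le⟩ : y ∈ K)) ho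
    ⟨lt_of_le_of_ne hzK.1 e1, lt_of_le_of_ne hzK.2 e2⟩) hz.2

/-- Two-constant estimate for a disc slit along a radius. -/
theorem slit_small (M ε : ℝ) (hε : 0 < ε) : ∃ δ : ℝ, 0 < δ ∧ ∀ (h : ℂ → ℂ) (ρ : ℝ),
    Differentiable ℂ h → 0 < ρ → (∀ ζ : ℂ, ‖ζ‖ ≤ ρ → ‖h ζ‖ ≤ M) →
    (∀ t : ℝ, 0 ≤ t → t ≤ ρ → ‖h t‖ ≤ δ) → ∀ ζ : ℂ, ‖ζ‖ ≤ ρ / 16 → ‖h ζ‖ ≤ ε := by
  set M' := max M 1 with hM'
  have hM0 : 0 < M' := lt_of_lt_of_le one_pos (le_max_right _ _)
  set A := 5 * (M' / ε) with hA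
  have hA0 : 0 < A := by positivity
  refine ⟨M' * Real.exp (-(7 / 10 * A)), by positivity, fun h ρ hh hρ hM hs ζ hζ => ?_⟩
  obtain ⟨v, hv4, hv⟩ := slit_root (-ζ / ρ)
  have hρ' : (ρ : ℂ) ≠ 0 := by exact_mod_cast hρ.ne'
  have hζv : -(ρ : ℂ) * v ^ 4 = ζ := by rw [hv4]; field_simp
  have hvn : ‖v‖ ≤ 1 / 2 := by
    refine le_of_pow_le_pow_left₀ (n := 4) (by norm_num) (by norm_num) ?_
    rw [← norm_pow, hv4, norm_div, norm_neg, Complex.norm_real, Real.norm_of_nonneg hρ.le,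
      div_le_iff₀ hρ]
    linarith
  have hn : ∀ z : ℂ, ‖h (-(ρ : ℂ) * z ^ 4) * Complex.exp (-(A : ℂ) * z)‖ =
      ‖h (-(ρ : ℂ) * z ^ 4)‖ * Real.exp (-(A * z.re)) := by
    intro z
    rw [norm_mul, Complex.norm_exp]
    simp
  have key := slit_sector (G := fun z => h (-(ρ : ℂ) * z ^ 4) * Complex.exp (-(A : ℂ) * z))
    (δ := M' * Real.exp (-(7 / 10 * A))) (by fun_prop) (fun z h1 h2 => ?_) (fun z h1 h2 => ?_) hv
    (by linarith)
  · rw [hn, hζv] at key
    have hre : v.re ≤ 1 / 2 := (Complex.re_le_norm v).trans hvn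
    have e1 : ‖h ζ‖ = ‖h ζ‖ * Real.exp (-(A * v.re)) * Real.exp (A * v.re) := by
      rw [mul_assoc, ← Real.exp_add, neg_add_cancel, Real.exp_zero, mul_one]
    have e2 : Real.exp (A * v.re) ≤ Real.exp (A / 2) := Real.exp_le_exp.2 (by nlinarith)
    have e3 : M' * Real.exp (-(7 / 10 * A)) * Real.exp (A / 2) * Real.exp (M' / ε) = M' := by
      rw [mul_assoc, mul_assoc, ← Real.exp_add, ← Real.exp_add,
        show -(7 / 10 * A) + (A / 2 + M' / ε) = 0 by rw [hA]; ring, Real.exp_zero, mul_one]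
    have e4 : M' ≤ ε * Real.exp (M' / ε) := by
      have := Real.add_one_le_exp (M' / ε)
      have h5 : M' = ε * (M' / ε) := by field_simp
      nlinarith
    have e5 : M' * Real.exp (-(7 / 10 * A)) * Real.exp (A / 2) ≤ ε :=
      le_of_mul_le_mul_right (by rw [e3]; exact e4) (Real.exp_pos (M' / ε))
    rw [e1]
    exact (mul_le_mul key e2 (Real.exp_pos _).le (by positivity)).trans e5
  · have hx : 0 ≤ z.re := h1 ▸ abs_nonneg _
    have hy : z.im ^ 2 = z.re ^ 2 := by rw [← h1, sq_abs]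
    have hsq : z.re ^ 2 + z.im ^ 2 ≤ 1 := by
      have h3 : ‖z‖ ^ 2 ≤ 1 := pow_le_one₀ (norm_nonneg _) h2
      rw [Complex.sq_norm, Complex.normSq_apply] at h3
      nlinarith
    have hz4 : -(ρ : ℂ) * z ^ 4 = ((ρ * (4 * z.re ^ 4) : ℝ) : ℂ) := by
      have h3 : z ^ 2 = ((2 * z.re * z.im : ℝ) : ℂ) * Complex.I := by
        apply Complex.ext
        · simp [pow_two]; nlinarith
        · simp [pow_two]; ring
      have h4 : ((2 * z.re * z.im) ^ 2 : ℝ) = 4 * z.re ^ 4 := by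
        rw [mul_pow, hy]; ring
      rw [show z ^ 4 = (z ^ 2) ^ 2 by ring, h3, mul_pow, Complex.I_sq, ← Complex.ofReal_pow, h4]
      push_cast; ring
    have h5 : 4 * z.re ^ 4 ≤ 1 := by nlinarith [sq_nonneg (z.re ^ 2), sq_nonneg z.re]
    rw [hn, hz4]
    have h6 := hs (ρ * (4 * z.re ^ 4)) (by positivity) (mul_le_of_le_one_right hρ.le h5)
    have h7 : Real.exp (-(A * z.re)) ≤ 1 := Real.exp_le_one_iff.2 (by nlinarith)
    exact (mul_le_of_le_one_right (norm_nonneg _) h7).trans h6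
  · have hx : 0 ≤ z.re := (abs_nonneg _).trans h1
    have hy : z.im ^ 2 ≤ z.re ^ 2 := by
      rw [← sq_abs z.im]; exact pow_le_pow_left₀ (abs_nonneg _) h1 2
    have hsq : z.re ^ 2 + z.im ^ 2 = 1 := by
      have h3 : ‖z‖ ^ 2 = 1 := by rw [h2]; norm_num
      rw [Complex.sq_norm, Complex.normSq_apply] at h3
      nlinarith
    have h7 : 7 / 10 ≤ z.re := by
      by_contra hc
      have := not_le.1 hc
      nlinarith
    rw [hn]
    have h6 : ‖h (-(ρ : ℂ) * z ^ 4)‖ ≤ M' := (hM _ (by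
      rw [norm_mul, norm_neg, norm_pow, h2, Complex.norm_real, Real.norm_of_nonneg hρ.le]
      simp)).trans (le_max_left _ _)
    exact mul_le_mul h6 (Real.exp_le_exp.2 (by nlinarith)) (Real.exp_pos _).le hM0.le

open Classical in
/-- Counting future minima (Pliss times). -/
theorem pliss_count {u : ℕ → ℝ} {L a C : ℝ} (hL : 0 < L) (ha : 0 < a)
    (hstep : ∀ m, u (m + 1) - u m ≤ L) (hlow : ∀ m : ℕ, a * m - C ≤ u m) (N : ℕ) :
    (a * N - C - u 0) / L ≤
      (((Finset.range N).filter fun n => ∀ m, n ≤ m → u n ≤ u m).card : ℝ) := by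
  set μ : ℕ → ℝ := fun n => sInf (u '' Ici n) with hμ
  have hb : ∀ n, BddBelow (u '' Ici n) := fun n => ⟨-C, by
    rintro _ ⟨m, -, rfl⟩
    have := hlow m
    have h2 : 0 ≤ a * m := by positivity
    linarith⟩
  have h1 : ∀ n m, n ≤ m → μ n ≤ u m := fun n m h => csInf_le (hb n) ⟨m, h, rfl⟩
  have h2 : ∀ n x, (∀ m, n ≤ m → x ≤ u m) → x ≤ μ n := fun n x h =>
    le_csInf ⟨u n, n, self_mem_Ici, rfl⟩ (by rintro _ ⟨m, hm, rfl⟩; exact h m hm)
  have h3 : ∀ n : ℕ, μ n ≤ u 0 +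
      L * (((Finset.range n).filter fun n => ∀ m, n ≤ m → u n ≤ u m).card : ℝ) := by
    intro n
    induction n with
    | zero => simpa using h1 0 0 le_rfl
    | succ n ih =>
      rw [Finset.range_add_one, Finset.filter_insert]
      split_ifs with hg
      · rw [Finset.card_insert_of_notMem (by simp)]
        have e1 := h1 (n + 1) (n + 1) le_rfl
        have e2 := h2 n (u n) hg
        have e3 := hstep n
        push_cast
        linarith
      · refine le_trans (h2 n _ fun m hm => ?_) ih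
        rcases eq_or_lt_of_le hm with rfl | hm'
        · push Not at hg
          obtain ⟨k, hk, hk'⟩ := hg
          have : n + 1 ≤ k := by
            rcases eq_or_lt_of_le hk with rfl | h
            · exact absurd hk' (lt_irrefl _)
            · exact h
          exact (h1 _ k this).trans hk'.le
        · exact h1 _ m hm'
  have h4 : a * N - C ≤ μ N := h2 N _ fun m hm => by
    have h5 : (N : ℝ) ≤ m := by exact_mod_cast hm
    have := hlow m
    nlinarith
  rw [div_le_iff₀ hL]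
  linarith [h3 N]

end Pool.Agent.P.MP_c34bf4_an
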