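import Pool.Agent.P.MP_c34bf4_an.Basic
import Pool.Agent.P.MP_c34bf4_an.Slit

namespace Pool.Agent.P.MP_c34bf4_an

open MeasureTheory Filter Set Topology

theorem curveat_schwarz {f : ℂ → ℂ} (hf : Differentiable ℂ f) {a c z : ℂ} {ρ R r : ℝ}
    (hb : ∀ ζ : ℂ, ‖ζ‖ < ρ → ‖a + f ζ‖ ≤ R) (hc : ‖c‖ + r ≤ ρ) (hz : ‖z - c‖ < r) :
    ‖f z - f c‖ ≤ 2 * R / r * ‖z - c‖ := by
  have hr : 0 < r := (norm_nonneg _).trans_lt hz
  have h := Complex.dist_le_div_mul_dist_of_mapsTo_ball (f := f) (c := c) (z := z) (R₁ := r)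
    (R₂ := 2 * R) hf.differentiableOn (fun w hw => by
      rw [Metric.mem_ball, dist_eq_norm] at hw
      rw [Metric.mem_closedBall, dist_eq_norm]
      have h1 := hb w (by linarith [norm_le_insert' w c])
      have h2 := hb c (by linarith)
      calc ‖f w - f c‖ = ‖(a + f w) - (a + f c)‖ := by rw [add_sub_add_left_eq_sub]
        _ ≤ ‖a + f w‖ + ‖a + f c‖ := norm_sub_le _ _
        _ ≤ 2 * R := by linarith) (by rwa [Metric.mem_ball, dist_eq_norm])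
  rwa [dist_eq_norm, dist_eq_norm] at h

theorem curveat_down {q : ℕ → ℝ} {b b0 R0 Λ e : ℝ} {u : ℕ → ℂ} (hu : NSol q b u) (hb0 : 0 < b0)
    (hb : b0 ≤ |b|) (hq : ∀ m, |q m| ≤ R0) (h1 : 1 ≤ Λ) (hΛ : (2 + 2 * R0) / b0 ≤ Λ)
    (he : 0 ≤ e) (i : ℕ) : ∀ m, Λ ^ i * e ≤ 1 → ‖u (m + i)‖ ≤ e → ‖u (m + i + 1)‖ ≤ e →
      ‖u m‖ ≤ Λ ^ i * e ∧ ‖u (m + 1)‖ ≤ Λ ^ i * e := by
  induction i with
  | zero => intro m _ a b; simpa using ⟨a, b⟩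
  | succ i ih =>
    intro m h a1 a2
    have p0 : 0 ≤ Λ ^ i * e := by positivity
    have p1 : Λ ^ i * e ≤ Λ ^ (i + 1) * e := by rw [pow_succ]; nlinarith
    obtain ⟨c1, c2⟩ := ih (m + 1) (p1.trans h) (by rwa [show m + 1 + i = m + (i + 1) by ring])
      (by rwa [show m + 1 + i + 1 = m + (i + 1) + 1 by ring])
    refine ⟨?_, c1.trans p1⟩
    have e1 : (b : ℂ) * u m = 2 * (q (m + 1) : ℂ) * u (m + 1) + u (m + 1) ^ 2 - u (m + 2) := by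
      rw [hu m]; ring
    have e2 : |b| * ‖u m‖ ≤ 2 * |q (m + 1)| * ‖u (m + 1)‖ + ‖u (m + 1)‖ ^ 2 + ‖u (m + 2)‖ := by
      have := (norm_sub_le (2 * (q (m + 1) : ℂ) * u (m + 1) + u (m + 1) ^ 2) (u (m + 2))).trans
        (add_le_add (norm_add_le _ _) le_rfl)
      rw [← e1] at this
      simpa [norm_mul, norm_pow] using this
    have n1 := norm_nonneg (u (m + 1))
    have n2 := norm_nonneg (u m)
    have n3 := abs_nonneg (q (m + 1))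
    have e3 : |q (m + 1)| * ‖u (m + 1)‖ ≤ R0 * (Λ ^ i * e) :=
      mul_le_mul (hq _) c1 n1 (n3.trans (hq _))
    have e4 : ‖u (m + 1)‖ ^ 2 ≤ Λ ^ i * e := by nlinarith
    have e5 : b0 * ‖u m‖ ≤ (2 + 2 * R0) * (Λ ^ i * e) := by
      have : b0 * ‖u m‖ ≤ |b| * ‖u m‖ := mul_le_mul_of_nonneg_right hb n2
      have c2' : ‖u (m + 2)‖ ≤ Λ ^ i * e := c2
      nlinarith
    rw [div_le_iff₀ hb0] at hΛ
    have e6 : b0 * ‖u m‖ ≤ b0 * (Λ ^ (i + 1) * e) := by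
      calc _ ≤ (2 + 2 * R0) * (Λ ^ i * e) := e5
        _ ≤ Λ * b0 * (Λ ^ i * e) := mul_le_mul_of_nonneg_right hΛ p0
        _ = _ := by ring
    exact le_of_mul_le_mul_left e6 hb0

/-- At a Pliss time a bounded branch yields an arc of definite size. -/
theorem curve_at (C0 b0 k : ℝ) (hC0 : 0 ≤ C0) (hb0 : 0 < b0) (hk : 1 < k) :
    ∃ (k0 : ℕ) (L δ : ℝ), 0 < δ ∧ ∀ (c b τ : ℝ) (q : ℕ → ℝ) (φ : ℕ → ℂ → ℂ) (Rad : ℕ → ℝ)
      (n j : ℕ), b0 ≤ |b| → (∀ m, |q m| ≤ 3 + C0) →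
      (∀ m, q (m + 2) = q (m + 1) ^ 2 + c - b * q m) → Stab0 q b τ φ → 0 < Rad n →
      (∀ m (ζ : ℂ), ‖ζ‖ < Rad m → ‖(q m : ℂ) + φ m ζ‖ ≤ 4 + C0) →
      (∀ ρ : ℝ, Rad n < ρ → ∃ ζ : ℂ, ‖ζ‖ < ρ ∧ 4 + C0 < ‖(q n : ℂ) + φ n ζ‖) →
      (∀ i : ℕ, k ^ i * Rad n ≤ Rad (n + i)) → j ≤ n →
      (∀ m, n ≤ m + j → ∀ t : ℝ, 0 ≤ t → ‖(q m : ℂ) + φ m t‖ ≤ 4 + C0) →
      ECurve (4 + C0) L δ k⁻¹ (Ici (-(j : ℤ))) c b (q (n + k0 + 1), q (n + k0)) := by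
  obtain ⟨k0, hk0⟩ := pow_unbounded_of_one_lt (128:ℝ) hk
  obtain ⟨Λ, h1, hΛ⟩ : ∃ Λ : ℝ, 1 ≤ Λ ∧ (2 + 2 * (3 + C0)) / b0 ≤ Λ :=
    ⟨max _ _, le_max_left _ _, le_max_right _ _⟩
  have pΛ : 0 < Λ ^ k0 := by positivity
  obtain ⟨δ, hδ, hs⟩ := slit_small (2 * (4 + C0)) (Λ ^ k0)⁻¹ (inv_pos.2 pΛ)
  refine ⟨k0, 2 * (4 + C0), δ, hδ, ?_⟩
  intro c b τ q φ Rad n j hb hq hrec hφ hR hin hmax hgrow hj hbr
  have k0' : 0 < k := by linarith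
  obtain ⟨ρ, hρ⟩ : ∃ ρ, ρ = k ^ k0 * Rad n := ⟨_, rfl⟩
  have pρ : 0 < ρ := by rw [hρ]; positivity
  have hρi : ∀ i : ℕ, k ^ i * ρ ≤ Rad (n + k0 + i) := fun i => by
    have := hgrow (k0 + i)
    rw [pow_add, ← add_assoc] at this
    rw [hρ]; linarith
  have hin' : ∀ (i : ℕ) (ζ : ℂ), ‖ζ‖ < ρ →
      ‖(q (n + k0 + i) : ℂ) + φ (n + k0 + i) ζ‖ ≤ 4 + C0 := fun i ζ h => by
    refine hin _ ζ (h.trans_le (le_trans ?_ (hρi i)))
    exact le_mul_of_one_le_left pρ.le (one_le_pow₀ hk.le)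
  have hM : ∀ (i : ℕ) (ζ : ℂ), ‖ζ‖ ≤ ρ / 4 → ‖φ (n + k0 + i) ζ‖ ≤ 2 * (4 + C0) := fun i ζ h => by
    have a1 := hin' i ζ (by linarith)
    have a2 := norm_sub_le ((q (n + k0 + i) : ℂ) + φ (n + k0 + i) ζ) (q (n + k0 + i) : ℂ)
    rw [add_sub_cancel_left, Complex.norm_real, Real.norm_eq_abs] at a2
    linarith [hq (n + k0 + i)]
  obtain ⟨t1, t0, t4, ht⟩ : ∃ t1 : ℝ, 0 ≤ t1 ∧ t1 ≤ ρ / 4 ∧
      δ ≤ max ‖φ (n + k0) t1‖ ‖φ (n + k0 + 1) t1‖ := by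
    by_contra hn
    push Not at hn
    obtain ⟨ζ, z1, z2⟩ := hmax (ρ / 64) (by rw [hρ]; nlinarith)
    have a1 := hs (φ (n + k0)) (ρ / 4) (hφ.diff _) (by positivity) (hM 0)
      (fun t a a' => ((le_max_left _ _).trans_lt (hn t a a')).le) ζ (by linarith)
    have a2 := hs (φ (n + k0 + 1)) (ρ / 4) (hφ.diff _) (by positivity) (hM 1)
      (fun t a a' => ((le_max_right _ _).trans_lt (hn t a a')).le) ζ (by linarith)
    have a3 := (curveat_down (hφ.sol ζ) hb0 hb hq h1 hΛ (inv_pos.2 pΛ).le k0 n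
      (mul_inv_cancel₀ pΛ.ne').le a1 a2).1
    rw [mul_inv_cancel₀ pΛ.ne'] at a3
    have a4 := norm_add_le (q n : ℂ) (φ n ζ)
    rw [Complex.norm_real, Real.norm_eq_abs] at a4
    linarith [hq n]
  obtain ⟨w, hw⟩ : ∃ w : ℝ → ℕ → ℝ, ∀ s m, w s m = q m + (φ m (s : ℂ)).re := ⟨_, fun _ _ => rfl⟩
  have w0 : ∀ m, w 0 m = q m := fun m => by simp [hw, hφ.zero]
  have wd : ∀ s s' m, |w s m - w s' m| ≤ ‖φ m (s : ℂ) - φ m (s' : ℂ)‖ := fun s s' m => by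
    rw [hw, hw, add_sub_add_left_eq_sub, ← Complex.sub_re]
    exact Complex.abs_re_le_norm _
  have wn : ∀ (s : ℝ) m, |w s m - w 0 m| = ‖φ m (s : ℂ)‖ := fun s m => by
    rw [w0, hw, add_sub_cancel_left]
    exact Complex.abs_re_eq_norm.2 (hφ.real m s)
  have ts : ∀ t : unitInterval, 0 ≤ (t : ℝ) * t1 ∧ (t : ℝ) * t1 ≤ ρ / 4 := fun t =>
    ⟨mul_nonneg t.2.1 t0, (mul_le_of_le_one_left t0 t.2.2).trans t4⟩
  have tn : ∀ t : unitInterval, ‖(((t : ℝ) * t1 : ℝ) : ℂ)‖ ≤ ρ / 4 := fun t => by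
    rw [Complex.norm_real, Real.norm_eq_abs, abs_of_nonneg (ts t).1]; exact (ts t).2
  have lip : ∀ (i : ℕ) (t t' : unitInterval), |w (t * t1) (n + k0 + i) - w (t' * t1) (n + k0 + i)| ≤
      2 * (4 + C0) * |(t : ℝ) - t'| := fun i t t' => by
    have e : ‖(((t : ℝ) * t1 : ℝ) : ℂ) - (((t' : ℝ) * t1 : ℝ) : ℂ)‖ = t1 * |(t : ℝ) - t'| := by
      rw [← Complex.ofReal_sub, Complex.norm_real, Real.norm_eq_abs, ← sub_mul, abs_mul,
        abs_of_nonneg t0, mul_comm]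
    have a0 : |(t : ℝ) - t'| ≤ 1 :=
      abs_le.2 ⟨by linarith [t.2.1, t'.2.2], by linarith [t.2.2, t'.2.1]⟩
    have a1 := abs_nonneg ((t : ℝ) - t')
    have a2 := curveat_schwarz (hφ.diff _) (hin' i) (c := (((t' : ℝ) * t1 : ℝ) : ℂ))
      (z := (((t : ℝ) * t1 : ℝ) : ℂ)) (r := ρ / 2) (by linarith [tn t']) (by rw [e]; nlinarith)
    refine (wd _ _ _).trans (a2.trans ?_)
    rw [e, ← mul_assoc]
    refine mul_le_mul_of_nonneg_right ?_ a1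
    rw [div_mul_eq_mul_div, div_le_iff₀ (by positivity)]
    nlinarith
  have hj0 : -(j : ℤ) ≤ 0 := by omega
  have hj1 : -(j : ℤ) ≤ 1 := by omega
  have i0 : (((n + k0 : ℕ) : ℤ) + 0).toNat = n + k0 := by omega
  have i1 : (((n + k0 : ℕ) : ℤ) + 1).toNat = n + k0 + 1 := by omega
  refine ⟨fun t i => if -(j : ℤ) ≤ i then w (t * t1) (((n + k0 : ℕ) : ℤ) + i).toNat else 0,
    fun t i => ?_, fun t i hi => ?_, ?_, ?_, fun t t' => ?_, fun t i => ?_, ?_⟩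
  · dsimp only
    split_ifs with h
    · have := hbr (((n + k0 : ℕ) : ℤ) + i).toNat (by omega) _ (ts t).1
      refine le_trans ?_ this
      rw [hw]
      exact le_of_eq_of_le (by simp) (Complex.abs_re_le_norm _)
    · rw [abs_zero]; linarith
  · have hi' : -(j : ℤ) ≤ i := hi
    dsimp only
    rw [if_pos hi', if_pos (by omega), if_pos (by omega),
      show (((n + k0 : ℕ) : ℤ) + (i + 2)).toNat = (((n + k0 : ℕ) : ℤ) + i).toNat + 2 by omega,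
      show (((n + k0 : ℕ) : ℤ) + (i + 1)).toNat = (((n + k0 : ℕ) : ℤ) + i).toNat + 1 by omega]
    generalize (((n + k0 : ℕ) : ℤ) + i).toNat = m
    generalize (t : ℝ) * t1 = s
    have a1 := congrArg Complex.re (hφ.sol s m)
    have a2 := hφ.real (m + 1) s
    simp only [sq, Complex.add_re, Complex.sub_re, Complex.mul_re, Complex.ofReal_re,
      Complex.ofReal_im, Complex.re_ofNat, Complex.im_ofNat, a2] at a1
    rw [hw, hw, hw, hrec, a1]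
    ring
  · simp only [if_pos hj1, i1, Icc.coe_zero, zero_mul, w0]
  · simp only [if_pos hj0, i0, Icc.coe_zero, zero_mul, w0]
  · simp only [if_pos hj0, if_pos hj1, i0, i1]
    exact ⟨lip 0 t t', lip 1 t t'⟩
  · have hi : -(j : ℤ) ≤ (i : ℤ) := by omega
    have e : (((n + k0 : ℕ) : ℤ) + (i : ℤ)).toNat = n + k0 + i := by omega
    simp only [if_pos hi, e, Icc.coe_zero, zero_mul]
    have pk : 1 ≤ k ^ i := one_le_pow₀ hk.le
    have a1 := tn t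
    have a2 := curveat_schwarz (hφ.diff _) (hin (n + k0 + i)) (c := 0)
      (z := (((t : ℝ) * t1 : ℝ) : ℂ)) (r := k ^ i * ρ) (by simpa using hρi i)
      (by rw [sub_zero]; nlinarith)
    rw [hφ.zero, sub_zero, sub_zero] at a2
    rw [wn]
    refine a2.trans ?_
    calc _ ≤ 2 * (4 + C0) / (k ^ i * ρ) * ρ :=
          mul_le_mul_of_nonneg_left (by linarith) (by positivity)
      _ = _ := by rw [inv_pow]; field_simp
  · simp only [if_pos hj0, if_pos hj1, i0, i1, Icc.coe_zero, Icc.coe_one, zero_mul, one_mul, wn]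
    exact ht

end Pool.Agent.P.MP_c34bf4_an
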