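import Pool.Agent.P.MP_c34bf4_an.Radius
import Pool.Agent.P.MP_c34bf4_an.CurveAt

namespace Pool.Agent.P.MP_c34bf4_an

open MeasureTheory Filter Set Topology

theorem curve_box {C0 τ c b M : ℝ} (hC0 : 0 ≤ C0) (hc : |c| ≤ C0) (hb1 : |b| ≤ 1)
    {q : ℕ → ℝ} (hq : ∀ n, |q n| ≤ 3 + C0)
    (hrec : ∀ n, q (n + 2) = q (n + 1) ^ 2 + c - b * q n) {φ : ℕ → ℂ → ℂ}
    (h : Stab0 q b τ φ) (hM : ∀ t : ℝ, 0 < t → |q 0 + (φ 0 t).re| ≤ M) :
    ∃ n0 : ℕ, ∀ m, n0 ≤ m → ∀ t : ℝ, 0 ≤ t → ‖(q m : ℂ) + φ m t‖ ≤ 4 + C0 := by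
  obtain ⟨n0, hn0⟩ := pow_unbounded_of_one_lt M (by norm_num : (1 : ℝ) < 2)
  refine ⟨n0, fun m hm t ht => ?_⟩
  rcases ht.eq_or_lt with rfl | ht
  · have := hq m
    simp only [Complex.ofReal_zero, h.zero m, add_zero, Complex.norm_real, Real.norm_eq_abs]
    linarith
  · have hΦ : ∀ n, (fun n => (q n : ℂ) + φ n t) (n + 2) =
        (fun n => (q n : ℂ) + φ n t) (n + 1) ^ 2 + c - b * (fun n => (q n : ℂ) + φ n t) n := by
      intro n
      have e1 := h.sol t n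
      have e2 : (q (n + 2) : ℂ) = (q (n + 1) : ℂ) ^ 2 + c - b * q n := by
        rw [hrec n]; push_cast; ring
      simp only at e1 ⊢
      rw [e1, e2]; ring
    obtain ⟨D, θ, h0, h1, h2⟩ := h.decay ‖(t : ℂ)‖
    have hbd : ∃ M : ℝ, ∃ᶠ n in atTop, ‖(fun n => (q n : ℂ) + φ n t) n‖ ≤ M := by
      refine ⟨3 + C0 + |D|, Frequently.of_forall fun n => ?_⟩
      have a1 := h2 n t le_rfl
      have a2 : θ ^ n ≤ 1 := pow_le_one₀ h0 h1.le
      have a3 : D * θ ^ n ≤ |D| := by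
        have a4 : 0 ≤ θ ^ n := pow_nonneg h0 n
        nlinarith [le_abs_self D, abs_nonneg D]
      have a5 : ‖(q n : ℂ)‖ ≤ 3 + C0 := by
        rw [Complex.norm_real, Real.norm_eq_abs]; exact hq n
      exact (norm_add_le _ _).trans (by linarith)
    have hf := filt_pow hc hb1 hΦ hbd m
    have e0 : ‖(q 0 : ℂ) + φ 0 t‖ = |q 0 + (φ 0 t).re| := by
      have : (q 0 : ℂ) + φ 0 t = ((q 0 + (φ 0 t).re : ℝ) : ℂ) := by
        apply Complex.ext <;> simp [h.real 0 t]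
      rw [this, Complex.norm_real, Real.norm_eq_abs]
    rw [e0] at hf
    refine hf.trans (max_le (by linarith) ?_)
    have a1 : (2 : ℝ) ^ n0 ≤ 2 ^ m := pow_le_pow_right₀ (by norm_num) hm
    have a2 : (0 : ℝ) < 2 ^ m := by positivity
    rw [div_le_iff₀ a2]
    have a3 := hM t ht
    nlinarith

theorem curve_count (P Q : ℕ → Prop) [DecidablePred P] [DecidablePred Q] (n1 k0 : ℕ)
    (h : ∀ n, n1 ≤ n → P n → Q (n + k0)) (N : ℕ) :
    ((Finset.range N).filter P).card ≤ ((Finset.range N).filter Q).card + n1 + k0 := by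
  have h1 : ((Finset.range N).filter P).image (fun n => n + k0) ⊆
      ((Finset.range N).filter Q ∪ Finset.Ico k0 (n1 + k0)) ∪ Finset.Ico N (N + k0) := by
    intro x hx
    simp only [Finset.mem_image, Finset.mem_filter, Finset.mem_range] at hx
    obtain ⟨n, ⟨hn, hP⟩, rfl⟩ := hx
    simp only [Finset.mem_union, Finset.mem_filter, Finset.mem_range, Finset.mem_Ico]
    by_cases a1 : n1 ≤ n
    · by_cases a2 : n + k0 < N
      · exact Or.inl (Or.inl ⟨a2, h n a1 hP⟩)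
      · exact Or.inr ⟨by omega, by omega⟩
    · exact Or.inl (Or.inr ⟨by omega, by omega⟩)
  have h2 := Finset.card_le_card h1
  rw [Finset.card_image_of_injective _ (add_left_injective k0)] at h2
  have h3 := Finset.card_union_le ((Finset.range N).filter Q ∪ Finset.Ico k0 (n1 + k0))
    (Finset.Ico N (N + k0))
  have h4 := Finset.card_union_le ((Finset.range N).filter Q) (Finset.Ico k0 (n1 + k0))
  simp only [Nat.card_Ico] at h3 h4
  omega

open Classical in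
/-- Uniform lower density of the times with an arc of definite size. -/
theorem curve_density (C0 b0 τ : ℝ) (hC0 : 0 ≤ C0) (hb0 : 0 < b0) (hτ : 0 < τ)
    (hτ1 : τ < 1) :
    ∃ L δ κ θ : ℝ, 0 < δ ∧ 0 ≤ κ ∧ κ < 1 ∧ 0 < θ ∧ ∀ (c b : ℝ) (q : ℕ → ℝ) (φ : ℕ → ℂ → ℂ),
      |c| ≤ C0 → b0 ≤ |b| → |b| ≤ 1 → (∀ n, |q n| ≤ 3 + C0) →
      (∀ n, q (n + 2) = q (n + 1) ^ 2 + c - b * q n) → Stab0 q b τ φ →
      (Bornology.IsBounded (curve q φ '' Ioi 0) ∨ Bornology.IsBounded (curve q φ '' Iio 0)) →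
      ∀ j : ℕ, ∃ C : ℝ, ∀ N : ℕ, θ * N - C ≤ (((Finset.range N).filter fun n =>
        ECurve (4 + C0) L δ κ (Ici (-(j : ℤ))) c b (q (n + 1), q n)).card : ℝ) := by
  set k : ℝ := 2 / (1 + τ) with hk
  have hτp : 0 < 1 + τ := by linarith
  have hk1 : 1 < k := by rw [hk, lt_div_iff₀ hτp]; linarith
  have hk0 : 0 < k := by linarith
  have hτk : τ * k < 1 := by
    rw [hk, ← mul_div_assoc, div_lt_one hτp]; linarith
  set Λ : ℝ := ((4 + C0) + (4 + C0) ^ 2 + C0) / b0 + (3 + C0) with hΛ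
  have hΛ1 : 1 < Λ := by
    have : 0 ≤ ((4 + C0) + (4 + C0) ^ 2 + C0) / b0 := by positivity
    linarith
  have hL' : 0 < Real.log Λ := Real.log_pos hΛ1
  have hlk : 0 < Real.log k := Real.log_pos hk1
  set a : ℝ := -Real.log τ - Real.log k with ha
  have ha0 : 0 < a := by
    have e := Real.log_mul hτ.ne' hk0.ne'
    have := Real.log_neg (mul_pos hτ hk0) hτk
    linarith
  obtain ⟨k0, L, δ, hδ, hat⟩ := curve_at C0 b0 k hC0 hb0 hk1
  refine ⟨L, δ, k⁻¹, a / Real.log Λ, hδ, by positivity, inv_lt_one_of_one_lt₀ hk1,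
    div_pos ha0 hL', ?_⟩
  have main : ∀ (c b : ℝ) (q : ℕ → ℝ) (φ : ℕ → ℂ → ℂ),
      |c| ≤ C0 → b0 ≤ |b| → |b| ≤ 1 → (∀ n, |q n| ≤ 3 + C0) →
      (∀ n, q (n + 2) = q (n + 1) ^ 2 + c - b * q n) → Stab0 q b τ φ →
      (∃ M : ℝ, ∀ t : ℝ, 0 < t → |q 0 + (φ 0 t).re| ≤ M) →
      ∀ j : ℕ, ∃ C : ℝ, ∀ N : ℕ, a / Real.log Λ * N - C ≤ (((Finset.range N).filter fun n =>
        ECurve (4 + C0) L δ k⁻¹ (Ici (-(j : ℤ))) c b (q (n + 1), q n)).card : ℝ) := by
    intro c b q φ hc hb hb1 hq hrec h hM j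
    obtain ⟨M, hM⟩ := hM
    obtain ⟨n0, hn0⟩ := curve_box hC0 hc hb1 hq hrec h hM
    obtain ⟨Rad, c1, hc1, hlow, hin, hout, hstep⟩ :=
      Stab0.exists_radius hb0 hτ hc hb hb1 hq hrec h
    have hR : ∀ n, 0 < Rad n := fun n =>
      (mul_pos_iff_of_pos_right (pow_pos hτ n)).1 (hc1.trans_le (hlow n))
    set u : ℕ → ℝ := fun m => Real.log (Rad m) - m * Real.log k with hu
    have hs : ∀ m, u (m + 1) - u m ≤ Real.log Λ := by
      intro m
      have a1 : Real.log (Rad (m + 1)) ≤ Real.log (Λ * Rad m) :=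
        Real.log_le_log (hR _) (hstep m)
      rw [Real.log_mul (by linarith) (hR m).ne'] at a1
      simp only [hu]
      push_cast
      linarith
    have hl : ∀ m : ℕ, a * m - (-Real.log c1) ≤ u m := by
      intro m
      have a1 : Real.log c1 ≤ Real.log (Rad m * τ ^ m) := Real.log_le_log hc1 (hlow m)
      rw [Real.log_mul (hR m).ne' (pow_pos hτ m).ne', Real.log_pow] at a1
      simp only [hu, ha]
      linarith
    refine ⟨(-Real.log c1 + u 0) / Real.log Λ + (n0 + j + k0 : ℕ), fun N => ?_⟩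
    have hp := pliss_count hL' ha0 hs hl N
    have hcnt := curve_count (fun n => ∀ m, n ≤ m → u n ≤ u m)
      (fun n => ECurve (4 + C0) L δ k⁻¹ (Ici (-(j : ℤ))) c b (q (n + 1), q n)) (n0 + j) k0
      (by
        intro n hn hP
        refine hat c b τ q φ Rad n j hb hq hrec h (hR n) hin (hout n) ?_ (by omega)
          (fun m hm t ht => hn0 m (by omega) t ht)
        intro i
        have a1 := hP (n + i) (by omega)
        simp only [hu] at a1
        rw [← Real.log_le_log_iff (mul_pos (pow_pos hk0 i) (hR n)) (hR _),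
          Real.log_mul (pow_pos hk0 i).ne' (hR n).ne', Real.log_pow]
        push_cast at a1
        linarith) N
    have hcnt' : (((Finset.range N).filter fun n => ∀ m, n ≤ m → u n ≤ u m).card : ℝ) ≤
        (((Finset.range N).filter fun n =>
          ECurve (4 + C0) L δ k⁻¹ (Ici (-(j : ℤ))) c b (q (n + 1), q n)).card : ℝ) +
          (n0 + j + k0 : ℕ) := by
      exact_mod_cast (by omega)
    have e : (a * N - -Real.log c1 - u 0) / Real.log Λ =
        a / Real.log Λ * N - (-Real.log c1 + u 0) / Real.log Λ := by ring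
    rw [e] at hp
    linarith
  intro c b q φ hc hb hb1 hq hrec h hbd j
  rcases hbd with hbd | hbd
  · refine main c b q φ hc hb hb1 hq hrec h ?_ j
    obtain ⟨M, hM⟩ := hbd.exists_norm_le
    refine ⟨M, fun t ht => ?_⟩
    have := (norm_snd_le _).trans (hM _ ⟨t, ht, rfl⟩)
    simpa [curve] using this
  · refine main c b q _ hc hb hb1 hq hrec h.neg ?_ j
    obtain ⟨M, hM⟩ := hbd.exists_norm_le
    refine ⟨M, fun t ht => ?_⟩
    have := (norm_snd_le _).trans (hM _ ⟨-t, neg_lt_zero.2 ht, rfl⟩)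
    simpa [curve] using this

end Pool.Agent.P.MP_c34bf4_an
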