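import Mathlib

/-!
# Mild dissipation for real Hénon maps: definitions used in the statement
-/

namespace Pool.Agent.P.MP_c34bf4_an

open MeasureTheory Filter Set

/-- The real Hénon map `f_{c,b}(x,y) = (x^2 + c - b y, x)`. -/
def henon (c b : ℝ) (z : ℝ × ℝ) : ℝ × ℝ := (z.1 ^ 2 + c - b * z.2, z.1)

/-- The Pesin stable set `W^s(x) = {y : limsup (1/n) log |f^n y - f^n x| < 0}`
(computed in the extended reals, with `log 0 = -∞`). -/
def Ws (f : ℝ × ℝ → ℝ × ℝ) (x : ℝ × ℝ) : Set (ℝ × ℝ) :=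
  {y | limsup (fun n : ℕ => ENNReal.log (edist (f^[n] y) (f^[n] x)) / (n : EReal)) atTop < 0}

/-- `γ` is an injective `C¹` immersion of the line onto `W` with `γ 0 = x`. -/
def IsParam (W : Set (ℝ × ℝ)) (x : ℝ × ℝ) (γ : ℝ → ℝ × ℝ) : Prop :=
  ContDiff ℝ 1 γ ∧ Function.Injective γ ∧ (∀ t, deriv γ t ≠ 0) ∧ γ 0 = x ∧ range γ = W

/-- `W` is an injectively immersed `C¹` curve through `x`, and both components of `W \ {x}`
(the two halves of the curve) are unbounded. -/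
def BothUnbounded (W : Set (ℝ × ℝ)) (x : ℝ × ℝ) : Prop :=
  ∃ γ : ℝ → ℝ × ℝ, IsParam W x γ ∧
    ¬ Bornology.IsBounded (γ '' Ioi 0) ∧ ¬ Bornology.IsBounded (γ '' Iio 0)

/-- `p` lies on a sink: it is periodic, `f^k p = p` with `k > 0`, and all complex eigenvalues
of the derivative of `f^k` at `p` have modulus less than one. -/
def IsSinkPoint (f : ℝ × ℝ → ℝ × ℝ) (p : ℝ × ℝ) : Prop :=
  ∃ k : ℕ, 0 < k ∧ f^[k] p = p ∧ ∀ z : ℂ,
    Polynomial.aeval z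
      (LinearMap.charpoly (fderiv ℝ f^[k] p : (ℝ × ℝ) →ₗ[ℝ] (ℝ × ℝ))) = 0 → ‖z‖ < 1

/-- The measure `μ` is supported on a sink. -/
def OnSink (f : ℝ × ℝ → ℝ × ℝ) (μ : Measure (ℝ × ℝ)) : Prop :=
  ∃ p, IsSinkPoint f p ∧ μ (range fun n : ℕ => f^[n] p)ᶜ = 0

/-- `f_{c,b}` is mildly dissipative. -/
def Mild (c b : ℝ) : Prop :=
  |b| < 1 ∧ ∀ μ : Measure (ℝ × ℝ), IsProbabilityMeasure μ → Ergodic (henon c b) μ →
    ¬ OnSink (henon c b) μ → ∀ᵐ x ∂μ, BothUnbounded (Ws (henon c b) x) x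

/-- The set of mildly dissipative parameters `(c, b)` with `0 < |b| < 1`. -/
def MildSet : Set (ℝ × ℝ) := {p | 0 < |p.2| ∧ |p.2| < 1 ∧ Mild p.1 p.2}

end Pool.Agent.P.MP_c34bf4_an
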