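import Pool.Agent.P.MP_c34bf4_an.Basic

namespace Pool.Agent.P.MP_c34bf4_an

open MeasureTheory Filter Set Topology

/-- The box of candidate arcs. -/
def eclosedK (R : ℝ) : Set (unitInterval → ℤ → ℝ) := {Γ | ∀ t i, |Γ t i| ≤ R}

theorem eclosed_compact (R : ℝ) : IsCompact (eclosedK R) := by
  have h : IsCompact (Set.pi univ fun _ : unitInterval => Set.pi univ fun _ : ℤ => Icc (-R) R) :=
    isCompact_univ_pi fun _ => isCompact_univ_pi fun _ => isCompact_Icc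
  have e : eclosedK R =
      Set.pi univ fun _ : unitInterval => Set.pi univ fun _ : ℤ => Icc (-R) R := by
    ext Γ
    simp only [eclosedK, mem_setOf_eq, Set.mem_pi, mem_univ, true_imp_iff, mem_Icc, abs_le]
  rw [e]; exact h

/-- The closed conditions on an arc. -/
def eclosedP (L δ κ : ℝ) (S : Set ℤ) (p : ((ℝ × ℝ) × (ℝ × ℝ)) × (unitInterval → ℤ → ℝ)) : Prop :=
  (∀ t, ∀ i ∈ S, p.2 t (i + 2) = p.2 t (i + 1) ^ 2 + p.1.1.1 - p.1.1.2 * p.2 t i) ∧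
    p.2 0 1 = p.1.2.1 ∧ p.2 0 0 = p.1.2.2 ∧
    (∀ t t', |p.2 t 0 - p.2 t' 0| ≤ L * |(t : ℝ) - t'| ∧
      |p.2 t 1 - p.2 t' 1| ≤ L * |(t : ℝ) - t'|) ∧
    (∀ t (k : ℕ), |p.2 t k - p.2 0 k| ≤ L * κ ^ k) ∧
    δ ≤ max |p.2 1 0 - p.2 0 0| |p.2 1 1 - p.2 0 1|

theorem eclosed_closed (L δ κ : ℝ) (S : Set ℤ) : IsClosed {p | eclosedP L δ κ S p} := by
  unfold eclosedP
  simp only [setOf_and, setOf_forall]
  refine IsClosed.inter ?_ (IsClosed.inter ?_ (IsClosed.inter ?_ (IsClosed.inter ?_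
    (IsClosed.inter ?_ ?_))))
  · exact isClosed_iInter fun t => isClosed_iInter fun i => isClosed_iInter fun _ =>
      isClosed_eq (by fun_prop) (by fun_prop)
  · exact isClosed_eq (by fun_prop) (by fun_prop)
  · exact isClosed_eq (by fun_prop) (by fun_prop)
  · exact isClosed_iInter fun t => isClosed_iInter fun t' =>
      (isClosed_le (by fun_prop) continuous_const).inter
        (isClosed_le (by fun_prop) continuous_const)
  · exact isClosed_iInter fun t => isClosed_iInter fun k =>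
      isClosed_le (by fun_prop) continuous_const
  · exact isClosed_le continuous_const (by fun_prop)

theorem isClosed_eCurve (R L δ κ : ℝ) (S : Set ℤ) :
    IsClosed {w : (ℝ × ℝ) × (ℝ × ℝ) | ECurve R L δ κ S w.1.1 w.1.2 w.2} := by
  haveI : CompactSpace (eclosedK R) := isCompact_iff_compactSpace.1 (eclosed_compact R)
  have hc : IsClosed {p : ((ℝ × ℝ) × (ℝ × ℝ)) × eclosedK R | eclosedP L δ κ S (p.1, p.2.1)} :=
    (eclosed_closed L δ κ S).preimage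
      (f := fun p : ((ℝ × ℝ) × (ℝ × ℝ)) × eclosedK R => (p.1, p.2.1)) (by fun_prop)
  have h := isClosedMap_fst_of_compactSpace _ hc
  have e : {w : (ℝ × ℝ) × (ℝ × ℝ) | ECurve R L δ κ S w.1.1 w.1.2 w.2} = Prod.fst ''
      {p : ((ℝ × ℝ) × (ℝ × ℝ)) × eclosedK R | eclosedP L δ κ S (p.1, p.2.1)} := by
    ext w
    constructor
    · rintro ⟨Γ, h1, h2⟩
      exact ⟨(w, ⟨Γ, h1⟩), h2, rfl⟩
    · rintro ⟨⟨w', Γ, h1⟩, h2, rfl⟩
      exact ⟨Γ, h1, h2⟩
  rw [e]; exact h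

theorem eCurve_univ {R L δ κ c b : ℝ} {x : ℝ × ℝ}
    (h : ∀ j : ℕ, ECurve R L δ κ (Ici (-(j : ℤ))) c b x) : ECurve R L δ κ univ c b x := by
  have hcl : ∀ j : ℕ, IsClosed
      (eclosedK R ∩ {Γ | eclosedP L δ κ (Ici (-(j : ℤ))) (((c, b), x), Γ)}) := fun j =>
    (eclosed_compact R).isClosed.inter ((eclosed_closed L δ κ _).preimage
      (f := fun Γ : unitInterval → ℤ → ℝ => (((c, b), x), Γ)) (by fun_prop))
  obtain ⟨Γ, hΓ⟩ := IsCompact.nonempty_iInter_of_sequence_nonempty_isCompact_isClosed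
    (fun j : ℕ => eclosedK R ∩ {Γ | eclosedP L δ κ (Ici (-(j : ℤ))) (((c, b), x), Γ)})
    (fun j Γ hΓ => ⟨hΓ.1, fun t i hi => hΓ.2.1 t i (by
      simp only [mem_Ici] at hi ⊢
      push_cast
      omega), hΓ.2.2⟩)
    (fun j => by
      obtain ⟨Γ, h1, h2⟩ := h j
      exact ⟨Γ, h1, h2⟩)
    ((eclosed_compact R).of_isClosed_subset (hcl 0) inter_subset_left) hcl
  rw [mem_iInter] at hΓ
  refine ⟨Γ, (hΓ 0).1, fun t i _ => ?_, (hΓ 0).2.2⟩
  exact (hΓ i.natAbs).2.1 t i (by simp only [mem_Ici]; omega)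

theorem ECurve.mono {R L δ κ c b : ℝ} {x : ℝ × ℝ} {S S' : Set ℤ} (hS : S' ⊆ S)
    (h : ECurve R L δ κ S c b x) : ECurve R L δ κ S' c b x := by
  obtain ⟨Γ, h1, h2, h3⟩ := h
  exact ⟨Γ, h1, fun t i hi => h2 t i (hS hi), h3⟩

end Pool.Agent.P.MP_c34bf4_an
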