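import Pool.Agent.P.MP_c34bf4_an.ErgSel

namespace Pool.Agent.P.MP_c34bf4_an

open MeasureTheory Filter Set Topology

/-- Cesaro average of push-forward measures. -/
noncomputable def erglift_avg {X Y : Type*} [MeasurableSpace X] [MeasurableSpace Y]
    (μ : Measure Y) (F : ℕ → Y → X) (n : ℕ) : Measure X :=
  ((n + 1 : ℕ) : ENNReal)⁻¹ • ∑ k ∈ Finset.range (n + 1), μ.map (F k)

theorem erglift_prob {X Y : Type*} [MeasurableSpace X] [MeasurableSpace Y]
    (μ : Measure Y) [IsProbabilityMeasure μ] {F : ℕ → Y → X} (hF : ∀ k, Measurable (F k))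
    (n : ℕ) : IsProbabilityMeasure (erglift_avg μ F n) := by
  constructor
  have h : ∀ k, (μ.map (F k)) univ = 1 := fun k => by
    rw [Measure.map_apply (hF k) MeasurableSet.univ]; simp
  simp only [erglift_avg, Measure.smul_apply, Measure.coe_finsetSum, Finset.sum_apply, h,
    Finset.sum_const, Finset.card_range, smul_eq_mul, nsmul_eq_mul, mul_one]
  exact ENNReal.inv_mul_cancel (by simp) (by simp)

theorem erglift_null {X Y : Type*} [MeasurableSpace X] [MeasurableSpace Y]
    (μ : Measure Y) {F : ℕ → Y → X} (hF : ∀ k, Measurable (F k)) {A : Set X}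
    (hA : MeasurableSet A) (h : ∀ k, ∀ᵐ y ∂μ, F k y ∈ A) (n : ℕ) :
    erglift_avg μ F n Aᶜ = 0 := by
  have h' : ∀ k, (μ.map (F k)) Aᶜ = 0 := fun k => by
    rw [Measure.map_apply (hF k) hA.compl]
    exact h k
  simp only [erglift_avg, Measure.smul_apply, Measure.coe_finsetSum, Finset.sum_apply, h',
    Finset.sum_const_zero, smul_zero]

theorem erglift_integral {X Y : Type*} [MetricSpace X] [MeasurableSpace X] [BorelSpace X]
    [MeasurableSpace Y] (μ : Measure Y) [IsProbabilityMeasure μ] {F : ℕ → Y → X}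
    (hF : ∀ k, Measurable (F k)) (g : BoundedContinuousFunction X ℝ) (n : ℕ) :
    ∫ z, g z ∂(erglift_avg μ F n) =
      ((n:ℝ) + 1)⁻¹ * ∑ k ∈ Finset.range (n + 1), ∫ y, g (F k y) ∂μ := by
  rw [erglift_avg, integral_smul_measure, integral_finsetSum_measure
    (fun k _ => g.integrable _), smul_eq_mul]
  congr 1
  · rw [ENNReal.toReal_inv, ENNReal.toReal_natCast]; push_cast; rfl
  · refine Finset.sum_congr rfl fun k _ => ?_
    exact integral_map (hF k).aemeasurable g.continuous.aestronglyMeasurable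

theorem erglift_int {X Y : Type*} [MetricSpace X] [MeasurableSpace X] [BorelSpace X]
    [MeasurableSpace Y] (μ : Measure Y) [IsProbabilityMeasure μ] {F : Y → X}
    (hF : Measurable F) (g : BoundedContinuousFunction X ℝ) :
    Integrable (fun y => g (F y)) μ :=
  Integrable.of_bound (g.continuous.measurable.comp hF).aestronglyMeasurable ‖g‖
    (Eventually.of_forall fun y => g.norm_coe_le_norm _)

theorem erglift_abs {X Y : Type*} [MetricSpace X] [MeasurableSpace Y] (μ : Measure Y)
    [IsProbabilityMeasure μ] (F : Y → X) (g : BoundedContinuousFunction X ℝ) :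
    |∫ y, g (F y) ∂μ| ≤ ‖g‖ := by
  have := norm_integral_le_of_norm_le_const (μ := μ) (f := fun y => g (F y)) (C := ‖g‖)
    (Eventually.of_forall fun y => g.norm_coe_le_norm _)
  simpa using this

theorem erglift_lim {C : ℝ} : Tendsto (fun n : ℕ => ((n:ℝ) + 1)⁻¹ * C) atTop (𝓝 0) := by
  have h : Tendsto (fun n : ℕ => ((n:ℝ) + 1)⁻¹) atTop (𝓝 0) :=
    tendsto_inv_atTop_zero.comp (tendsto_atTop_add_const_right _ _ tendsto_natCast_atTop_atTop)
  simpa using h.mul_const C

/-- Krylov-Bogolyubov construction of an invariant lift with a bound on an integral. -/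
theorem exists_invariant_lift {X Y : Type*} [MetricSpace X] [MeasurableSpace X] [BorelSpace X]
    [MetricSpace Y] [MeasurableSpace Y] [BorelSpace Y]
    {T : X → X} (hT : Continuous T) {S : Y → Y} {π : X → Y} (hπ : Continuous π)
    (hsc : ∀ z, π (T z) = S (π z)) {μ : Measure Y} [IsProbabilityMeasure μ]
    (hμ : MeasurePreserving S μ μ) {Z : Set X} (hZ : IsCompact Z)
    (ψ : BoundedContinuousFunction X ℝ) {a B : ℝ} (σ : ℕ → Y → X) (hσ : ∀ N, Measurable (σ N))
    (hπσ : ∀ N y, π (σ N y) = y) (hσZ : ∀ N, ∀ᵐ y ∂μ, ∀ k, T^[k] (σ N y) ∈ Z)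
    (hint : ∀ N : ℕ, 0 < N → ∫ y, birkhoffSum T ψ N (σ N y) ∂μ ≤ a * N + B) :
    ∃ m : Measure X, IsProbabilityMeasure m ∧ MeasurePreserving T m m ∧ m Zᶜ = 0 ∧
      m.map π = μ ∧ ∫ z, ψ z ∂m ≤ a := by
  have hF : ∀ n k : ℕ, Measurable fun y => T^[k] (σ (n + 1) y) := fun n k =>
    (hT.iterate k).measurable.comp (hσ _)
  let M : ℕ → ProbabilityMeasure X := fun n =>
    ⟨erglift_avg μ (fun k y => T^[k] (σ (n + 1) y)) n, erglift_prob μ (hF n) n⟩
  have hM : ∀ n (g : BoundedContinuousFunction X ℝ), ∫ z, g z ∂(M n : Measure X) =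
      ((n:ℝ) + 1)⁻¹ * ∑ k ∈ Finset.range (n + 1), ∫ y, g (T^[k] (σ (n + 1) y)) ∂μ :=
    fun n g => erglift_integral μ (hF n) g n
  have hK := isCompact_setOfPred_probabilityMeasure_mass_eq_compl_isCompact_le
    (u := fun _ => 0) (K := fun _ => Z) tendsto_const_nhds (fun _ => hZ)
    (Or.inr monotone_const)
  have hMK : ∀ n, M n ∈ {m : ProbabilityMeasure X | ∀ _ : ℕ, m Zᶜ ≤ 0} := by
    intro n _
    have : (M n : Measure X) Zᶜ = 0 := erglift_null μ (hF n) hZ.measurableSet
      (fun k => (hσZ (n + 1)).mono fun y hy => hy k) n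
    rw [← ProbabilityMeasure.null_iff_toMeasure_null] at this
    exact this.le
  let U : Ultrafilter ℕ := Ultrafilter.of atTop
  have hU : (U : Filter ℕ) ≤ atTop := Ultrafilter.of_le _
  obtain ⟨m, hmK, hm⟩ := hK.ultrafilter_le_nhds (U.map M) (by
    rw [Ultrafilter.coe_map, le_principal_iff, mem_map]
    exact Eventually.of_forall hMK)
  have hlim : ∀ g : BoundedContinuousFunction X ℝ,
      Tendsto (fun n => ∫ z, g z ∂(M n : Measure X)) U (𝓝 (∫ z, g z ∂(m : Measure X))) :=
    ProbabilityMeasure.tendsto_iff_forall_integral_tendsto.1 hm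
  refine ⟨m, inferInstance, ⟨hT.measurable, ?_⟩, ?_, ?_, ?_⟩
  · have : IsProbabilityMeasure ((m : Measure X).map T) :=
      Measure.isProbabilityMeasure_map hT.measurable.aemeasurable
    refine ext_of_forall_integral_eq_of_IsFiniteMeasure fun g => ?_
    rw [integral_map hT.measurable.aemeasurable g.continuous.aestronglyMeasurable]
    have h1 := (hlim (g.compContinuous ⟨T, hT⟩)).sub (hlim g)
    have h2 : Tendsto (fun n => ∫ z, (g.compContinuous ⟨T, hT⟩) z ∂(M n : Measure X) -
        ∫ z, g z ∂(M n : Measure X)) atTop (𝓝 0) := by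
      refine squeeze_zero_norm (fun n => ?_) (erglift_lim (C := 2 * ‖g‖))
      rw [hM, hM, ← mul_sub, ← Finset.sum_sub_distrib]
      have e : ∀ k, ∫ y, (g.compContinuous ⟨T, hT⟩) (T^[k] (σ (n + 1) y)) ∂μ =
          ∫ y, g (T^[k + 1] (σ (n + 1) y)) ∂μ := fun k => by
        simp only [Function.iterate_succ_apply']; rfl
      simp only [e]
      rw [Finset.sum_range_sub (fun k => ∫ y, g (T^[k] (σ (n + 1) y)) ∂μ), Real.norm_eq_abs,
        abs_mul, abs_of_nonneg (by positivity)]
      refine mul_le_mul_of_nonneg_left ?_ (by positivity)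
      have a1 := abs_le.1 (erglift_abs μ (fun y => T^[n + 1] (σ (n + 1) y)) g)
      have a2 := abs_le.1 (erglift_abs μ (fun y => T^[0] (σ (n + 1) y)) g)
      exact abs_le.2 ⟨by linarith [a1.1, a2.2], by linarith [a1.2, a2.1]⟩
    have h3 := tendsto_nhds_unique h1 (h2.mono_left hU)
    exact sub_eq_zero.1 h3
  · rw [← ProbabilityMeasure.null_iff_toMeasure_null]
    exact le_antisymm (hmK 0) zero_le
  · have : IsProbabilityMeasure ((m : Measure X).map π) :=
      Measure.isProbabilityMeasure_map hπ.measurable.aemeasurable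
    refine ext_of_forall_integral_eq_of_IsFiniteMeasure fun g => ?_
    rw [integral_map hπ.measurable.aemeasurable g.continuous.aestronglyMeasurable]
    have h1 := hlim (g.compContinuous ⟨π, hπ⟩)
    have h2 : ∀ n, ∫ z, (g.compContinuous ⟨π, hπ⟩) z ∂(M n : Measure X) = ∫ y, g y ∂μ := by
      intro n
      rw [hM]
      have e : ∀ k, ∫ y, (g.compContinuous ⟨π, hπ⟩) (T^[k] (σ (n + 1) y)) ∂μ = ∫ y, g y ∂μ := by
        intro k
        have s : ∀ y, (g.compContinuous ⟨π, hπ⟩) (T^[k] (σ (n + 1) y)) = g (S^[k] y) := by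
          intro y
          have := (Function.Semiconj.iterate_right (f := π) (ga := T) (gb := S) hsc k)
            (σ (n + 1) y)
          change g (π (T^[k] (σ (n + 1) y))) = _
          rw [this, hπσ]
        simp only [s]
        have hk := hμ.iterate k
        rw [← integral_map hk.measurable.aemeasurable g.continuous.aestronglyMeasurable,
          hk.map_eq]
      simp only [e, Finset.sum_const, Finset.card_range, nsmul_eq_mul]
      push_cast
      rw [← mul_assoc, inv_mul_cancel₀ (by positivity), one_mul]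
    simp only [h2] at h1
    exact tendsto_nhds_unique h1 tendsto_const_nhds
  · have h2 : Tendsto (fun n : ℕ => a + ((n:ℝ) + 1)⁻¹ * B) U (𝓝 (a + 0)) :=
      (tendsto_const_nhds.add erglift_lim).mono_left hU
    rw [add_zero] at h2
    refine le_of_tendsto_of_tendsto' (hlim ψ) h2 fun n => ?_
    rw [hM, ← integral_finsetSum _ fun k _ => erglift_int μ (hF n k) ψ]
    have h3 := hint (n + 1) (Nat.succ_pos n)
    simp only [birkhoffSum] at h3
    push_cast at h3
    have hp : (0:ℝ) < (n:ℝ) + 1 := by positivity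
    calc _ ≤ ((n:ℝ) + 1)⁻¹ * (a * (n + 1) + B) := mul_le_mul_of_nonneg_left h3 (by positivity)
      _ = _ := by field_simp

/-- An invariant lift of an ergodic measure can be replaced by an ergodic lift. -/
theorem exists_ergodic_lift {X Y : Type*} [MetricSpace X] [MeasurableSpace X] [BorelSpace X]
    [MetricSpace Y] [MeasurableSpace Y] [BorelSpace Y]
    {T : X → X} (hT : Continuous T) {S : Y → Y} {π : X → Y} (hπ : Continuous π)
    (hsc : ∀ z, π (T z) = S (π z)) {μ : Measure Y} [IsProbabilityMeasure μ]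
    (hμ : Ergodic S μ) {Z : Set X} (hZ : IsCompact Z)
    (ψ : BoundedContinuousFunction X ℝ) {m0 : Measure X} [IsProbabilityMeasure m0]
    (h0 : MeasurePreserving T m0 m0) (h0Z : m0 Zᶜ = 0) (h0π : m0.map π = μ) :
    ∃ m : Measure X, IsProbabilityMeasure m ∧ Ergodic T m ∧ m Zᶜ = 0 ∧
      m.map π = μ ∧ ∫ z, ψ z ∂m ≤ ∫ z, ψ z ∂m0 := by
  let P : ProbabilityMeasure Y := ⟨μ, inferInstance⟩
  have hcl : IsClosed {m : ProbabilityMeasure X | (m : Measure X).map π = μ} := by
    have e : {m : ProbabilityMeasure X | (m : Measure X).map π = μ} =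
        {m | ProbabilityMeasure.map m hπ.measurable.aemeasurable = P} := by
      ext m
      simp only [mem_ofPred_eq]
      rw [← ProbabilityMeasure.toMeasure_injective.eq_iff]
      rfl
    rw [e]
    exact isClosed_eq (ProbabilityMeasure.continuous_map hπ) continuous_const
  have hI := (isCompact_invariant hT hZ).inter_right hcl
  obtain ⟨m, hm, he, hle⟩ := exists_ergodic_max (T := T) _ hI (fun m hm => hm.1.2)
    (fun m hm m' hm' hac => by
      refine ⟨⟨hac hm.1.1, hm'⟩, ?_⟩
      have : IsProbabilityMeasure ((m' : Measure X).map π) :=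
        Measure.isProbabilityMeasure_map hπ.measurable.aemeasurable
      have hS := hμ.toMeasurePreserving.measurable
      refine hμ.eq_of_absolutelyContinuous ⟨hS, ?_⟩ ?_
      · rw [Measure.map_map hS hπ.measurable, show S ∘ π = π ∘ T from funext fun z => (hsc z).symm,
          ← Measure.map_map hπ.measurable hT.measurable, hm'.map_eq]
      · have := hac.map hπ.measurable
        rwa [show (m : Measure X).map π = μ from hm.2] at this)
    (g := fun z => (-ψ) z) (-ψ).continuous.measurable (B := ‖-ψ‖)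
    (fun x => (-ψ).norm_coe_le_norm x)
    (fun a => isClosed_le continuous_const
      (ProbabilityMeasure.continuous_integral_boundedContinuousFunction (-ψ)))
    (m0 := ⟨m0, inferInstance⟩) ⟨⟨h0Z, h0⟩, h0π⟩
  refine ⟨m, inferInstance, he, hm.1.1, hm.2, ?_⟩
  simp only [BoundedContinuousFunction.coe_neg, Pi.neg_apply, integral_neg] at hle
  exact neg_le_neg_iff.1 hle

end Pool.Agent.P.MP_c34bf4_an
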