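import Mathlib

namespace Pool.Agent.P.MP_c34bf4_an

open MeasureTheory Filter Set Topology

/-- the maximum of the first Birkhoff sums -/
noncomputable def ergmaxM {X : Type*} (T : X → X) (g : X → ℝ) : ℕ → X → ℝ
  | 0 => fun _ => 0
  | N + 1 => fun x => max 0 (g x + ergmaxM T g N (T x))

theorem ergmax_nonneg {X : Type*} (T : X → X) (g : X → ℝ) (N : ℕ) (x : X) :
    0 ≤ ergmaxM T g N x := by
  cases N with
  | zero => exact le_rfl
  | succ N => exact le_max_left _ _

theorem ergmax_succ {X : Type*} (T : X → X) (g : X → ℝ) (N : ℕ) :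
    ∀ x, ergmaxM T g N x ≤ ergmaxM T g (N + 1) x := by
  induction N with
  | zero => exact fun x => ergmax_nonneg T g 1 x
  | succ N ih => exact fun x => max_le_max le_rfl (add_le_add le_rfl (ih (T x)))

theorem ergmax_sum_le {X : Type*} (T : X → X) (g : X → ℝ) (k : ℕ) :
    ∀ x, birkhoffSum T g k x ≤ ergmaxM T g k x := by
  induction k with
  | zero => exact fun x => (birkhoffSum_zero T g x).le
  | succ k ih =>
    intro x
    rw [birkhoffSum_succ']
    exact (add_le_add le_rfl (ih (T x))).trans (le_max_right _ _)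

theorem ergmax_measurable {X : Type*} [MeasurableSpace X] {T : X → X} (hT : Measurable T)
    {g : X → ℝ} (hg : Measurable g) (N : ℕ) : Measurable (ergmaxM T g N) := by
  induction N with
  | zero => exact measurable_const
  | succ N ih => exact measurable_const.max (hg.add (ih.comp hT))

theorem ergmax_integrable {X : Type*} [MeasurableSpace X] {μ : Measure X} [IsFiniteMeasure μ]
    {T : X → X} (hT : MeasurePreserving T μ μ) {g : X → ℝ} (hi : Integrable g μ) (N : ℕ) :
    Integrable (ergmaxM T g N) μ := by
  induction N with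
  | zero => exact integrable_const 0
  | succ N ih => exact (integrable_const 0).sup (hi.add (hT.integrable_comp_of_integrable ih))

theorem ergmax_sum_measurable {X : Type*} [MeasurableSpace X] {T : X → X} (hT : Measurable T)
    {g : X → ℝ} (hg : Measurable g) (k : ℕ) : Measurable (birkhoffSum T g k) :=
  Finset.measurable_sum _ fun i _ => hg.comp (hT.iterate i)

/-- Maximal ergodic lemma (Garsia), in contrapositive form. -/
theorem maximal_ergodic {X : Type*} [MeasurableSpace X] {μ : Measure X} [IsFiniteMeasure μ]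
    {T : X → X} (hT : MeasurePreserving T μ μ) {g : X → ℝ} (hg : Measurable g)
    (hi : Integrable g μ) (hneg : ∫ x, g x ∂μ < 0) :
    μ {x | ∀ k, birkhoffSum T g k x ≤ 0} ≠ 0 := by
  intro h0
  let E : ℕ → Set X := fun N => {x | 0 < ergmaxM T g (N + 1) x}
  have hE : ∀ N, MeasurableSet (E N) := fun N =>
    measurableSet_lt measurable_const (ergmax_measurable hT.measurable hg _)
  have hmono : Monotone E := monotone_nat_of_le_succ fun N x hx =>
    lt_of_lt_of_le hx (ergmax_succ T g _ x)
  have hpos : ∀ N, 0 ≤ ∫ x in E N, g x ∂μ := by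
    intro N
    have h1 := ergmax_integrable hT hi (N + 1)
    have h2 := hT.integrable_comp_of_integrable h1
    have h3 : ∫ x, (ergmaxM T g (N + 1) ∘ T) x ∂μ = ∫ x, ergmaxM T g (N + 1) x ∂μ := by
      have := integral_map (μ := μ) hT.measurable.aemeasurable
        (f := ergmaxM T g (N + 1)) (by rw [hT.map_eq]; exact h1.aestronglyMeasurable)
      rw [hT.map_eq] at this
      exact this.symm
    rw [← integral_indicator (hE N)]
    have h4 : ∫ x, (ergmaxM T g (N + 1) x - (ergmaxM T g (N + 1) ∘ T) x) ∂μ ≤
        ∫ x, (E N).indicator g x ∂μ := by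
      refine integral_mono (h1.sub h2) (hi.indicator (hE N)) fun x => ?_
      have h5 := ergmax_succ T g N (T x)
      have h6 := ergmax_nonneg T g (N + 1) (T x)
      simp only [Function.comp]
      by_cases hx : x ∈ E N
      · rw [indicator_of_mem hx]
        have h7 : 0 < max 0 (g x + ergmaxM T g N (T x)) := hx
        have h8 : ergmaxM T g (N + 1) x = g x + ergmaxM T g N (T x) :=
          max_eq_right ((lt_max_iff.1 h7).resolve_left (lt_irrefl _)).le
        linarith
      · rw [indicator_of_notMem hx]
        have h7 : ergmaxM T g (N + 1) x ≤ 0 := not_lt.1 hx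
        linarith
    rw [integral_sub h1 h2, h3, sub_self] at h4
    exact h4
  have hlim := tendsto_setIntegral_of_monotone hE hmono (hi.integrableOn (s := ⋃ n, E n))
  have hfull : ∀ᵐ x ∂μ, x ∈ ⋃ n, E n := by
    filter_upwards [measure_eq_zero_iff_ae_notMem.1 h0] with x hx
    obtain ⟨k, hk⟩ := not_forall.1 hx
    exact mem_iUnion.2 ⟨k, lt_of_lt_of_le (not_le.1 hk)
      ((ergmax_sum_le T g k x).trans (ergmax_succ T g k x))⟩
  rw [Measure.restrict_eq_self_of_ae_mem hfull] at hlim
  exact absurd (ge_of_tendsto' hlim hpos) (not_le.2 hneg)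

/-- Upper half of the pointwise ergodic theorem for an ergodic probability measure. -/
theorem ergodic_upper {X : Type*} [MeasurableSpace X] {μ : Measure X} [IsProbabilityMeasure μ]
    {T : X → X} (hT : Ergodic T μ) {g : X → ℝ} (hg : Measurable g)
    (hi : Integrable g μ) {a : ℝ} (ha : ∫ x, g x ∂μ < a) :
    ∀ᵐ x ∂μ, ∃ C : ℝ, ∀ n : ℕ, birkhoffSum T g n x ≤ C + a * n := by
  have hm := hT.toMeasurePreserving
  let g' : X → ℝ := fun x => g x - a
  have hg' : Measurable g' := hg.sub_const a
  have hi' : Integrable g' μ := hi.sub (integrable_const a)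
  have hneg : ∫ x, g' x ∂μ < 0 := by
    rw [integral_sub hi (integrable_const a)]
    simpa using ha
  have hP0 := maximal_ergodic hm hg' hi' hneg
  set P : Set X := {x | ∀ k, birkhoffSum T g' k x ≤ 0} with hP
  have hPm : MeasurableSet P := by
    rw [hP, ofPred_forall]
    exact MeasurableSet.iInter fun k =>
      measurableSet_le (ergmax_sum_measurable hm.measurable hg' k) measurable_const
  let U : Set X := ⋃ m : ℕ, T^[m] ⁻¹' P
  have hU : MeasurableSet U := MeasurableSet.iUnion fun m => (hm.measurable.iterate m) hPm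
  have hsub : T ⁻¹' U ⊆ U := by
    intro x hx
    obtain ⟨m, hm'⟩ := mem_iUnion.1 hx
    exact mem_iUnion.2 ⟨m + 1, hm'⟩
  have hsum : ∀ n x, birkhoffSum T g' n x = birkhoffSum T g n x - a * n := by
    intro n x
    simp [g', birkhoffSum, Finset.sum_sub_distrib, mul_comm]
  rcases hT.ae_empty_or_univ_of_preimage_ae_le hU.nullMeasurableSet hsub.eventuallyLE with h | h
  · exact absurd (measure_mono_null (subset_iUnion (fun m : ℕ => T^[m] ⁻¹' P) 0)
      (ae_eq_empty.1 h)) hP0
  · filter_upwards [h.mem_iff] with x hx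
    obtain ⟨m, hxm⟩ := mem_iUnion.1 (hx.2 (mem_univ x))
    obtain ⟨C, hC⟩ := ((finite_le_nat m).image fun n => birkhoffSum T g' n x).bddAbove
    refine ⟨C, fun n => ?_⟩
    have : birkhoffSum T g' n x ≤ C := by
      rcases le_total n m with h1 | h1
      · exact hC ⟨n, h1, rfl⟩
      · obtain ⟨k, rfl⟩ := Nat.exists_eq_add_of_le h1
        rw [birkhoffSum_add]
        have h2 : birkhoffSum T g' m x ≤ C := hC ⟨m, le_refl m, rfl⟩
        have h3 : birkhoffSum T g' k (T^[m] x) ≤ 0 := hxm k
        linarith
    rw [hsum] at this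
    linarith

open Classical in
/-- If on a non-null set of points the visits to `E` have lower density at least `θ`,
then `E` has measure at least `θ`. -/
theorem le_measure_of_density {X : Type*} [MeasurableSpace X] {μ : Measure X}
    [IsProbabilityMeasure μ] {T : X → X} (hT : Ergodic T μ) {E : Set X} (hE : MeasurableSet E)
    {θ : ℝ} (h : ¬ ∀ᵐ x ∂μ, ¬ ∃ C : ℝ, ∀ N : ℕ,
      θ * N - C ≤ (((Finset.range N).filter fun n => T^[n] x ∈ E).card : ℝ)) :
    θ ≤ μ.real E := by
  by_contra hlt
  obtain ⟨a, ha1, ha2⟩ := exists_between (not_le.1 hlt)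
  apply h
  have hi : Integrable (E.indicator fun _ => (1:ℝ)) μ := (integrable_const 1).indicator hE
  have ha : ∫ x, E.indicator (fun _ => (1:ℝ)) x ∂μ < a := by
    rw [integral_indicator hE]
    simpa using ha1
  filter_upwards [ergodic_upper hT (measurable_const.indicator hE) hi ha] with x hx
  rintro ⟨C, hC⟩
  obtain ⟨D, hD⟩ := hx
  obtain ⟨N, hN⟩ := exists_nat_gt ((C + D) / (θ - a))
  have h1 := hC N
  have h2 := hD N
  have h3 : birkhoffSum T (E.indicator fun _ => (1:ℝ)) N x =
      (((Finset.range N).filter fun n => T^[n] x ∈ E).card : ℝ) := by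
    simp [birkhoffSum, indicator_apply]
  rw [div_lt_iff₀ (by linarith)] at hN
  rw [h3] at h2
  nlinarith

end Pool.Agent.P.MP_c34bf4_an
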