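import Mathlib

namespace Pool.Agent.P.MP_c34bf4_an

open MeasureTheory Filter Set Topology

/-- Projection of an almost sure property along a continuous map. -/
theorem ae_exists_fiber {X Y : Type*} [MetricSpace X] [CompleteSpace X]
    [SecondCountableTopology X] [MeasurableSpace X] [BorelSpace X]
    [MetricSpace Y] [MeasurableSpace Y] [BorelSpace Y] {π : X → Y} (hπ : Continuous π)
    {m : Measure X} [IsFiniteMeasure m] {G : X → Prop} (h : ∀ᵐ z ∂m, G z) :
    ∀ᵐ y ∂(m.map π), ∃ z, π z = y ∧ G z := by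
  rw [ae_iff] at h ⊢
  set B := toMeasurable m {z | ¬ G z} with hB
  have hBm : MeasurableSet B := measurableSet_toMeasurable _ _
  have hB0 : m B = 0 := by rw [hB, measure_toMeasurable]; exact h
  refine le_antisymm (ENNReal.le_of_forall_pos_le_add fun ε hε _ => ?_) (zero_le)
  obtain ⟨K, hKA, hK, hmK⟩ := hBm.compl.exists_isCompact_sdiff_lt (μ := m) (measure_ne_top _ _)
    (ε := (ε : ENNReal)) (by exact_mod_cast hε.ne')
  have hI : IsCompact (π '' K) := hK.image hπ
  have hsub : {y | ¬ ∃ z, π z = y ∧ G z} ⊆ (π '' K)ᶜ := by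
    rintro y hy ⟨z, hz, rfl⟩
    apply hy
    refine ⟨z, rfl, ?_⟩
    by_contra hG
    exact hKA hz (subset_toMeasurable m _ hG)
  have h2 : π ⁻¹' (π '' K)ᶜ ⊆ B ∪ (Bᶜ \ K) := by
    intro z hz
    by_cases hzB : z ∈ B
    · exact Or.inl hzB
    · exact Or.inr ⟨hzB, fun hzK => hz ⟨z, hzK, rfl⟩⟩
  calc (m.map π) {y | ¬ ∃ z, π z = y ∧ G z} ≤ (m.map π) (π '' K)ᶜ := measure_mono hsub
    _ = m (π ⁻¹' (π '' K)ᶜ) := Measure.map_apply hπ.measurable hI.measurableSet.compl
    _ ≤ m (B ∪ (Bᶜ \ K)) := measure_mono h2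
    _ ≤ m B + m (Bᶜ \ K) := measure_union_le _ _
    _ ≤ 0 + ε := by rw [hB0]; exact add_le_add le_rfl hmK.le

/-- An open set which is eventually null for a weakly convergent family is null in the limit. -/
theorem ergproj_open_null {Ω ι : Type*} {L : Filter ι} [L.NeBot] [MeasurableSpace Ω]
    [TopologicalSpace Ω] [OpensMeasurableSpace Ω] [HasOuterApproxClosed Ω]
    {μ : ProbabilityMeasure Ω} {μs : ι → ProbabilityMeasure Ω} (hl : Tendsto μs L (𝓝 μ))
    {G : Set Ω} (hG : IsOpen G) (h0 : ∀ᶠ i in L, (μs i : Measure Ω) G = 0) :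
    (μ : Measure Ω) G = 0 := by
  refine le_antisymm ?_ (zero_le)
  refine (ProbabilityMeasure.le_liminf_measure_open_of_tendsto hl hG).trans ?_
  rw [liminf_congr h0, liminf_const]

/-- Weak limits of invariant measures of a continuous family of maps. -/
theorem exists_limit_measure {P X : Type*} [MetricSpace P] [MeasurableSpace P] [BorelSpace P]
    [SecondCountableTopology P] [MetricSpace X] [MeasurableSpace X] [BorelSpace X]
    [SecondCountableTopology X] {F : P → X → X} (hF : Continuous fun w : P × X => F w.1 w.2)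
    {p : ℕ → P} {p0 : P} (hp : Tendsto p atTop (𝓝 p0)) {ν : ℕ → Measure X}
    [∀ n, IsProbabilityMeasure (ν n)] (hν : ∀ n, MeasurePreserving (F (p n)) (ν n) (ν n))
    {Z : Set X} (hZ : IsCompact Z) (hνZ : ∀ n, ν n Zᶜ = 0) {E : Set (P × X)} (hE : IsClosed E)
    {θ : ℝ} (hθ : ∀ n, θ ≤ (ν n).real {x | (p n, x) ∈ E}) :
    ∃ ν0 : Measure X, IsProbabilityMeasure ν0 ∧ MeasurePreserving (F p0) ν0 ν0 ∧ ν0 Zᶜ = 0 ∧
      θ ≤ ν0.real {x | (p0, x) ∈ E} ∧
      ∀ U : Set X, IsOpen U → (∀ᶠ n in atTop, ν n U = 0) → ν0 U = 0 := by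
  have hmk : ∀ q : P, Measurable fun x : X => (q, x) := fun q => measurable_prodMk_left
  let m : ℕ → ProbabilityMeasure (P × X) := fun n =>
    ⟨(ν n).map fun x => (p n, x), Measure.isProbabilityMeasure_map (hmk _).aemeasurable⟩
  have hm : ∀ n (A : Set (P × X)), MeasurableSet A →
      (m n : Measure (P × X)) A = ν n {x | (p n, x) ∈ A} := fun n A hA =>
    Measure.map_apply (hmk _) hA
  set K : Set (P × X) := insert p0 (range p) ×ˢ Z with hKdef
  have hK : IsCompact K := hp.isCompact_insert_range.prod hZ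
  have hcomp := isCompact_setOfPred_probabilityMeasure_mass_eq_compl_isCompact_le
    (u := fun _ : ℕ => (0 : NNReal)) (K := fun _ : ℕ => K) tendsto_const_nhds (fun _ => hK)
    (Or.inr monotone_const)
  have hmK : ∀ n, (m n : Measure (P × X)) Kᶜ = 0 := by
    intro n
    rw [hm n _ hK.measurableSet.compl]
    refine measure_mono_null ?_ (hνZ n)
    intro x hx hxZ
    exact hx ⟨Or.inr ⟨n, rfl⟩, hxZ⟩
  let U : Ultrafilter ℕ := Ultrafilter.of atTop
  have hU : (U : Filter ℕ) ≤ atTop := Ultrafilter.of_le _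
  obtain ⟨μ, -, hμ⟩ := hcomp.ultrafilter_le_nhds (U.map m) (by
    rw [le_principal_iff, Ultrafilter.coe_map, mem_map]
    refine Eventually.of_forall fun n k => ?_
    have h1 : (m n) Kᶜ = 0 := by
      have := hmK n
      rw [← ProbabilityMeasure.ennreal_coeFn_eq_coeFn_toMeasure] at this
      exact_mod_cast this
    exact h1.le)
  have hl : Tendsto m (U : Filter ℕ) (𝓝 μ) := hμ
  -- first coordinate is `p0` almost surely
  have hfst : ∀ᵐ w ∂(μ : Measure (P × X)), w.1 = p0 := by
    have h1 : ∀ k : ℕ, ∀ᵐ w ∂(μ : Measure (P × X)), dist w.1 p0 ≤ 1 / ((k : ℝ) + 1) := by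
      intro k
      rw [ae_iff]
      have ho : IsOpen {w : P × X | ¬ dist w.1 p0 ≤ 1 / ((k : ℝ) + 1)} := by
        simp only [not_le]
        exact isOpen_lt continuous_const (by fun_prop)
      refine ergproj_open_null hl ho (hU ?_)
      have h2 : ∀ᶠ n in atTop, dist (p n) p0 < 1 / ((k : ℝ) + 1) :=
        (Metric.tendsto_nhds.1 hp) _ (by positivity)
      filter_upwards [h2] with n hn
      rw [hm n _ ho.measurableSet]
      have : {x : X | (p n, x) ∈ {w : P × X | ¬ dist w.1 p0 ≤ 1 / ((k : ℝ) + 1)}} = ∅ := by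
        ext x
        simp only [mem_ofPred_eq, mem_empty_iff_false, iff_false, not_not]
        exact hn.le
      rw [this, measure_empty]
    filter_upwards [ae_all_iff.2 h1] with w hw
    have h3 : dist w.1 p0 ≤ 0 :=
      ge_of_tendsto' tendsto_one_div_add_atTop_nhds_zero_nat hw
    exact dist_le_zero.1 h3
  -- invariance
  let G : P × X → P × X := fun w => (w.1, F w.1 w.2)
  have hG : Continuous G := continuous_fst.prodMk hF
  have hinvn : ∀ n, (m n).map hG.measurable.aemeasurable = m n := by
    intro n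
    apply Subtype.ext
    change ((ν n).map fun x => (p n, x)).map G = (ν n).map fun x => (p n, x)
    rw [Measure.map_map hG.measurable (hmk _)]
    conv_rhs => rw [← (hν n).map_eq]
    rw [Measure.map_map (hmk _) (hν n).measurable]
    rfl
  have hinv : μ.map hG.measurable.aemeasurable = μ := by
    have h1 := ProbabilityMeasure.tendsto_map_of_tendsto_of_continuous _ _ hl hG
    simp only [hinvn] at h1
    exact tendsto_nhds_unique h1 hl
  have hinv' : (μ : Measure (P × X)).map G = μ := congrArg Subtype.val hinv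
  have hF0 : Continuous (F p0) := hF.comp (continuous_const.prodMk continuous_id)
  have hsnd : ∀ A : Set X, MeasurableSet A →
      ((μ : Measure (P × X)).map Prod.snd) A = (μ : Measure (P × X)) (Prod.snd ⁻¹' A) :=
    fun A hA => Measure.map_apply measurable_snd hA
  have hopen : ∀ V : Set X, IsOpen V → (∀ᶠ n in atTop, ν n V = 0) →
      ((μ : Measure (P × X)).map Prod.snd) V = 0 := by
    intro V hV h0
    rw [hsnd V hV.measurableSet]
    have ho : IsOpen (Prod.snd ⁻¹' V : Set (P × X)) := hV.preimage continuous_snd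
    refine ergproj_open_null hl ho (hU ?_)
    filter_upwards [h0] with n hn
    rw [hm n _ ho.measurableSet]
    exact hn
  refine ⟨(μ : Measure (P × X)).map Prod.snd,
    Measure.isProbabilityMeasure_map measurable_snd.aemeasurable, ⟨hF0.measurable, ?_⟩,
    hopen _ hZ.isClosed.isOpen_compl (Eventually.of_forall hνZ), ?_, hopen⟩
  · rw [Measure.map_map hF0.measurable measurable_snd]
    conv_rhs => rw [← hinv']
    rw [Measure.map_map measurable_snd hG.measurable]
    refine Measure.map_congr ?_
    filter_upwards [hfst] with w hw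
    simp only [Function.comp, G, hw]
  · have hE0 : MeasurableSet {x : X | (p0, x) ∈ E} := hmk p0 hE.measurableSet
    have h1 : ((μ : Measure (P × X)).map Prod.snd) {x : X | (p0, x) ∈ E}
        = (μ : Measure (P × X)) E := by
      rw [hsnd _ hE0]
      refine measure_congr ?_
      filter_upwards [hfst] with w hw
      change ((p0, w.2) ∈ E) = (w ∈ E)
      rw [← hw]
    have h2 := ProbabilityMeasure.limsup_measure_closed_le_of_tendsto hl hE
    have h3 : ENNReal.ofReal θ ≤
        (U : Filter ℕ).limsup fun n => (m n : Measure (P × X)) E := by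
      refine le_limsup_of_frequently_le (Frequently.of_forall fun n => ?_)
      rw [hm n _ hE.measurableSet]
      exact ENNReal.ofReal_le_of_le_toReal (hθ n)
    rw [Measure.real, h1]
    exact (ENNReal.ofReal_le_iff_le_toReal (measure_ne_top _ _)).1 (h3.trans h2)

end Pool.Agent.P.MP_c34bf4_an
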