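import Mathlib

namespace Pool.Agent.P.MP_c34bf4_an

open MeasureTheory Filter Set Topology

/-- Invariant probability measures carried by a compact set form a compact set. -/
theorem isCompact_invariant {X : Type*} [MetricSpace X] [MeasurableSpace X] [BorelSpace X]
    {T : X → X} (hT : Continuous T) {Z : Set X} (hZ : IsCompact Z) :
    IsCompact {m : ProbabilityMeasure X |
      (m : Measure X) Zᶜ = 0 ∧ MeasurePreserving T (m : Measure X) m} := by
  have hK : IsCompact {μ : ProbabilityMeasure X | ∀ n : ℕ, μ ((fun _ => Z) n)ᶜ ≤ (fun _ => 0) n} :=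
    isCompact_setOfPred_probabilityMeasure_mass_eq_compl_isCompact_le tendsto_const_nhds
      (fun _ => hZ) (Or.inr monotone_const)
  have hC : IsClosed {m : ProbabilityMeasure X | m.map hT.measurable.aemeasurable = m} :=
    isClosed_eq (ProbabilityMeasure.continuous_map hT) continuous_id
  have e : {m : ProbabilityMeasure X |
      (m : Measure X) Zᶜ = 0 ∧ MeasurePreserving T (m : Measure X) m} =
      {μ : ProbabilityMeasure X | ∀ n : ℕ, μ ((fun _ => Z) n)ᶜ ≤ (fun _ => 0) n} ∩
        {m : ProbabilityMeasure X | m.map hT.measurable.aemeasurable = m} := by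
    ext m
    simp only [mem_ofPred_eq, mem_inter_iff, forall_const, nonpos_iff_eq_zero,
      ProbabilityMeasure.null_iff_toMeasure_null]
    refine and_congr_right fun _ => ⟨fun h => ?_, fun h => ⟨hT.measurable, ?_⟩⟩
    · exact Subtype.ext h.map_eq
    · exact congrArg Subtype.val h
  rw [e]
  exact hK.inter_right hC

theorem ergsel_cond_inv {X : Type*} [MeasurableSpace X] {T : X → X} {μ : Measure X}
    (hf : MeasurePreserving T μ μ) {s : Set X} (hsm : MeasurableSet s) (hfs : T ⁻¹' s = s) :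
    MeasurePreserving T (ProbabilityTheory.cond μ s) (ProbabilityTheory.cond μ s) := by
  refine .smul_measure ?_ _
  have := hf.restrict_preimage hsm
  rwa [hfs] at this

theorem ergsel_split {X : Type*} [MeasurableSpace X] {μ : Measure X} [IsProbabilityMeasure μ]
    {s : Set X} (hsm : MeasurableSet s) (hs : μ s ≠ 0) (hs' : μ sᶜ ≠ 0) {g : X → ℝ}
    (hg : Integrable g μ) :
    ∫ x, g x ∂μ = μ.real s * ∫ x, g x ∂(ProbabilityTheory.cond μ s) +
      μ.real sᶜ * ∫ x, g x ∂(ProbabilityTheory.cond μ sᶜ) := by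
  have h1 : μ.real s ≠ 0 := by
    simp [Measure.real, ENNReal.toReal_eq_zero_iff, hs]
  have h2 : μ.real sᶜ ≠ 0 := by
    simp [Measure.real, ENNReal.toReal_eq_zero_iff, hs']
  simp only [ProbabilityTheory.cond, integral_smul_measure, ENNReal.toReal_inv, smul_eq_mul]
  rw [← integral_add_compl hsm hg]
  change _ = μ.real s * ((μ.real s)⁻¹ * _) + μ.real sᶜ * ((μ.real sᶜ)⁻¹ * _)
  rw [mul_inv_cancel_left₀ h1, mul_inv_cancel_left₀ h2]

/-- An upper semicontinuous affine functional is maximised by an ergodic measure. -/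
theorem exists_ergodic_max {X : Type*} [MetricSpace X] [MeasurableSpace X] [BorelSpace X]
    {T : X → X} (I : Set (ProbabilityMeasure X)) (hI : IsCompact I)
    (hinv : ∀ m ∈ I, MeasurePreserving T (m : Measure X) m)
    (hac : ∀ m ∈ I, ∀ m' : ProbabilityMeasure X, MeasurePreserving T (m' : Measure X) m' →
      (m' : Measure X) ≪ (m : Measure X) → m' ∈ I)
    {g : X → ℝ} (hg : Measurable g) {B : ℝ} (hB : ∀ x, |g x| ≤ B)
    (husc : ∀ a : ℝ, IsClosed {m : ProbabilityMeasure X | a ≤ ∫ x, g x ∂(m : Measure X)})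
    {m0 : ProbabilityMeasure X} (hm0 : m0 ∈ I) :
    ∃ m ∈ I, Ergodic T (m : Measure X) ∧
      ∫ x, g x ∂(m0 : Measure X) ≤ ∫ x, g x ∂(m : Measure X) := by
  have hint : ∀ m : ProbabilityMeasure X, Integrable g (m : Measure X) := fun m =>
    Integrable.of_bound hg.aestronglyMeasurable B (Eventually.of_forall hB)
  have hu : UpperSemicontinuous fun m : ProbabilityMeasure X => ∫ x, g x ∂(m : Measure X) :=
    upperSemicontinuous_iff_isClosed_preimage.2 husc
  obtain ⟨m1, hm1, hmax⟩ :=
    UpperSemicontinuousOn.exists_isMaxOn ⟨m0, hm0⟩ hI (hu.upperSemicontinuousOn I)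
  set a : ℝ := ∫ x, g x ∂(m1 : Measure X) with ha
  set F : Set (ProbabilityMeasure X) := I ∩ {m | a ≤ ∫ x, g x ∂(m : Measure X)} with hF
  have hFc : IsCompact F := hI.inter_right (husc a)
  let Φ : ProbabilityMeasure X → (BoundedContinuousFunction X ℝ → ℝ) :=
    fun m φ => ∫ x, φ x ∂(m : Measure X)
  have hΦ : Continuous Φ := continuous_pi fun φ =>
    ProbabilityMeasure.continuous_integral_boundedContinuousFunction φ
  obtain ⟨y, hy⟩ := (hFc.image hΦ).extremePoints_nonempty ⟨Φ m1, m1, ⟨hm1, ha.le⟩, rfl⟩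
  obtain ⟨⟨m, ⟨hmI, hma⟩, rfl⟩, hext⟩ := mem_extremePoints.1 hy
  refine ⟨m, hmI, ⟨hinv m hmI, ⟨?_⟩⟩, le_trans (hmax hm0) hma⟩
  intro s hsm hfs
  by_contra H
  obtain ⟨hs, hs'⟩ : (m : Measure X) s ≠ 0 ∧ (m : Measure X) sᶜ ≠ 0 := by
    simpa [eventuallyConst_set, ae_iff, and_comm] using! H
  let n1 : ProbabilityMeasure X :=
    ⟨ProbabilityTheory.cond (m : Measure X) s, ProbabilityTheory.cond_isProbabilityMeasure hs⟩
  let n2 : ProbabilityMeasure X :=
    ⟨ProbabilityTheory.cond (m : Measure X) sᶜ, ProbabilityTheory.cond_isProbabilityMeasure hs'⟩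
  have i1 : n1 ∈ I := hac m hmI n1 (ergsel_cond_inv (hinv m hmI) hsm hfs)
    ProbabilityTheory.cond_absolutelyContinuous
  have i2 : n2 ∈ I := hac m hmI n2
    (ergsel_cond_inv (hinv m hmI) hsm.compl (by rw [preimage_compl, hfs]))
    ProbabilityTheory.cond_absolutelyContinuous
  have p1 : 0 < (m : Measure X).real s := ENNReal.toReal_pos hs (measure_ne_top _ _)
  have p2 : 0 < (m : Measure X).real sᶜ := ENNReal.toReal_pos hs' (measure_ne_top _ _)
  have p3 : (m : Measure X).real s + (m : Measure X).real sᶜ = 1 := by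
    rw [measureReal_add_measureReal_compl hsm]; simp
  have sp := ergsel_split hsm hs hs' (hint m)
  have b1 : ∫ x, g x ∂(ProbabilityTheory.cond (m : Measure X) s) ≤ a := hmax i1
  have b2 : ∫ x, g x ∂(ProbabilityTheory.cond (m : Measure X) sᶜ) ≤ a := hmax i2
  have hma' : a ≤ ∫ x, g x ∂(m : Measure X) := hma
  have e : a = (m : Measure X).real s * a + (m : Measure X).real sᶜ * a := by
    rw [← add_mul, p3, one_mul]
  have c1 : a ≤ ∫ x, g x ∂(ProbabilityTheory.cond (m : Measure X) s) := by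
    have := mul_le_mul_of_nonneg_left b2 p2.le
    exact le_of_mul_le_mul_left (by linarith) p1
  have c2 : a ≤ ∫ x, g x ∂(ProbabilityTheory.cond (m : Measure X) sᶜ) := by
    have := mul_le_mul_of_nonneg_left b1 p1.le
    exact le_of_mul_le_mul_left (by linarith) p2
  have hseg : Φ m ∈ openSegment ℝ (Φ n1) (Φ n2) := by
    refine ⟨_, _, p1, p2, p3, ?_⟩
    funext φ
    exact (ergsel_split hsm hs hs' (φ.integrable _)).symm
  have h1 := (hext _ ⟨n1, ⟨i1, c1⟩, rfl⟩ _ ⟨n2, ⟨i2, c2⟩, rfl⟩ hseg).1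
  have h2 : ProbabilityTheory.cond (m : Measure X) s = (m : Measure X) :=
    ext_of_forall_integral_eq_of_IsFiniteMeasure (μ := (n1 : Measure X)) fun φ => congrFun h1 φ
  rw [← h2] at hs'
  simp [ProbabilityTheory.cond_apply, hsm] at hs'

/-- Ergodic measure charging a closed set. -/
theorem exists_ergodic_pos {X : Type*} [MetricSpace X] [MeasurableSpace X] [BorelSpace X]
    {T : X → X} (hT : Continuous T) {Z E : Set X} (hZ : IsCompact Z) (hE : IsClosed E)
    {ν : Measure X} [IsProbabilityMeasure ν] (hν : MeasurePreserving T ν ν) (hνZ : ν Zᶜ = 0)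
    (hνE : ν E ≠ 0) :
    ∃ μ : Measure X, IsProbabilityMeasure μ ∧ Ergodic T μ ∧ μ Zᶜ = 0 ∧ μ E ≠ 0 := by
  have hcl : ∀ a : ℝ, IsClosed {m : ProbabilityMeasure X |
      a ≤ ∫ x, E.indicator (fun _ => (1:ℝ)) x ∂(m : Measure X)} := by
    intro a
    refine isClosed_of_closure_subset fun m hm => ?_
    simp only [mem_ofPred_eq, integral_indicator hE.measurableSet, setIntegral_const,
      smul_eq_mul, mul_one] at hm ⊢
    have hne := mem_closure_iff_nhdsWithin_neBot.1 hm
    have h1 := ProbabilityMeasure.limsup_measure_closed_le_of_tendsto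
      (μs := id) (tendsto_nhdsWithin_of_tendsto_nhds tendsto_id :
        Tendsto id (𝓝[{m : ProbabilityMeasure X | a ≤ (m : Measure X).real E}] m) (𝓝 m)) hE
    have h2 : ENNReal.ofReal a ≤ (m : Measure X) E := by
      refine le_trans (le_limsup_of_frequently_le (Eventually.frequently ?_)) h1
      filter_upwards [self_mem_nhdsWithin] with m' hm'
      exact (ENNReal.ofReal_le_iff_le_toReal (measure_ne_top _ _)).2 hm'
    exact (ENNReal.ofReal_le_iff_le_toReal (measure_ne_top _ _)).1 h2
  obtain ⟨m, hm, herg, hle⟩ := exists_ergodic_max (T := T) _ (isCompact_invariant hT hZ)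
    (fun m hm => hm.2) (fun m hm m' h1 h2 => ⟨h2 hm.1, h1⟩)
    (g := E.indicator fun _ => (1:ℝ)) (measurable_const.indicator hE.measurableSet) (B := 1)
    (fun x => by by_cases hx : x ∈ E <;> simp [hx]) hcl (m0 := ⟨ν, inferInstance⟩) ⟨hνZ, hν⟩
  refine ⟨m, inferInstance, herg, hm.1, fun h0 => ?_⟩
  simp only [integral_indicator hE.measurableSet, setIntegral_const, smul_eq_mul, mul_one] at hle
  have p : 0 < ν.real E := ENNReal.toReal_pos hνE (measure_ne_top _ _)
  have q : (m : Measure X).real E = 0 := by simp [Measure.real, h0]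
  change ν.real E ≤ _ at hle
  linarith

end Pool.Agent.P.MP_c34bf4_an
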