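import Pool.Agent.P.MP_c34bf4_an.Basic

namespace Pool.Agent.P.MP_c34bf4_an

open MeasureTheory Filter Set Topology

theorem filt_lower {C0 c b : ℝ} (hc : |c| ≤ C0) (hb : |b| ≤ 1) {Φ : ℕ → ℂ}
    (hΦ : ∀ n, Φ (n + 2) = Φ (n + 1) ^ 2 + c - b * Φ n) (n : ℕ) :
    ‖Φ (n + 1)‖ ^ 2 ≤ ‖Φ (n + 2)‖ + C0 + ‖Φ n‖ := by
  have h1 : Φ (n + 1) ^ 2 = Φ (n + 2) - c + b * Φ n := by rw [hΦ n]; ring
  have h2 : ‖(b : ℂ) * Φ n‖ ≤ ‖Φ n‖ := by
    rw [norm_mul, Complex.norm_real, Real.norm_eq_abs]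
    exact mul_le_of_le_one_left (norm_nonneg _) hb
  have h3 : ‖(c : ℂ)‖ ≤ C0 := by rwa [Complex.norm_real, Real.norm_eq_abs]
  rw [← norm_pow, h1]
  have h4 := norm_add_le (Φ (n + 2) - c) (b * Φ n)
  have h5 := norm_sub_le (Φ (n + 2)) (c : ℂ)
  linarith

theorem filt_sq {C0 x : ℝ} (h0 : 0 ≤ C0) (hx : 3 + C0 ≤ x) : 3 * x + C0 ≤ x ^ 2 := by
  nlinarith

theorem filt_not {C0 c b : ℝ} (hc : |c| ≤ C0) (hb : |b| ≤ 1) {Φ : ℕ → ℂ}
    (hΦ : ∀ n, Φ (n + 2) = Φ (n + 1) ^ 2 + c - b * Φ n)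
    (hM : ∃ M : ℝ, ∃ᶠ n in atTop, ‖Φ n‖ ≤ M) (n : ℕ) (h1 : 3 + C0 ≤ ‖Φ (n + 1)‖)
    (h2 : ‖Φ n‖ ≤ ‖Φ (n + 1)‖) : False := by
  have h0 : 0 ≤ C0 := (abs_nonneg c).trans hc
  have key : ∀ k : ℕ, 3 + C0 + k ≤ ‖Φ (n + k + 1)‖ ∧ ‖Φ (n + k)‖ ≤ ‖Φ (n + k + 1)‖ := by
    intro k
    induction k with
    | zero => simpa using ⟨h1, h2⟩
    | succ k ih =>
      have hk : (0 : ℝ) ≤ k := Nat.cast_nonneg k
      have h3 := filt_lower hc hb hΦ (n + k)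
      have h4 := filt_sq h0 (x := ‖Φ (n + k + 1)‖) (by linarith [ih.1])
      have e1 : n + (k + 1) + 1 = n + k + 2 := by ring
      have e2 : n + (k + 1) = n + k + 1 := by ring
      rw [e1, e2]
      push_cast
      constructor <;> linarith [ih.1, ih.2]
  obtain ⟨M, hM⟩ := hM
  obtain ⟨K, hK⟩ := exists_nat_gt M
  obtain ⟨m, hm1, hm2⟩ := frequently_atTop.1 hM (n + K + 1)
  obtain ⟨d, rfl⟩ := Nat.exists_eq_add_of_le hm1
  have h5 := (key (K + d)).1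
  have e : n + (K + d) + 1 = n + K + 1 + d := by ring
  rw [e] at h5
  push_cast at h5
  have hd : (0 : ℝ) ≤ d := Nat.cast_nonneg d
  linarith

/-- Filtration estimate for complex orbits that do not escape. -/
theorem filt_succ {C0 c b : ℝ} (hc : |c| ≤ C0) (hb : |b| ≤ 1) {Φ : ℕ → ℂ}
    (hΦ : ∀ n, Φ (n + 2) = Φ (n + 1) ^ 2 + c - b * Φ n)
    (hM : ∃ M : ℝ, ∃ᶠ n in atTop, ‖Φ n‖ ≤ M) (n : ℕ) :
    ‖Φ (n + 1)‖ ≤ max (3 + C0) (‖Φ n‖ / 2) := by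
  have h0 : 0 ≤ C0 := (abs_nonneg c).trans hc
  rcases le_total ‖Φ (n + 1)‖ (3 + C0) with h | h
  · exact h.trans (le_max_left _ _)
  refine le_trans ?_ (le_max_right _ _)
  have h1 : ‖Φ (n + 2)‖ ≤ ‖Φ (n + 1)‖ := by
    by_contra h1
    rw [not_le] at h1
    exact filt_not hc hb hΦ hM (n + 1) (h.trans h1.le) h1.le
  have h3 := filt_lower hc hb hΦ n
  have h4 := filt_sq h0 h
  linarith

theorem filt_pow {C0 c b : ℝ} (hc : |c| ≤ C0) (hb : |b| ≤ 1) {Φ : ℕ → ℂ}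
    (hΦ : ∀ n, Φ (n + 2) = Φ (n + 1) ^ 2 + c - b * Φ n)
    (hM : ∃ M : ℝ, ∃ᶠ n in atTop, ‖Φ n‖ ≤ M) (n : ℕ) :
    ‖Φ n‖ ≤ max (3 + C0) (‖Φ 0‖ / 2 ^ n) := by
  have h0 : 0 ≤ C0 := (abs_nonneg c).trans hc
  induction n with
  | zero => simp
  | succ n ih =>
    refine (filt_succ hc hb hΦ hM n).trans (max_le (le_max_left _ _) ?_)
    rcases le_max_iff.1 ih with h | h
    · exact le_trans (by linarith) (le_max_left _ _)
    · refine le_trans ?_ (le_max_right _ _)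
      rw [pow_succ, ← div_div]
      linarith

theorem filt_continuous_orb (c b : ℝ) (m : ℕ) : Continuous fun x => orb c b x m :=
  continuous_snd.comp ((continuous_henon c b).iterate m)

/-- Invariant probability measures live in a fixed box. -/
theorem ae_orb_le {C0 c b : ℝ} (hc : |c| ≤ C0) (hb : |b| ≤ 1) {μ : Measure (ℝ × ℝ)}
    [IsProbabilityMeasure μ] (hμ : MeasurePreserving (henon c b) μ μ) :
    ∀ᵐ x ∂μ, ∀ n, |orb c b x n| ≤ 3 + C0 := by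
  have h0 : 0 ≤ C0 := (abs_nonneg c).trans hc
  filter_upwards [hμ.conservative.ae_frequently_mem_of_mem_nhds] with x hx m
  have hΦ : ∀ n, ((orb c b x (n + 2) : ℝ) : ℂ) =
      ((orb c b x (n + 1) : ℝ) : ℂ) ^ 2 + c - b * ((orb c b x n : ℝ) : ℂ) := by
    intro n
    rw [orb_rec]
    push_cast
    ring
  have hM : ∃ M : ℝ, ∃ᶠ n in atTop, ‖((orb c b x n : ℝ) : ℂ)‖ ≤ M := by
    refine ⟨|x.2| + 1, ?_⟩
    have hs : {y : ℝ × ℝ | |y.2| < |x.2| + 1} ∈ 𝓝 x :=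
      (isOpen_lt (by fun_prop) continuous_const).mem_nhds (by simp)
    refine (hx _ hs).mono fun n hn => ?_
    rw [Complex.norm_real, Real.norm_eq_abs]
    exact le_of_lt hn
  have hp := filt_pow hc hb (Φ := fun n => ((orb c b x n : ℝ) : ℂ)) hΦ hM
  simp only [Complex.norm_real, Real.norm_eq_abs] at hp
  have hev : ∀ᶠ n : ℕ in atTop, |orb c b x n| ≤ 3 + C0 := by
    have ht : Tendsto (fun n : ℕ => |orb c b x 0| / 2 ^ n) atTop (𝓝 0) :=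
      tendsto_const_nhds.div_atTop (tendsto_pow_atTop_atTop_of_one_lt one_lt_two)
    filter_upwards [ht.eventually (gt_mem_nhds (show (0 : ℝ) < 3 + C0 by linarith))] with n hn
    exact (hp n).trans (max_le le_rfl hn.le)
  by_contra hm
  rw [not_le] at hm
  have hs : {y : ℝ × ℝ | 3 + C0 < |orb c b y m|} ∈ 𝓝 x :=
    (isOpen_lt continuous_const (filt_continuous_orb c b m).abs).mem_nhds hm
  obtain ⟨N, hN⟩ := eventually_atTop.1 hev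
  obtain ⟨n, hn1, hn2⟩ := frequently_atTop.1 (hx _ hs) N
  have h1 : 3 + C0 < |orb c b ((henon c b)^[n] x) m| := hn2
  rw [orb_iterate] at h1
  exact absurd (hN (m + n) (by omega)) (not_le.2 h1)

end Pool.Agent.P.MP_c34bf4_an
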