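import Pool.Agent.P.MP_c34bf4_an.Approx

namespace Pool.Agent.P.MP_c34bf4_an

open MeasureTheory Filter Set Topology

variable {q : ℕ → ℝ} {b r : ℝ} {s t : ℕ → ℝ}

theorem limit_down_ind {P : ℕ → Prop} (N : ℕ) (h1 : ∀ n, N ≤ n → P n)
    (h2 : ∀ n, P (n + 1) → P (n + 2) → P n) : ∀ n, P n := by
  have key : ∀ k n, N ≤ n + k → P n := by
    intro k
    induction k with
    | zero => intro n hn; exact h1 n (by simpa using hn)
    | succ k ih =>
      intro n hn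
      exact h2 n (ih (n + 1) (by omega)) (ih (n + 2) (by omega))
  exact fun n => key N n (by omega)

theorem limit_exists_pow {σ c : ℝ} (h0 : 0 ≤ σ) (h1 : σ < 1) (hc : 0 < c) (ρ : ℝ) :
    ∃ N : ℕ, ρ * σ ^ N ≤ c := by
  have h : Tendsto (fun N : ℕ => ρ * σ ^ N) atTop (𝓝 (ρ * 0)) :=
    (tendsto_pow_atTop_nhds_zero_of_lt_one h0 h1).const_mul ρ
  rw [mul_zero] at h
  exact (h.eventually (ge_mem_nhds hc)).exists

theorem limit_back {u : ℕ → ℂ} (hb : b ≠ 0) (hu : NSol q b u) (n : ℕ) :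
    u n = (2 * (q (n + 1) : ℂ) * u (n + 1) + u (n + 1) ^ 2 - u (n + 2)) / (b : ℂ) := by
  have hb' : (b : ℂ) ≠ 0 := by exact_mod_cast hb
  rw [eq_div_iff hb', hu n]
  ring

/-- The entire family of solutions tangent to `ζ s`. -/
theorem Lin.exists_tangent (h : Lin q b r s t) {ω : ℝ} (hω : 1 < ω) (hσ : r * ω ^ 4 < 1) :
    ∃ (φ : ℕ → ℂ → ℂ) (c K : ℝ), Tang q b r ω c K s φ := by
  obtain ⟨C, hC, hbd⟩ := h.bd ω hω
  have hb := h.b_ne
  have hr := h.r_pos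
  have hσ0 : 0 < r * ω ^ 4 := by positivity
  have hC0 : 0 < C := by linarith
  have h1σ : 0 < 1 - r * ω ^ 4 := by linarith
  have hc : 0 < (1 - r * ω ^ 4) / (16 * C ^ 3) := by positivity
  have hex : ∀ M : ℕ, ∃ a : ℕ → ℂ → ℂ, (∀ n, Differentiable ℂ (a n)) ∧
      (∀ n (t : ℝ), (a n t).im = 0) ∧ (∀ ζ, NSol q b fun n => a n ζ) ∧
      a M = (fun ζ => ζ * (s M : ℂ)) ∧ a (M + 1) = (fun ζ => ζ * (s (M + 1) : ℂ)) := fun M =>
    exists_back_sol hb M q (fun ζ => ζ * (s M : ℂ)) (fun ζ => ζ * (s (M + 1) : ℂ))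
      (by fun_prop) (by fun_prop) (by intro x; simp) (by intro x; simp)
  choose a adiff areal asol a0 a1 using hex
  have a0' : ∀ M ζ, a M M ζ = ζ * (s M : ℂ) := fun M ζ => congrFun (a0 M) ζ
  have a1' : ∀ M ζ, a M (M + 1) ζ = ζ * (s (M + 1) : ℂ) := fun M ζ => congrFun (a1 M) ζ
  have hdist : ∀ (ρ : ℝ) (N n : ℕ) (ζ : ℂ), N ≤ n → ‖ζ‖ ≤ ρ →
      ρ * (r * ω ^ 4) ^ N ≤ (1 - r * ω ^ 4) / (16 * C ^ 3) → ∀ M : ℕ,
      dist (a (M + n) n ζ) (a (M + 1 + n) n ζ) ≤ (16 * C ^ 4 * ρ ^ 2) * (r * ω ^ 4) ^ M := by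
    intro ρ N n ζ hN hρ hρc M
    have hζ : ‖ζ‖ * (r * ω ^ 4) ^ N ≤ (1 - r * ω ^ 4) / (16 * C ^ 3) :=
      le_trans (mul_le_mul_of_nonneg_right hρ (by positivity)) hρc
    have e : M + 1 + n = M + n + 1 := by ring
    have h1 := h.cauchy hω hσ hC hbd (asol (M + n) ζ) (asol (M + n + 1) ζ) (ζ := ζ) (N := N)
      (M := M + n) (a0' _ _) (a1' _ _) (a0' _ _) (a1' (M + n + 1) ζ) hζ n hN (by omega)
    rw [dist_comm, dist_eq_norm, e]
    refine h1.trans ?_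
    have h2 : (r * ω ^ 4) ^ (M + n) ≤ (r * ω ^ 4) ^ M :=
      pow_le_pow_of_le_one hσ0.le hσ.le (by omega)
    have h3 : ‖ζ‖ ^ 2 ≤ ρ ^ 2 := pow_le_pow_left₀ (norm_nonneg _) hρ 2
    have h4 : 0 ≤ ρ ^ 2 := sq_nonneg _
    gcongr
  have hconv : ∀ (ζ : ℂ) (n : ℕ), ∃ l, Tendsto (fun M => a M n ζ) atTop (𝓝 l) := by
    intro ζ
    obtain ⟨N, hN⟩ := limit_exists_pow hσ0.le hσ hc ‖ζ‖
    refine limit_down_ind N ?_ ?_
    · intro n hn
      have h1 : CauchySeq (fun M => a (M + n) n ζ) :=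
        cauchySeq_of_le_geometric _ _ hσ (hdist ‖ζ‖ N n ζ hn le_rfl hN)
      obtain ⟨l, hl⟩ := cauchySeq_tendsto_of_complete h1
      exact ⟨l, (tendsto_add_atTop_iff_nat (f := fun M => a M n ζ) n).1 hl⟩
    · rintro n ⟨l1, h1⟩ ⟨l2, h2⟩
      refine ⟨(2 * (q (n + 1) : ℂ) * l1 + l1 ^ 2 - l2) / (b : ℂ), ?_⟩
      have h3 := (((h1.const_mul (2 * (q (n + 1) : ℂ))).add (h1.pow 2)).sub h2).div_const (b : ℂ)
      exact h3.congr fun M => (limit_back hb (asol M ζ) n).symm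
  choose φ' hlim' using hconv
  obtain ⟨φ, hlim⟩ : ∃ φ : ℕ → ℂ → ℂ, ∀ n ζ, Tendsto (fun M => a M n ζ) atTop (𝓝 (φ n ζ)) :=
    ⟨fun n ζ => φ' ζ n, fun n ζ => hlim' ζ n⟩
  have hsol : ∀ ζ, NSol q b (fun n => φ n ζ) := by
    intro ζ n
    have h3 := (((hlim (n + 1) ζ).const_mul (2 * (q (n + 1) : ℂ))).sub
      ((hlim n ζ).const_mul (b : ℂ))).add ((hlim (n + 1) ζ).pow 2)
    exact tendsto_nhds_unique (hlim (n + 2) ζ) (h3.congr fun M => (asol M ζ n).symm)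
  refine ⟨φ, (1 - r * ω ^ 4) / (16 * C ^ 3), 2 * C, ?_, ?_, hsol, hc, by positivity, ?_, ?_⟩
  · intro n0 ζ0
    obtain ⟨N, hN⟩ := limit_exists_pow hσ0.le hσ hc (‖ζ0‖ + 1)
    have key : ∀ n, DifferentiableOn ℂ (φ n) (Metric.ball 0 (‖ζ0‖ + 1)) := by
      refine limit_down_ind N ?_ ?_
      · intro n hn
        have hu : TendstoUniformlyOn (fun M => a (M + n) n) (φ n) atTop
            (Metric.ball 0 (‖ζ0‖ + 1)) := by
          rw [Metric.tendstoUniformlyOn_iff]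
          intro ε hε
          have h1 : Tendsto (fun M : ℕ => (16 * C ^ 4 * (‖ζ0‖ + 1) ^ 2) * (r * ω ^ 4) ^ M /
              (1 - r * ω ^ 4)) atTop (𝓝 ((16 * C ^ 4 * (‖ζ0‖ + 1) ^ 2) * 0 / (1 - r * ω ^ 4))) :=
            ((tendsto_pow_atTop_nhds_zero_of_lt_one hσ0.le hσ).const_mul _).div_const _
          rw [mul_zero, zero_div] at h1
          filter_upwards [h1.eventually (gt_mem_nhds hε)] with M hM ζ hζ
          rw [dist_comm]
          refine lt_of_le_of_lt ?_ hM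
          exact dist_le_of_le_geometric_of_tendsto _ _ hσ
            (hdist (‖ζ0‖ + 1) N n ζ hn (mem_ball_zero_iff.1 hζ).le hN)
            ((tendsto_add_atTop_iff_nat (f := fun M => a M n ζ) n).2 (hlim n ζ)) M
        exact hu.tendstoLocallyUniformlyOn.differentiableOn
          (Eventually.of_forall fun M => (adiff _ _).differentiableOn) Metric.isOpen_ball
      · intro n h1 h2
        have e : φ n = fun ζ => (2 * (q (n + 1) : ℂ) * φ (n + 1) ζ + φ (n + 1) ζ ^ 2 -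
            φ (n + 2) ζ) / (b : ℂ) := funext fun ζ => limit_back hb (hsol ζ) n
        rw [e]
        exact (((h1.const_mul _).add (h1.pow 2)).sub h2).div_const _
    exact (key n0).differentiableAt
      (Metric.isOpen_ball.mem_nhds (mem_ball_zero_iff.2 (by linarith)))
  · intro n x
    have h1 := (Complex.continuous_im.tendsto _).comp (hlim n x)
    have h2 : Tendsto (fun _ : ℕ => (0 : ℝ)) atTop (𝓝 (φ n x).im) :=
      h1.congr fun M => areal M n x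
    exact tendsto_nhds_unique h2 tendsto_const_nhds
  · rw [← mul_div_assoc, div_le_one (by positivity)]
    have h1 : 1 ≤ C ^ 2 := one_le_pow₀ hC
    nlinarith [mul_pos hC0 hσ0, mul_le_mul_of_nonneg_left h1 hC0.le]
  · intro N n ζ hN hζ
    have hev : ∀ᶠ M in atTop, ‖a M n ζ‖ ≤ 2 * C * ‖ζ‖ * (r * ω) ^ n ∧
        ‖a M n ζ - ζ * s n‖ ≤
          8 * C ^ 4 / (1 - r * ω ^ 4) * ‖ζ‖ ^ 2 * (r * (r * ω ^ 4)) ^ n := by
      filter_upwards [eventually_ge_atTop n] with M hM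
      exact h.apriori hω hσ hC hbd (asol M ζ) (a0' _ _) (a1' _ _) hζ n hN hM
    refine ⟨le_of_tendsto (hlim n ζ).norm (hev.mono fun M hM => hM.1), ?_⟩
    refine (le_of_tendsto ((hlim n ζ).sub_const _).norm (hev.mono fun M hM => hM.2)).trans ?_
    have e : 2 * C / ((1 - r * ω ^ 4) / (16 * C ^ 3)) = 32 * C ^ 4 / (1 - r * ω ^ 4) := by
      field_simp
      norm_num
    rw [e]
    gcongr
    norm_num

end Pool.Agent.P.MP_c34bf4_an
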