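import Pool.Agent.P.MP_c34bf4_an.Basic

namespace Pool.Agent.P.MP_c34bf4_an

open MeasureTheory Filter Set Topology

theorem lint_exists (q : ℕ → ℝ) (b t0 t1 : ℝ) :
    ∃ t : ℕ → ℝ, LinSol q b t ∧ t 0 = t0 ∧ t 1 = t1 := by
  let P : ℕ → ℝ × ℝ := fun n =>
    Nat.rec (t0, t1) (fun k p => (p.2, 2 * q (k + 1) * p.2 - b * p.1)) n
  exact ⟨fun n => (P n).1, fun n => rfl, rfl, rfl⟩

theorem lint_step {R β Q b W s0 s1 s2 m m' : ℝ} (hQ : |Q| ≤ R) (hb : |b| ≤ 1) (hW : |W| = β)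
    (hm : 0 < m) (hm' : 0 < m') (h0 : |s0| ≤ m) (h1 : |s1| ≤ m) (h1' : |s1| ≤ m')
    (h2 : |s2| ≤ m') (hN : m ^ 2 ≤ s0 ^ 2 + s1 ^ 2) (hN' : m' ^ 2 ≤ s1 ^ 2 + s2 ^ 2) :
    |W * ((2 * Q * s0 + b * s1) * s2 + s0 * s1) / ((s0 ^ 2 + s1 ^ 2) * (s1 ^ 2 + s2 ^ 2))| ≤
      (2 * R + 2) * β * (1 / m) * (1 / m') := by
  have hβ : 0 ≤ β := hW ▸ abs_nonneg W
  have hR : 0 ≤ R := (abs_nonneg Q).trans hQ
  have e1 : |2 * Q * s0 + b * s1| ≤ (2 * R + 1) * m := by
    calc |2 * Q * s0 + b * s1| ≤ |2 * Q * s0| + |b * s1| := abs_add_le _ _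
      _ = 2 * |Q| * |s0| + |b| * |s1| := by simp only [abs_mul, abs_two]
      _ ≤ 2 * R * m + 1 * m := by gcongr
      _ = _ := by ring
  have e2 : |(2 * Q * s0 + b * s1) * s2 + s0 * s1| ≤ (2 * R + 2) * (m * m') := by
    calc |(2 * Q * s0 + b * s1) * s2 + s0 * s1|
        ≤ |(2 * Q * s0 + b * s1) * s2| + |s0 * s1| := abs_add_le _ _
      _ = |2 * Q * s0 + b * s1| * |s2| + |s0| * |s1| := by simp only [abs_mul]
      _ ≤ (2 * R + 1) * m * m' + m * m' := by gcongr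
      _ = _ := by ring
  have hp : 0 < m ^ 2 * m' ^ 2 := by positivity
  have e3 : m ^ 2 * m' ^ 2 ≤ (s0 ^ 2 + s1 ^ 2) * (s1 ^ 2 + s2 ^ 2) := by gcongr
  rw [abs_div, abs_mul, hW, abs_of_pos (hp.trans_le e3)]
  calc β * |(2 * Q * s0 + b * s1) * s2 + s0 * s1| / ((s0 ^ 2 + s1 ^ 2) * (s1 ^ 2 + s2 ^ 2))
      ≤ β * ((2 * R + 2) * (m * m')) / (m ^ 2 * m' ^ 2) := by gcongr
    _ = _ := by field_simp

theorem lint_max_sq (a b : ℝ) : (max |b| |a|) ^ 2 ≤ a ^ 2 + b ^ 2 := by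
  rcases le_total |b| |a| with h | h
  · rw [max_eq_right h, sq_abs]; nlinarith [sq_nonneg b]
  · rw [max_eq_left h, sq_abs]; nlinarith [sq_nonneg a]

/-- A tempered solution has a tempered partner. -/
theorem exists_lin {q : ℕ → ℝ} {b r R : ℝ} (hq : ∀ n, |q n| ≤ R) (hr : 0 < r) (hrb : r ≤ |b|)
    (hb : |b| < 1) {s : ℕ → ℝ} (hs : LinSol q b s)
    (hbd : ∀ ω : ℝ, 1 < ω → ∃ C : ℝ, ∀ n : ℕ, max |s (n + 1)| |s n| ≤ C * (r * ω) ^ n ∧
      (r / ω) ^ n ≤ C * max |s (n + 1)| |s n|) :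
    ∃ t : ℕ → ℝ, Lin q b r s t := by
  have hR : 0 ≤ R := (abs_nonneg _).trans (hq 0)
  set m : ℕ → ℝ := fun n => max |s (n + 1)| |s n| with hmdef
  have hm0 : ∀ n, 0 ≤ m n := fun n => le_max_of_le_left (abs_nonneg _)
  have hm : ∀ n, 0 < m n := by
    intro n
    obtain ⟨C, hC⟩ := hbd 2 one_lt_two
    refine lt_of_le_of_ne (hm0 n) fun h => ?_
    have h1 : (r / 2) ^ n ≤ C * m n := (hC n).2
    rw [← h, mul_zero] at h1
    exact absurd h1 (not_le.2 (by positivity))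
  have hN : ∀ n, m n ^ 2 ≤ s n ^ 2 + s (n + 1) ^ 2 := fun n => lint_max_sq _ _
  have hN0 : ∀ n, 0 < s n ^ 2 + s (n + 1) ^ 2 := fun n =>
    lt_of_lt_of_le (pow_pos (hm n) 2) (hN n)
  obtain ⟨t, ht, t0, t1⟩ := lint_exists q b (s 1 / (s 0 ^ 2 + s 1 ^ 2)) (-s 0 / (s 0 ^ 2 + s 1 ^ 2))
  have wr : ∀ n, s (n + 1) * t n - s n * t (n + 1) = b ^ n := by
    intro n
    induction n with
    | zero =>
      have := (hN0 0).ne'
      simp only [zero_add] at this ⊢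
      rw [t0, t1]; field_simp; ring
    | succ n ih =>
      rw [hs n, ht n, pow_succ, ← ih]; ring
  set τ : ℕ → ℝ := fun n => (t (n + 1) * s (n + 1) + t n * s n) / (s n ^ 2 + s (n + 1) ^ 2)
    with hτ
  have e0 : ∀ n, t n = τ n * s n + b ^ n * s (n + 1) / (s n ^ 2 + s (n + 1) ^ 2) := by
    intro n
    have := (hN0 n).ne'
    simp only [hτ]
    rw [← wr n]; field_simp; ring
  have e1 : ∀ n, τ (n + 1) = τ n - b ^ n * ((2 * q (n + 1) * s n + b * s (n + 1)) * s (n + 2) +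
      s n * s (n + 1)) / ((s n ^ 2 + s (n + 1) ^ 2) * (s (n + 1) ^ 2 + s (n + 2) ^ 2)) := by
    intro n
    have h1 := (hN0 n).ne'
    have h2 : s (n + 1) ^ 2 + s (n + 2) ^ 2 ≠ 0 := (hN0 (n + 1)).ne'
    simp only [hτ]
    rw [← wr n, show n + 1 + 1 = n + 2 from rfl, ht n]
    field_simp
    rw [hs n]; ring
  refine ⟨t, hr, hrb, hb, hs, ht, wr, fun ω hω => ?_⟩
  obtain ⟨w, hw1, hw3⟩ : ∃ w : ℝ, 1 < w ∧ w ^ 3 = ω :=
    ⟨ω ^ ((3 : ℕ) : ℝ)⁻¹, Real.one_lt_rpow hω (by positivity),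
      Real.rpow_inv_natCast_pow (by linarith) (by norm_num)⟩
  have hw0 : 0 < w := by linarith
  have hwω : w ≤ ω := by rw [← hw3]; nlinarith [mul_pos hw0 hw0]
  obtain ⟨C, hC⟩ := hbd w hw1
  have hC0 : 0 < C := by
    have h1 : (r / w) ^ 0 ≤ C * m 0 := (hC 0).2
    rw [pow_zero] at h1
    by_contra hc
    nlinarith [hm 0, not_lt.1 hc]
  have hinv : ∀ n, 1 / m n ≤ C * (w / r) ^ n := by
    intro n
    have h1 : (r / w) ^ n ≤ C * m n := (hC n).2
    rw [div_le_iff₀ (hm n)]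
    have h2 : (w / r) ^ n * (r / w) ^ n = 1 := by
      rw [← mul_pow, div_mul_div_cancel₀ hr.ne', div_self hw0.ne', one_pow]
    calc (1 : ℝ) = (w / r) ^ n * (r / w) ^ n := h2.symm
      _ ≤ (w / r) ^ n * (C * m n) := by gcongr
      _ = _ := by ring
  have hβ : 0 < |b| := hr.trans_le hrb
  set γ : ℝ := |b| * (w / r) ^ 2 with hγ
  have hγ1 : 1 < γ := by
    rw [hγ, div_pow, ← mul_div_assoc, one_lt_div (by positivity)]
    have h1 : r ^ 2 < r := by nlinarith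
    have h2 : 1 < w ^ 2 := by nlinarith
    nlinarith
  set D : ℝ := (2 * R + 2) * C ^ 2 * (w / r) with hD
  have hD0 : 0 ≤ D := by positivity
  have hstep : ∀ n, |τ (n + 1)| ≤ |τ n| + D * γ ^ n := by
    intro n
    have h1 := lint_step (hq (n + 1)) hb.le (abs_pow b n) (hm n) (hm (n + 1))
      (le_max_right _ _) (le_max_left _ _) (le_max_right _ _) (le_max_left _ _) (hN n) (hN (n + 1))
    rw [e1 n]
    refine (abs_sub _ _).trans (add_le_add le_rfl (h1.trans ?_))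
    calc (2 * R + 2) * |b| ^ n * (1 / m n) * (1 / m (n + 1))
        ≤ (2 * R + 2) * |b| ^ n * (C * (w / r) ^ n) * (C * (w / r) ^ (n + 1)) := by
          have := hm (n + 1)
          gcongr
          · exact hinv n
          · exact hinv (n + 1)
      _ = D * γ ^ n := by rw [hD, hγ, mul_pow, ← pow_mul]; ring
  set K : ℝ := |τ 0| + D / (γ - 1) with hK
  have hK0 : 0 ≤ D / (γ - 1) := div_nonneg hD0 (by linarith)
  have hK1 : 0 ≤ K := by positivity
  have hDK : D ≤ K * (γ - 1) := by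
    have h1 : D / (γ - 1) * (γ - 1) = D := div_mul_cancel₀ _ (by linarith)
    have h2 : 0 ≤ |τ 0| * (γ - 1) := mul_nonneg (abs_nonneg _) (by linarith)
    rw [hK]; linarith
  have hτb : ∀ n, |τ n| ≤ K * γ ^ n := by
    intro n
    induction n with
    | zero => rw [pow_zero, mul_one, hK]; linarith
    | succ n ih =>
      have h1 : D * γ ^ n ≤ K * (γ - 1) * γ ^ n := by gcongr
      have := hstep n
      rw [pow_succ]; linarith
  refine ⟨1 + C + K * C, by nlinarith [mul_nonneg hK1 hC0.le], fun n => ⟨?_, ?_⟩⟩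
  · calc |s n| ≤ m n := le_max_right _ _
      _ ≤ C * (r * w) ^ n := (hC n).1
      _ ≤ (1 + C + K * C) * (r * ω) ^ n := by
          gcongr
          nlinarith [mul_nonneg hK1 hC0.le]
  · have a1 : |τ n * s n| ≤ K * C * (|b| * ω / r) ^ n := by
      rw [abs_mul]
      calc |τ n| * |s n| ≤ K * γ ^ n * (C * (r * w) ^ n) := by
            gcongr
            · exact hτb n
            · exact (le_max_right _ _).trans (hC n).1
        _ = K * C * (γ * (r * w)) ^ n := by rw [mul_pow γ]; ring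
        _ = _ := by
            congr 2
            rw [hγ, ← hw3]; field_simp
    have a2 : |b ^ n * s (n + 1) / (s n ^ 2 + s (n + 1) ^ 2)| ≤ C * (|b| * ω / r) ^ n := by
      rw [abs_div, abs_mul, abs_pow, abs_of_pos (hN0 n)]
      have := hm n
      calc |b| ^ n * |s (n + 1)| / (s n ^ 2 + s (n + 1) ^ 2) ≤ |b| ^ n * m n / m n ^ 2 := by
            gcongr
            · exact le_max_left _ _
            · exact hN n
        _ = |b| ^ n * (1 / m n) := by field_simp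
        _ ≤ |b| ^ n * (C * (w / r) ^ n) := by gcongr; exact hinv n
        _ = C * (|b| * w / r) ^ n := by rw [mul_div_assoc, mul_pow]; ring
        _ ≤ _ := by gcongr
    have a3 : 0 ≤ (|b| * ω / r) ^ n := by
      have : 0 < ω := by linarith
      positivity
    rw [e0 n]
    refine (abs_add_le _ _).trans ?_
    nlinarith

theorem Reg.exists_lin {c b R : ℝ} {x : ℝ × ℝ} (h : Reg c b x) (hb : |b| < 1)
    (hq : ∀ n, |orb c b x n| ≤ R) : ∃ (r : ℝ) (s t : ℕ → ℝ), Lin (orb c b x) b r s t := by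
  obtain ⟨v, r, hr, hrb, hbd⟩ := h
  obtain ⟨t, ht⟩ := Pool.Agent.P.MP_c34bf4_an.exists_lin hq hr hrb hb (linSol_dIt c b x v) (by
    intro ω hω
    obtain ⟨C, hC⟩ := hbd ω hω
    refine ⟨C, fun n => ?_⟩
    have h1 := hC n
    rw [dIt_eq, Prod.norm_def] at h1
    simpa only [Real.norm_eq_abs] using h1)
  exact ⟨r, _, t, ht⟩

end Pool.Agent.P.MP_c34bf4_an
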