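import Pool.Agent.P.MP_c34bf4_an.Basic

namespace Pool.Agent.P.MP_c34bf4_an

open MeasureTheory Filter Set Topology

theorem param_log_le (d a : ℝ) {n : ℕ} (hn : 0 < n) :
    ENNReal.log (ENNReal.ofReal d) / (n : EReal) ≤ (a : EReal) ↔ d ≤ Real.exp a ^ n := by
  rw [EReal.div_le_iff_le_mul (by exact_mod_cast hn) (EReal.natCast_ne_top n)]
  have e : (n : EReal) * (a : EReal) = ENNReal.log (ENNReal.ofReal (Real.exp a ^ n)) := by
    rw [ENNReal.log_ofReal_of_pos (by positivity), Real.log_pow, Real.log_exp, EReal.coe_mul]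
    rfl
  rw [e, ENNReal.log_le_log_iff, ENNReal.ofReal_le_ofReal_iff (by positivity)]

theorem param_seq (d : ℕ → ℝ) :
    limsup (fun n : ℕ => ENNReal.log (ENNReal.ofReal (d n)) / (n : EReal)) atTop < 0 ↔
      ∃ D θ : ℝ, 0 ≤ θ ∧ θ < 1 ∧ ∀ n : ℕ, d n ≤ D * θ ^ n := by
  constructor
  · intro h
    obtain ⟨a, ha, ha0⟩ := EReal.lt_iff_exists_real_btwn.1 h
    have ha0' : a < 0 := by exact_mod_cast ha0
    obtain ⟨N, hN⟩ := eventually_atTop.1 (eventually_lt_of_limsup_lt ha)
    have hp := Real.exp_pos a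
    refine ⟨1 + ∑ k ∈ Finset.range (N + 1), |d k| / Real.exp a ^ k, Real.exp a, hp.le,
      Real.exp_lt_one_iff.2 ha0', fun n => ?_⟩
    have hs : 0 ≤ ∑ k ∈ Finset.range (N + 1), |d k| / Real.exp a ^ k :=
      Finset.sum_nonneg fun k _ => by positivity
    have hq : 0 < Real.exp a ^ n := by positivity
    rcases lt_or_ge N n with h1 | h1
    · have := (param_log_le (d n) a (by omega)).1 (hN n h1.le).le
      nlinarith
    · have h2 : |d n| / Real.exp a ^ n ≤ ∑ k ∈ Finset.range (N + 1), |d k| / Real.exp a ^ k :=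
        Finset.single_le_sum (f := fun k => |d k| / Real.exp a ^ k) (fun k _ => by positivity)
          (Finset.mem_range.2 (by omega))
      rw [div_le_iff₀ hq] at h2
      nlinarith [le_abs_self (d n)]
  · rintro ⟨D, θ, h0, h1, h⟩
    obtain ⟨η, hη, hη1⟩ := exists_between h1
    have hp : 0 < η := h0.trans_lt hη
    have ht : Tendsto (fun n : ℕ => D * (θ / η) ^ n) atTop (𝓝 (D * 0)) :=
      (tendsto_pow_atTop_nhds_zero_of_lt_one (by positivity) ((div_lt_one hp).2 hη)).const_mul D
    rw [mul_zero] at ht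
    have he : ∀ᶠ n : ℕ in atTop,
        ENNReal.log (ENNReal.ofReal (d n)) / (n : EReal) ≤ (Real.log η : EReal) := by
      filter_upwards [ht.eventually (gt_mem_nhds zero_lt_one), eventually_gt_atTop 0] with n a b
      rw [param_log_le _ _ b, Real.exp_log hp]
      rw [div_pow, ← mul_div_assoc, div_lt_one (by positivity)] at a
      exact (h n).trans a.le
    refine (limsup_le_of_le (h := he)).trans_lt ?_
    exact_mod_cast Real.log_neg hp hη1

theorem param_orb {c b τ : ℝ} {x : ℝ × ℝ} {φ : ℕ → ℂ → ℂ} (h : Stab (orb c b x) b τ φ) (t : ℝ)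
    (n : ℕ) : orb c b (curve (orb c b x) φ t) n = orb c b x n + (φ n t).re := by
  refine orb_eq_of_rec c b _ (fun n => orb c b x n + (φ n t).re) (fun k => ?_) rfl rfl n
  have h1 := congrArg Complex.re (h.sol t k)
  have h2 := h.real (k + 1) t
  have h3 := h.real k t
  simp [sq, h2, h3] at h1
  rw [h1, orb_rec]
  ring

theorem param_deriv_im {g : ℂ → ℂ} (hg : Differentiable ℂ g) (hr : ∀ t : ℝ, (g t).im = 0) (t : ℝ) :
    (deriv g t).im = 0 := by
  have h1 : HasDerivAt (fun y : ℝ => g y) (deriv g t) t := (hg t).hasDerivAt.comp_ofReal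
  have h2 : HasDerivAt (fun y : ℝ => (g y).im) (deriv g t).im t :=
    Complex.imCLM.hasFDerivAt.comp_hasDerivAt t h1
  simp only [hr] at h2
  exact h2.unique (hasDerivAt_const t 0)

theorem mem_Ws_iff (f : ℝ × ℝ → ℝ × ℝ) (x y : ℝ × ℝ) :
    y ∈ Ws f x ↔ ∃ D θ : ℝ, 0 ≤ θ ∧ θ < 1 ∧ ∀ n : ℕ, dist (f^[n] y) (f^[n] x) ≤ D * θ ^ n := by
  rw [← param_seq]
  simp only [Ws, mem_ofPred_eq, edist_dist]

/-- The entire parametrisation restricts to a parametrisation of the real stable manifold. -/
theorem Stab.isParam {c b τ : ℝ} {x : ℝ × ℝ} {φ : ℕ → ℂ → ℂ} (h : Stab (orb c b x) b τ φ) :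
    IsParam (Ws (henon c b) x) x (curve (orb c b x) φ) := by
  refine ⟨?_, ?_, ?_, ?_, ?_⟩
  · exact (contDiff_const.add (h.diff 1).contDiff.real_of_complex).prodMk
      (contDiff_const.add (h.diff 0).contDiff.real_of_complex)
  · intro t t' e
    have e1 : (φ 1 t).re = (φ 1 t').re := add_left_cancel (congrArg Prod.fst e)
    have e0 : (φ 0 t).re = (φ 0 t').re := add_left_cancel (congrArg Prod.snd e)
    have := h.inj t t' (Complex.ext e0 (by rw [h.real, h.real]))
      (Complex.ext e1 (by rw [h.real, h.real]))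
    exact_mod_cast this
  · intro t e
    have d : HasDerivAt (curve (orb c b x) φ) ((deriv (φ 1) t).re, (deriv (φ 0) t).re) t :=
      ((h.diff 1 t).hasDerivAt.real_of_complex.const_add _).prodMk
        ((h.diff 0 t).hasDerivAt.real_of_complex.const_add _)
    rw [d.deriv] at e
    exact h.imm t ⟨Complex.ext (congrArg Prod.snd e) (param_deriv_im (h.diff 0) (h.real 0) t),
      Complex.ext (congrArg Prod.fst e) (param_deriv_im (h.diff 1) (h.real 1) t)⟩
  · simp [curve, h.zero, orb_zero, orb_one]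
  · ext y
    rw [mem_Ws_iff]
    constructor
    · rintro ⟨t, rfl⟩
      obtain ⟨D, θ, h0, h1, hd⟩ := h.decay ‖(t : ℂ)‖
      refine ⟨|D|, θ, h0, h1, fun n => ?_⟩
      have k : ∀ m, |(φ m t).re| ≤ |D| * θ ^ m := fun m =>
        ((Complex.abs_re_le_norm _).trans (hd m t le_rfl)).trans
          (mul_le_mul_of_nonneg_right (le_abs_self D) (by positivity))
      rw [iterate_eq, iterate_eq, param_orb h, param_orb h, Prod.dist_eq, Real.dist_eq,
        Real.dist_eq, add_sub_cancel_left, add_sub_cancel_left]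
      refine max_le ((k _).trans ?_) (k n)
      exact mul_le_mul_of_nonneg_left (pow_le_pow_of_le_one h0 h1.le (Nat.le_succ n))
        (abs_nonneg D)
    · rintro ⟨D, θ, h0, h1, hd⟩
      obtain ⟨ζ, -, hζ⟩ := h.onto (fun _ n => ((orb c b y n - orb c b x n : ℝ) : ℂ)) D θ h0 h1
        (fun _ n => by
          simp only [orb_rec]
          push_cast
          ring)
        (fun _ n => by
          have := hd n
          rw [iterate_eq, iterate_eq, Prod.dist_eq] at this
          rw [Complex.norm_real]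
          exact (le_max_right _ _).trans this)
        (fun _ => continuous_const) (fun _ _ => Complex.ofReal_im _)
      refine ⟨ζ 0, ?_⟩
      simp only [curve, ← hζ 0, Complex.ofReal_re, orb_zero, orb_one]
      ext <;> simp

end Pool.Agent.P.MP_c34bf4_an
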