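import Pool.Agent.P.MP_c34bf4_an.Tan

namespace Pool.Agent.P.MP_c34bf4_an

open MeasureTheory Filter Set Topology

variable {q : ℕ → ℝ} {b r ω c K : ℝ} {s t : ℕ → ℝ} {φ : ℕ → ℂ → ℂ}

theorem staba_lt (hr : 0 < r) (hω : 1 < ω) (hσ : r * ω ^ 6 < 1) {k : ℕ} (hk : k ≤ 6) :
    r * ω ^ k < 1 :=
  lt_of_le_of_lt (mul_le_mul_of_nonneg_left (pow_le_pow_right₀ hω.le hk) hr.le) hσ

theorem staba_exists {σ : ℝ} (h0 : 0 ≤ σ) (h1 : σ < 1) (A : ℝ) {ε : ℝ} (hε : 0 < ε) :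
    ∀ᶠ n : ℕ in atTop, A * σ ^ n < ε := by
  have h2 : Tendsto (fun n : ℕ => A * σ ^ n) atTop (𝓝 (A * 0)) :=
    (tendsto_pow_atTop_nhds_zero_of_lt_one h0 h1).const_mul A
  rw [mul_zero] at h2
  exact h2.eventually (gt_mem_nhds hε)

theorem staba_key (h : Lin q b r s t) (hφ : Tang q b r ω c K s φ) (hω : 1 < ω)
    (hσ : r * ω ^ 6 < 1) (ρ : ℝ) {ε : ℝ} (hε : 0 < ε) :
    ∃ n : ℕ, ∀ ζ : ℂ, ‖ζ‖ ≤ ρ → ‖xi b t (fun k => φ k ζ) n - ζ‖ ≤ ε := by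
  have hr := h.r_pos
  have hω0 : 0 < ω := by linarith
  obtain ⟨C, hC, hx⟩ := h.xi_small hω
  have e1 := staba_exists (σ := r * ω ^ 4) (by positivity)
    (staba_lt hr hω hσ (by norm_num)) ρ hφ.c_pos
  have e2 := staba_exists (σ := r * ω ^ 5) (by positivity)
    (staba_lt hr hω hσ (by norm_num)) (C * (K / c * ρ ^ 2)) hε
  obtain ⟨n, h1, h2⟩ := (e1.and e2).exists
  refine ⟨n, fun ζ hζ => ?_⟩
  have hc := hφ.c_pos
  have hK := hφ.K_nonneg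
  have hζc : ‖ζ‖ * (r * ω ^ 4) ^ n ≤ c :=
    le_trans (mul_le_mul_of_nonneg_right hζ (by positivity)) h1.le
  have hsq : ‖ζ‖ ^ 2 ≤ ρ ^ 2 := pow_le_pow_left₀ (norm_nonneg _) hζ 2
  have hb : ∀ m, n ≤ m →
      ‖φ m ζ - ζ * s m‖ ≤ K / c * ρ ^ 2 * (r * (r * ω ^ 4)) ^ m := fun m hm =>
    le_trans (hφ.est n m ζ hm hζc).2 (by gcongr)
  rw [h.xi_smul]
  exact le_trans (hx _ (K / c * ρ ^ 2) n (hb n le_rfl) (hb (n + 1) (Nat.le_succ n))) h2.le

theorem Tang.stab0 (h : Lin q b r s t) (hφ : Tang q b r ω c K s φ) (hω : 1 < ω)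
    (hσ : r * ω ^ 6 < 1) {τ : ℝ} (hτ : r * ω ^ 4 ≤ τ) : Stab0 q b τ φ := by
  have hr := h.r_pos
  have hω0 : 0 < ω := by linarith
  have hc := hφ.c_pos
  have hK := hφ.K_nonneg
  have hθ0 : 0 < r * ω := by positivity
  refine ⟨hφ.diff, fun n => ?_, hφ.sol, hφ.real, ⟨c, hc, fun n ζ hζ => ?_⟩, fun ρ => ?_,
    fun ζ ζ' h0 h1 => ?_⟩
  · have := (hφ.est 0 n 0 (Nat.zero_le n) (by simpa using hc.le)).1
    simpa using this
  · have h1 : ‖ζ‖ * (r * ω ^ 4) ^ n ≤ c := le_trans (by gcongr) hζ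
    have h2 : r * ω ≤ r * ω ^ 4 :=
      mul_le_mul_of_nonneg_left (by simpa using pow_le_pow_right₀ hω.le (show 1 ≤ 4 by norm_num))
        hr.le
    calc ‖φ n ζ‖ ≤ K * ‖ζ‖ * (r * ω) ^ n := (hφ.est n n ζ le_rfl h1).1
      _ ≤ K * ‖ζ‖ * (r * ω ^ 4) ^ n := by gcongr
      _ = K * (‖ζ‖ * (r * ω ^ 4) ^ n) := by ring
      _ ≤ K * c := by gcongr
      _ ≤ 1 := hφ.Kc
  · obtain ⟨N, hN⟩ := (staba_exists (σ := r * ω ^ 4) (by positivity)
      (staba_lt hr hω hσ (by norm_num)) ρ hc).exists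
    have hB : ∀ n : ℕ, ∃ B : ℝ, 0 ≤ B ∧ ∀ ζ : ℂ, ‖ζ‖ ≤ ρ → ‖φ n ζ‖ ≤ B * (r * ω) ^ n := by
      intro n
      obtain ⟨B, hB⟩ := (isCompact_closedBall (0 : ℂ) ρ).exists_bound_of_continuousOn
        (hφ.diff n).continuous.continuousOn
      refine ⟨max B 0 / (r * ω) ^ n, by positivity, fun ζ hζ => ?_⟩
      rw [div_mul_cancel₀ _ (by positivity)]
      exact le_trans (hB ζ (by simpa using hζ)) (le_max_left _ _)
    choose B hB0 hB using hB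
    refine ⟨K * |ρ| + ∑ n ∈ Finset.range N, B n, r * ω, hθ0.le,
      by simpa using staba_lt hr hω hσ (k := 1) (by norm_num), fun n ζ hζ => ?_⟩
    have hS : 0 ≤ ∑ n ∈ Finset.range N, B n := Finset.sum_nonneg fun i _ => hB0 i
    have hA : 0 ≤ K * |ρ| := by positivity
    rcases lt_or_ge n N with hn | hn
    · have h1 : B n ≤ ∑ n ∈ Finset.range N, B n :=
        Finset.single_le_sum (fun i _ => hB0 i) (Finset.mem_range.2 hn)
      exact le_trans (hB n ζ hζ) (mul_le_mul_of_nonneg_right (by linarith) (by positivity))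
    · have h1 : ‖ζ‖ * (r * ω ^ 4) ^ N ≤ c :=
        le_trans (mul_le_mul_of_nonneg_right hζ (by positivity)) hN.le
      have h2 : K * ‖ζ‖ ≤ K * |ρ| := mul_le_mul_of_nonneg_left (hζ.trans (le_abs_self ρ)) hK
      exact le_trans (hφ.est N n ζ hn h1).1
        (mul_le_mul_of_nonneg_right (by linarith) (by positivity))
  · have hu : (fun n => φ n ζ) = fun n => φ n ζ' :=
      NSol.eq_of_eq h.b_ne (hφ.sol ζ) (hφ.sol ζ') 0 h0 h1
    refine eq_of_norm_sub_le_zero (le_of_forall_pos_le_add fun ε hε => ?_)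
    obtain ⟨n, hn⟩ := staba_key h hφ hω hσ (max ‖ζ‖ ‖ζ'‖) (half_pos hε)
    have a1 := hn ζ (le_max_left _ _)
    have a2 := hn ζ' (le_max_right _ _)
    rw [hu] at a1
    calc ‖ζ - ζ'‖ = ‖(xi b t (fun k => φ k ζ') n - ζ') - (xi b t (fun k => φ k ζ') n - ζ)‖ := by
          congr 1; ring
      _ ≤ _ := norm_sub_le _ _
      _ ≤ 0 + ε := by linarith

theorem Tang.imm (h : Lin q b r s t) (hφ : Tang q b r ω c K s φ) (hω : 1 < ω)
    (hσ : r * ω ^ 6 < 1) (ζ : ℂ) : ¬ (deriv (φ 0) ζ = 0 ∧ deriv (φ 1) ζ = 0) := by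
  rintro ⟨h0, h1⟩
  have hd : ∀ n, HasDerivAt (φ n) 0 ζ ∧ HasDerivAt (φ (n + 1)) 0 ζ := by
    intro n
    induction n with
    | zero => exact ⟨h0 ▸ (hφ.diff 0 ζ).hasDerivAt, h1 ▸ (hφ.diff 1 ζ).hasDerivAt⟩
    | succ n ih =>
      refine ⟨ih.2, ?_⟩
      have e : φ (n + 1 + 1) = fun z => 2 * (q (n + 1) : ℂ) * φ (n + 1) z - (b : ℂ) * φ n z +
          φ (n + 1) z * φ (n + 1) z := funext fun z => by
        have := hφ.sol z n
        simp only at this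
        rw [this]; ring
      rw [e]
      have := ((ih.2.const_mul (2 * (q (n + 1) : ℂ))).sub (ih.1.const_mul (b : ℂ))).add
        (ih.2.mul ih.2)
      exact this.congr_deriv (by simp)
  obtain ⟨n, hn⟩ := staba_key h hφ hω hσ (‖ζ‖ + 1) (ε := 1 / 2) (by norm_num)
  have hF : Differentiable ℂ fun z => xi b t (fun k => φ k z) n - z := by
    have a1 := hφ.diff n
    have a2 := hφ.diff (n + 1)
    unfold xi
    fun_prop
  have hD : HasDerivAt (fun z => xi b t (fun k => φ k z) n - z) (-1) ζ := by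
    have := ((((hd n).2.mul_const (t n : ℂ)).sub ((hd n).1.mul_const (t (n + 1) : ℂ))).div_const
      ((b : ℂ) ^ n)).sub (hasDerivAt_id ζ)
    exact this.congr_deriv (by simp)
  have hc := Complex.norm_deriv_le_of_forall_mem_sphere_norm_le (c := ζ) (R := 1) (C := 1 / 2)
    one_pos hF.diffContOnCl (fun z hz => hn z (by
      have h2 : ‖z - ζ‖ = 1 := by simpa [dist_eq_norm] using hz
      calc ‖z‖ = ‖ζ + (z - ζ)‖ := by congr 1; ring
        _ ≤ ‖ζ‖ + ‖z - ζ‖ := norm_add_le _ _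
        _ = ‖ζ‖ + 1 := by rw [h2]))
  rw [hD.deriv] at hc
  norm_num at hc

end Pool.Agent.P.MP_c34bf4_an
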