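import Pool.Agent.P.MP_c34bf4_an.Volterra

namespace Pool.Agent.P.MP_c34bf4_an

open MeasureTheory Filter Set Topology

variable {q : ℕ → ℝ} {b r : ℝ} {s t : ℕ → ℝ}

theorem tan_term (hb : b ≠ 0) {g : ℂ} {w G C γ l : ℝ} {k : ℕ} (hg : ‖g‖ ≤ G * γ ^ k)
    (hw : |w| ≤ C * l ^ k) : ‖g * (w : ℂ) / (b : ℂ) ^ k‖ ≤ G * C * (γ * l / |b|) ^ k := by
  rw [norm_div, norm_mul, norm_pow, Complex.norm_real, Complex.norm_real, Real.norm_eq_abs,
    Real.norm_eq_abs, div_pow, mul_pow, ← mul_div_assoc]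
  refine div_le_div_of_nonneg_right ?_ (by positivity)
  exact (mul_le_mul hg hw (abs_nonneg _) ((norm_nonneg _).trans hg)).trans_eq (by ring)

theorem tan_xi (hb : b ≠ 0) {u : ℕ → ℂ} {w : ℕ → ℝ} {D C ρ l : ℝ} {n : ℕ}
    (h0 : ‖u n‖ ≤ D * ρ ^ n) (h1 : ‖u (n + 1)‖ ≤ D * ρ ^ (n + 1))
    (hw : ∀ k, |w k| ≤ C * l ^ k) : ‖xi b w u n‖ ≤ C * (ρ + l) * D * (ρ * l / |b|) ^ n := by
  have e1 := tan_term hb (G := D * ρ) (γ := ρ) (k := n) (h1.trans_eq (by ring)) (hw n)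
  have e2 := tan_term hb (C := C * l) (l := l) (k := n) h0 ((hw (n + 1)).trans_eq (by ring))
  rw [xi, sub_div]
  exact (norm_sub_le _ _).trans ((add_le_add e1 e2).trans_eq (by ring))

theorem tan_eta (u : ℕ → ℂ) (n : ℕ) : ‖eta b s u n‖ = ‖xi b s u n‖ := by
  rw [eta, xi, mul_comm (u (n + 1)), mul_comm (u n), norm_div, norm_div, norm_sub_rev]

theorem tan_lt {ω : ℝ} (hr : 0 < r) (hω : 1 < ω) {m n : ℕ} (hmn : m ≤ n) (h : r * ω ^ n < 1) :
    r * ω ^ m < 1 :=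
  (mul_le_mul_of_nonneg_left (pow_le_pow_right₀ hω.le hmn) hr.le).trans_lt h

/-- Solutions decaying at the stable rate are tangent to a multiple of `s`. -/
theorem Lin.tangent (h : Lin q b r s t) {ω : ℝ} (hω : 1 < ω) (hσ : r * ω ^ 4 < 1) (D : ℝ) :
    ∃ D' : ℝ, ∀ u : ℕ → ℂ, NSol q b u → (∀ n, ‖u n‖ ≤ D * (r * ω) ^ n) →
      ∃ ζ : ℂ, ∀ n, ‖xi b t u n - ζ‖ ≤ D' * (r * ω ^ 3) ^ n ∧
        ‖u n - ζ * s n‖ ≤ D' * (r * (r * ω ^ 4)) ^ n := by
  obtain ⟨C, hC, hbd⟩ := h.bd ω hω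
  have hb := h.b_ne
  have hβ : 0 < |b| := abs_pos.2 hb
  have hr := h.r_pos
  have hω0 : 0 < ω := one_pos.trans hω
  have hq : r / |b| ≤ 1 := (div_le_one hβ).2 h.r_le
  have s3 : r * ω ^ 3 < 1 := tan_lt hr hω (by norm_num) hσ
  have s2 : r * ω ^ 2 < 1 := tan_lt hr hω (by norm_num) hσ
  have hτ : (r * ω) ^ 2 * (r * ω) / |b| < 1 := by
    have e : (r * ω) ^ 2 * (r * ω) / |b| = r / |b| * (r * (r * ω ^ 3)) := by ring
    have h1 : r < 1 := h.r_le.trans_lt h.b_lt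
    rw [e]
    exact (mul_le_of_le_one_left (by positivity) hq).trans_lt
      (mul_lt_one_of_nonneg_of_lt_one_left hr.le h1 s3.le)
  have hκ : r * ω * (r * ω) / |b| < 1 := by
    have e : r * ω * (r * ω) / |b| = r / |b| * (r * ω ^ 2) := by ring
    rw [e]
    exact (mul_le_of_le_one_left (by positivity) hq).trans_lt s2
  have e1 : (r * ω) ^ 2 * (|b| * ω / r) / |b| = r * ω ^ 3 := by field_simp
  obtain ⟨τ, hτe⟩ : ∃ τ, τ = (r * ω) ^ 2 * (r * ω) / |b| := ⟨_, rfl⟩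
  have e2 : τ * (|b| * ω / r) = r * (r * ω ^ 4) := by rw [hτe]; field_simp
  have e3 : r * ω ^ 3 * (r * ω) = r * (r * ω ^ 4) := by ring
  have hτ0 : 0 ≤ τ := by rw [hτe]; positivity
  rw [← hτe] at hτ
  have hA : 0 ≤ D ^ 2 * C * (r * ω ^ 3) / (1 - r * ω ^ 3) :=
    div_nonneg (by positivity) (by linarith)
  have hB : 0 ≤ D ^ 2 * C * τ / (1 - τ) := div_nonneg (by positivity) (by linarith)
  refine ⟨(D ^ 2 * C * (r * ω ^ 3) / (1 - r * ω ^ 3) + D ^ 2 * C * τ / (1 - τ)) * C,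
    fun u hu hD => ?_⟩
  have hsq : ∀ k, ‖u k ^ 2‖ ≤ D ^ 2 * ((r * ω) ^ 2) ^ k := fun k => by
    rw [norm_pow]
    exact (pow_le_pow_left₀ (norm_nonneg _) (hD k) 2).trans_eq (by ring)
  have d1 : ∀ k, dist (xi b t u k) (xi b t u (k + 1)) ≤
      D ^ 2 * C * (r * ω ^ 3) * (r * ω ^ 3) ^ k := fun k => by
    rw [dist_comm, dist_eq_norm, h.xi_succ hu.isol, add_sub_cancel_left]
    refine (tan_term hb (hsq _) (hbd _).2).trans_eq ?_
    rw [e1]
    ring
  have d2 : ∀ k, dist (eta b s u k) (eta b s u (k + 1)) ≤ D ^ 2 * C * τ * τ ^ k := fun k => by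
    rw [dist_eq_norm, h.eta_succ hu.isol, sub_sub_cancel]
    refine (tan_term hb (hsq _) (hbd _).1).trans_eq ?_
    rw [← hτe]
    ring
  obtain ⟨ζ, hζ⟩ := cauchySeq_tendsto_of_complete (cauchySeq_of_le_geometric _ _ s3 d1)
  have l2 : Tendsto (eta b s u) atTop (𝓝 0) := by
    refine squeeze_zero_norm (fun n => (tan_eta u n).trans_le
      (tan_xi hb (hD n) (hD (n + 1)) fun k => (hbd k).1)) ?_
    simpa using (tendsto_pow_atTop_nhds_zero_of_lt_one (by positivity) hκ).const_mul _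
  refine ⟨ζ, fun n => ?_⟩
  have b1 := dist_le_of_le_geometric_of_tendsto _ _ s3 d1 hζ n
  have b2 := dist_le_of_le_geometric_of_tendsto _ _ hτ d2 l2 n
  rw [dist_eq_norm, mul_div_right_comm] at b1
  rw [dist_zero_right, mul_div_right_comm] at b2
  generalize D ^ 2 * C * (r * ω ^ 3) / (1 - r * ω ^ 3) = A at *
  generalize D ^ 2 * C * τ / (1 - τ) = B at *
  refine ⟨b1.trans (mul_le_mul_of_nonneg_right (by nlinarith) (by positivity)), ?_⟩
  have e4 : u n - ζ * s n = (xi b t u n - ζ) * s n + eta b s u n * t n := by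
    rw [sub_mul, sub_add_eq_add_sub, ← h.decomp]
  rw [e4]
  refine (norm_add_le _ _).trans ?_
  rw [norm_mul, norm_mul, Complex.norm_real, Complex.norm_real, Real.norm_eq_abs, Real.norm_eq_abs]
  refine (add_le_add (mul_le_mul b1 (hbd n).1 (abs_nonneg _) (by positivity))
    (mul_le_mul b2 (hbd n).2 (abs_nonneg _) (by positivity))).trans_eq ?_
  rw [mul_mul_mul_comm, mul_mul_mul_comm B, ← mul_pow, ← mul_pow, e2, e3]
  ring

/-- Two solutions that are too close coincide. -/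
theorem Lin.unique (h : Lin q b r s t) {ω : ℝ} (hω : 1 < ω) (hσ : r * ω ^ 6 < 1) {D : ℝ}
    {u u' : ℕ → ℂ} (hu : NSol q b u) (hu' : NSol q b u')
    (h1 : ∀ᶠ n in atTop, ‖u n‖ ≤ D * (r * ω) ^ n ∧ ‖u' n‖ ≤ D * (r * ω) ^ n ∧
      ‖u n - u' n‖ ≤ D * (r * (r * ω ^ 4)) ^ n) : u = u' := by
  obtain ⟨C, hC, hbd⟩ := h.bd ω hω
  have hb := h.b_ne
  have hr := h.r_pos
  have hω0 : 0 < ω := one_pos.trans hω
  have s3 : r * ω ^ 3 < 1 := tan_lt hr hω (by norm_num) hσ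
  have l1 : Tendsto (fun n : ℕ => 4 * C ^ 2 * D * ((r * ω ^ 3) ^ n / (1 - r * ω ^ 3))) atTop
      (𝓝 0) := by
    simpa using ((tendsto_pow_atTop_nhds_zero_of_lt_one (by positivity) s3).div_const _).const_mul _
  obtain ⟨N, hN⟩ := eventually_atTop.1 (h1.and (l1.eventually (gt_mem_nhds one_half_pos)))
  have hD : 0 ≤ D := nonneg_of_mul_nonneg_left ((norm_nonneg _).trans (hN N le_rfl).1.1)
    (by positivity)
  have hI : ISol q b (fun k => (u k + u' k) * (u k - u' k)) fun k => u k - u' k := fun n => by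
    simp only [hu n, hu' n]
    ring
  have key : ∀ M n, N ≤ n → n ≤ M → ‖u n - u' n‖ / r ^ n ≤
      2 * (2 * C ^ 2 * D * (|b| * (ω ^ 2 / r) + r * (r * ω ^ 4)) * (r * ω ^ 6) ^ M) := fun M => by
    refine gronwall_back (y := fun n => ‖u n - u' n‖ / r ^ n)
      (κ := fun k => 4 * C ^ 2 * D * (r * ω ^ 3) ^ k) (fun k => by positivity) ?_ (by positivity)
      fun n hn hM => ?_
    · rw [← Finset.mul_sum]
      exact (mul_le_mul_of_nonneg_left (sum_Ioc_pow_le (by positivity) s3 _ _)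
        (by positivity)).trans (hN N le_rfl).2.le
    · have e := h.volterra hI hM
      rw [h.lin_term] at e
      have e6 : (r * ω ^ 6) ^ M = (r * (r * ω ^ 4)) ^ M * (ω ^ 2 / r) ^ M := by
        rw [← mul_pow]
        congr 1
        field_simp
      rw [div_le_iff₀ (by positivity), e, add_mul, Finset.sum_mul]
      refine (norm_add_le _ _).trans (add_le_add ((norm_sub_le _ _).trans ?_)
        ((norm_sum_le _ _).trans (Finset.sum_le_sum fun k hk => ?_)))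
      · simp only [norm_mul, Complex.norm_real, Real.norm_eq_abs]
        refine (add_le_add (mul_le_mul (mul_le_mul_of_nonneg_left (hN M (hn.trans hM)).1.2.2
          (abs_nonneg b)) (h.gr_bound hω hC hbd (hM.trans M.le_succ)) (abs_nonneg _)
          (by positivity)) (mul_le_mul (hN (M + 1) ((hn.trans hM).trans M.le_succ)).1.2.2
          (h.gr_bound hω hC hbd hM) (abs_nonneg _) (by positivity))).trans_eq ?_
        rw [e6, Nat.succ_eq_add_one]
        ring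
      · have hk' := (Finset.mem_Ioc.1 hk).1.le
        have a1 := (norm_add_le _ _).trans
          (add_le_add (hN k (hn.trans hk')).1.1 (hN k (hn.trans hk')).1.2.1)
        have e3 : (r * ω ^ 3) ^ k / r ^ k = (ω ^ 2 / r) ^ k * (r * ω) ^ k := by
          rw [← mul_pow, ← div_pow]
          congr 1
          field_simp
        simp only [norm_mul, Complex.norm_real, Real.norm_eq_abs]
        refine (mul_le_mul (h.gr_bound hω hC hbd hk') (mul_le_mul_of_nonneg_right a1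
          (norm_nonneg _)) (by positivity) (by positivity)).trans_eq ?_
        rw [mul_assoc (4 * C ^ 2 * D), ← mul_div_assoc, mul_div_right_comm, e3]
        ring
  have l2 : Tendsto (fun M : ℕ => 2 * (2 * C ^ 2 * D * (|b| * (ω ^ 2 / r) + r * (r * ω ^ 4)) *
      (r * ω ^ 6) ^ M)) atTop (𝓝 0) := by
    simpa using ((tendsto_pow_atTop_nhds_zero_of_lt_one (by positivity) hσ).const_mul _).const_mul 2
  have z : ∀ n, N ≤ n → u n = u' n := fun n hn => by
    have := ge_of_tendsto l2 ((eventually_ge_atTop n).mono fun M hM => key M n hn hM)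
    rw [div_le_iff₀ (by positivity), zero_mul] at this
    exact sub_eq_zero.1 (norm_le_zero_iff.1 this)
  exact NSol.eq_of_eq hb hu hu' N (z N le_rfl) (z _ N.le_succ)

/-- The coefficient along `s` of a sequence decaying fast tends to zero geometrically. -/
theorem Lin.xi_small (h : Lin q b r s t) {ω : ℝ} (hω : 1 < ω) :
    ∃ C : ℝ, 0 ≤ C ∧ ∀ (u : ℕ → ℂ) (D : ℝ) (n : ℕ), ‖u n‖ ≤ D * (r * (r * ω ^ 4)) ^ n →
      ‖u (n + 1)‖ ≤ D * (r * (r * ω ^ 4)) ^ (n + 1) →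
      ‖xi b t u n‖ ≤ C * D * (r * ω ^ 5) ^ n := by
  obtain ⟨C, hC, hbd⟩ := h.bd ω hω
  have hβ : 0 < |b| := abs_pos.2 h.b_ne
  have hr := h.r_pos
  have hω0 : 0 < ω := one_pos.trans hω
  refine ⟨C * (r * (r * ω ^ 4) + |b| * ω / r), by positivity, fun u D n h0 h1 => ?_⟩
  refine (tan_xi h.b_ne h0 h1 fun k => (hbd k).2).trans_eq ?_
  congr 2
  field_simp

end Pool.Agent.P.MP_c34bf4_an
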