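import Pool.Agent.P.MP_c34bf4_an.Boot
import Pool.Agent.P.MP_c34bf4_an.Tan

namespace Pool.Agent.P.MP_c34bf4_an

open MeasureTheory Filter Set Topology

variable {q : ℕ → ℝ} {b r ω c K : ℝ} {s t : ℕ → ℝ} {φ : ℕ → ℂ → ℂ}

theorem stabb_xi_im {u : ℕ → ℂ} (hre : ∀ n, (u n).im = 0) (n : ℕ) : (xi b t u n).im = 0 := by
  have e : ∀ n, u n = ((u n).re : ℂ) := fun n => Complex.ext (by simp) (by simp [hre n])
  rw [xi, e (n + 1), e n]
  norm_cast

theorem Tang.onto (h : Lin q b r s t) (hφ : Tang q b r ω c K s φ) (hω : 1 < ω)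
    (hσ : r * ω ^ 6 < 1) (u : unitInterval → ℕ → ℂ) (D θ : ℝ) (hθ0 : 0 ≤ θ) (hθ : θ < 1)
    (hu : ∀ x, NSol q b (u x)) (hD : ∀ x n, ‖u x n‖ ≤ D * θ ^ n)
    (hc : ∀ n, Continuous fun x => u x n) (hre : ∀ x n, (u x n).im = 0) :
    ∃ ζ : unitInterval → ℝ, Continuous ζ ∧ ∀ x n, u x n = φ n (ζ x) := by
  have hr := h.r_pos
  have hlt : ∀ k, k ≤ 6 → r * ω ^ k < 1 := fun k hk =>
    (mul_le_mul_of_nonneg_left (pow_le_pow_right₀ hω.le hk) hr.le).trans_lt hσ
  have hpos : ∀ k, 0 < r * ω ^ k := fun k => by positivity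
  obtain ⟨D1, hD1⟩ := h.boot hθ0 hθ (P := r * ω) (lt_mul_of_one_lt_right hr hω) D
  obtain ⟨D2, hD2⟩ := h.tangent hω (hlt 4 (by norm_num)) D1
  choose ζ hζ using fun x => hD2 (u x) (hu x) (hD1 (u x) (hu x) (hD x))
  have hgeo : Tendsto (fun n : ℕ => D2 * (r * ω ^ 3) ^ n) atTop (𝓝 0) := by
    simpa using (tendsto_pow_atTop_nhds_zero_of_lt_one (hpos 3).le
      (hlt 3 (by norm_num))).const_mul D2
  have hunif : TendstoUniformly (fun n x => xi b t (u x) n) ζ atTop := by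
    refine Metric.tendstoUniformly_iff.2 fun ε hε => ?_
    filter_upwards [hgeo.eventually (gt_mem_nhds hε)] with n hn x
    rw [dist_comm, dist_eq_norm]
    exact (hζ x n).1.trans_lt hn
  have hcont : Continuous ζ := by
    refine hunif.continuous (Frequently.of_forall fun n => ?_)
    unfold xi
    exact (((hc (n + 1)).mul continuous_const).sub ((hc n).mul continuous_const)).div_const _
  have him : ∀ x, (ζ x).im = 0 := fun x => by
    have h1 := (Complex.continuous_im.tendsto _).comp (hunif.tendsto_at x)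
    have h2 : (Complex.im ∘ fun n => xi b t (u x) n) = fun _ => 0 :=
      funext fun n => stabb_xi_im (hre x) n
    rw [h2] at h1
    exact tendsto_nhds_unique h1 tendsto_const_nhds
  refine ⟨fun x => (ζ x).re, Complex.continuous_re.comp hcont, fun x n => ?_⟩
  have e : (((ζ x).re : ℝ) : ℂ) = ζ x := Complex.ext (by simp) (by simp [him x])
  rw [e]
  have hN : ∀ᶠ N : ℕ in atTop, ‖ζ x‖ * (r * ω ^ 4) ^ N ≤ c := by
    have : Tendsto (fun N : ℕ => ‖ζ x‖ * (r * ω ^ 4) ^ N) atTop (𝓝 0) := by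
      simpa using (tendsto_pow_atTop_nhds_zero_of_lt_one (hpos 4).le
        (hlt 4 (by norm_num))).const_mul ‖ζ x‖
    exact (this.eventually (gt_mem_nhds hφ.c_pos)).mono fun N hN => hN.le
  have key := h.unique hω hσ (D := max (max D1 (K * ‖ζ x‖)) (D2 + K / c * ‖ζ x‖ ^ 2)) (hu x)
    (hφ.sol (ζ x)) (by
      filter_upwards [hN] with N hN
      obtain ⟨e1, e2⟩ := hφ.est N N (ζ x) le_rfl hN
      have p1 : 0 ≤ (r * ω) ^ N := by positivity
      have p2 : 0 ≤ (r * (r * ω ^ 4)) ^ N := by positivity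
      refine ⟨(hD1 (u x) (hu x) (hD x) N).trans (mul_le_mul_of_nonneg_right
        ((le_max_left _ _).trans (le_max_left _ _)) p1),
        e1.trans (mul_le_mul_of_nonneg_right ((le_max_right _ _).trans (le_max_left _ _)) p1), ?_⟩
      calc ‖u x N - φ N (ζ x)‖ = ‖(u x N - ζ x * s N) - (φ N (ζ x) - ζ x * s N)‖ := by
            congr 1; ring
        _ ≤ D2 * (r * (r * ω ^ 4)) ^ N + K / c * ‖ζ x‖ ^ 2 * (r * (r * ω ^ 4)) ^ N :=
            (norm_sub_le _ _).trans (add_le_add (hζ x N).2 e2)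
        _ = (D2 + K / c * ‖ζ x‖ ^ 2) * (r * (r * ω ^ 4)) ^ N := by ring
        _ ≤ _ := mul_le_mul_of_nonneg_right (le_max_right _ _) p2)
  exact congrFun key n

end Pool.Agent.P.MP_c34bf4_an
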