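import Pool.Agent.P.MP_c34bf4_an.Limit
import Pool.Agent.P.MP_c34bf4_an.StabA
import Pool.Agent.P.MP_c34bf4_an.StabB

namespace Pool.Agent.P.MP_c34bf4_an

open MeasureTheory Filter Set Topology

variable {q : ℕ → ℝ} {b r : ℝ} {s t : ℕ → ℝ}

/-- Existence of the entire parametrisation of the stable manifold. -/
theorem Lin.exists_stab (h : Lin q b r s t) {τ : ℝ} (hτ : r < τ) (hτ1 : τ < 1) :
    ∃ φ : ℕ → ℂ → ℂ, Stab q b τ φ := by
  have hc : ContinuousAt (fun ω : ℝ => r * ω ^ 6) 1 := by fun_prop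
  have h1 : ∀ᶠ ω : ℝ in 𝓝 1, r * ω ^ 6 < τ := hc.eventually_lt continuousAt_const (by simpa)
  obtain ⟨ω, hω, hω1⟩ := ((h1.filter_mono (nhdsWithin_le_nhds (s := Ioi 1))).and
    self_mem_nhdsWithin).exists
  have hω1 : 1 < ω := hω1
  have h46 : r * ω ^ 4 ≤ r * ω ^ 6 :=
    mul_le_mul_of_nonneg_left (pow_le_pow_right₀ hω1.le (by norm_num)) h.r_pos.le
  obtain ⟨φ, c, K, hφ⟩ := h.exists_tangent hω1 (by linarith)
  exact ⟨φ, { toStab0 := hφ.stab0 h hω1 (by linarith) (by linarith)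
              imm := hφ.imm h hω1 (by linarith)
              onto := fun u D θ a1 a2 a3 a4 a5 a6 =>
                hφ.onto h hω1 (by linarith) u D θ a1 a2 a3 a4 a5 a6 }⟩

end Pool.Agent.P.MP_c34bf4_an
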