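import Mathlib

namespace Pool.Agent.P.MP_c34bf4_an

open MeasureTheory Filter Set Topology

section lift

variable {X : Type*} [MetricSpace X] {γ p : ℝ → X} {τ : ℝ → ℝ}

theorem topo_tendsto (hγ : Continuous γ) (hinj : Function.Injective γ) (hp : Continuous p)
    (hτ : ∀ s, γ (τ s) = p s) {l : Filter ℝ} {a M : ℝ} (hl : l ≤ 𝓝 a)
    (hM : ∀ᶠ s in l, |τ s| ≤ M) : Tendsto τ l (𝓝 (τ a)) := by
  refine (isCompact_Icc (a := -M) (b := M)).tendsto_nhds_of_unique_mapClusterPt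
    (hM.mono fun s hs => abs_le.1 hs) fun w _ hw => hinj ?_
  have h1 : MapClusterPt (γ w) l (γ ∘ τ) := hw.continuousAt_comp hγ.continuousAt
  have h2 : γ ∘ τ = p := funext hτ
  rw [h2] at h1
  have h3 : Tendsto p l (𝓝 (p a)) := (hp.tendsto a).mono_left hl
  rw [hτ]
  exact eq_of_nhds_neBot (ClusterPt.mono h1 h3)

theorem topo_land (hγ : Continuous γ) (hinj : Function.Injective γ) (hp : Continuous p)
    (hτ : ∀ s, γ (τ s) = p s) {a s v : ℝ} (has : a < s) (hc : ContinuousOn τ (Ioc a s))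
    (hv : ∀ s' ∈ Ioc a s, v ≤ τ s') (ha : τ a < v) : Tendsto γ atTop (𝓝 (p a)) := by
  have hIoc : ∀ᶠ s' in 𝓝[>] a, s' ∈ Ioc a s := Ioc_mem_nhdsGT has
  have hT : Tendsto τ (𝓝[>] a) atTop := by
    rw [tendsto_atTop]
    intro M
    by_contra hno
    have hfr : ∃ᶠ s' in 𝓝[>] a, τ s' < M :=
      (not_eventually.1 hno).mono fun _ h => not_le.1 h
    have hne : (𝓝[>] a ⊓ 𝓟 {s' | τ s' < M}).NeBot := frequently_iff_neBot.1 hfr
    have h1 : ∀ᶠ s' in 𝓝[>] a ⊓ 𝓟 {s' | τ s' < M}, v ≤ τ s' ∧ τ s' < M :=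
      ((hIoc.mono hv).filter_mono inf_le_left).and
        (mem_inf_of_right (mem_principal_self {s' | τ s' < M}))
    have h2 := topo_tendsto hγ hinj hp hτ (l := 𝓝[>] a ⊓ 𝓟 {s' | τ s' < M}) (a := a)
      (M := |v| + |M|) (inf_le_left.trans nhdsWithin_le_nhds) (h1.mono fun s' hs' => by
        rw [abs_le]
        constructor
        · linarith [neg_abs_le v, abs_nonneg M, hs'.1]
        · linarith [le_abs_self M, abs_nonneg v, hs'.2])
    exact absurd (ge_of_tendsto h2 (h1.mono fun _ h => h.1)) (not_le.2 ha)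
  intro V hV
  rw [mem_map]
  have h1 : ∀ᶠ s' in 𝓝[>] a, p s' ∈ V :=
    ((hp.tendsto a).mono_left nhdsWithin_le_nhds).eventually hV
  obtain ⟨a', ha', hsub⟩ := mem_nhdsGT_iff_exists_Ioc_subset.1 (h1.and hIoc)
  filter_upwards [eventually_ge_atTop (τ a')] with t ht
  obtain ⟨s2, hs2, hs2'⟩ := ((hT.eventually (eventually_ge_atTop t)).and
    (Ioc_mem_nhdsGT ha')).exists
  have hsub2 : Icc s2 a' ⊆ Ioc a a' := fun x hx => ⟨hs2'.1.trans_le hx.1, hx.2⟩
  obtain ⟨s3, hs3, h3⟩ := intermediate_value_Icc' hs2'.2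
    (hc.mono fun x hx => (hsub (hsub2 hx)).2) ⟨ht, hs2⟩
  show γ t ∈ V
  rw [← h3, hτ]
  exact (hsub (hsub2 hs3)).1

theorem topo_side (hγ : Continuous γ) (hinj : Function.Injective γ) (hp : Continuous p)
    (hτ : ∀ s, γ (τ s) = p s)
    (htop : ∀ s, ¬ Tendsto γ atTop (𝓝 (p s))) (hbot : ∀ s, ¬ Tendsto γ atBot (𝓝 (p s)))
    {a s v : ℝ} (has : a < s) (hc : ContinuousOn τ (Ioc a s))
    (hv : ∀ s' ∈ Ioc a s, τ s' ≠ v ∧ τ s' ≠ -v) (ha : |τ a| < v) : |τ s| < v := by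
  have hs : s ∈ Ioc a s := ⟨has, le_rfl⟩
  rw [abs_lt] at ha ⊢
  constructor
  · by_contra hno
    have hall : ∀ s' ∈ Ioc a s, v ≤ -τ s' := by
      intro s' hs'
      by_contra h
      obtain ⟨x, hx, hxe⟩ := isPreconnected_Ioc.intermediate_value hs hs' hc
        (show -v ∈ Icc (τ s) (τ s') from ⟨by linarith, by linarith⟩)
      exact (hv x hx).2 hxe
    have := topo_land (γ := fun t => γ (-t)) (τ := fun s => -τ s) (hγ.comp continuous_neg)
      (hinj.comp neg_injective) hp (fun s => by simpa using hτ s) has hc.neg hall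
      (by linarith)
    refine hbot a ?_
    have h2 := this.comp tendsto_neg_atBot_atTop
    simpa [Function.comp_def] using h2
  · by_contra hno
    have hall : ∀ s' ∈ Ioc a s, v ≤ τ s' := by
      intro s' hs'
      by_contra h
      obtain ⟨x, hx, hxe⟩ := isPreconnected_Ioc.intermediate_value hs' hs hc
        (show v ∈ Icc (τ s') (τ s) from ⟨by linarith, by linarith⟩)
      exact (hv x hx).1 hxe
    exact htop a (topo_land hγ hinj hp hτ has hc hall ha.2)

theorem topo_right (hγ : Continuous γ) (hinj : Function.Injective γ) (hp : Continuous p)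
    (hτ : ∀ s, γ (τ s) = p s)
    (htop : ∀ s, ¬ Tendsto γ atTop (𝓝 (p s))) (hbot : ∀ s, ¬ Tendsto γ atBot (𝓝 (p s)))
    {Z : Set ℝ} (hZ : IsClosed Z) (hc : ∀ s, s ∉ Z → ContinuousAt τ s) {z s v : ℝ} (hz : z ∈ Z)
    (hzs : z ≤ s) (h1 : ∀ s' ∈ Icc z s, s' ∈ Z → |τ s'| < v)
    (h2 : ∀ s' ∈ Icc z s, τ s' ≠ v ∧ τ s' ≠ -v) : |τ s| < v := by
  by_cases hs : s ∈ Z
  · exact h1 s ⟨hzs, le_rfl⟩ hs
  have hK : IsCompact (Icc z s ∩ Z) := isCompact_Icc.inter_right hZ
  obtain ⟨a, ha, hmax⟩ := hK.exists_isGreatest ⟨z, ⟨le_rfl, hzs⟩, hz⟩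
  have has : a < s := lt_of_le_of_ne ha.1.2 fun h => hs (h ▸ ha.2)
  refine topo_side hγ hinj hp hτ htop hbot has (fun x hx => (hc x fun hxZ => ?_).continuousWithinAt)
    (fun x hx => h2 x ⟨ha.1.1.trans hx.1.le, hx.2⟩) (h1 a ha.1 ha.2)
  exact absurd (hmax ⟨⟨ha.1.1.trans hx.1.le, hx.2⟩, hxZ⟩) (not_le.2 hx.1)

end lift

/-- Lifting a path through an injective curve whose ends do not land. -/
theorem continuous_lift {X : Type*} [MetricSpace X] {γ p : ℝ → X} {τ : ℝ → ℝ}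
    (hγ : Continuous γ) (hinj : Function.Injective γ) (hp : Continuous p)
    (hτ : ∀ s, γ (τ s) = p s)
    (htop : ∀ s, ¬ Tendsto γ atTop (𝓝 (p s))) (hbot : ∀ s, ¬ Tendsto γ atBot (𝓝 (p s))) :
    Continuous τ := by
  set U : Set ℝ := {s | ∃ M : ℝ, ∀ᶠ s' in 𝓝 s, |τ s'| ≤ M} with hU
  have hUo : IsOpen U := by
    rw [isOpen_iff_mem_nhds]
    rintro s ⟨M, hM⟩
    exact hM.eventually_nhds.mono fun s' h => ⟨M, h⟩
  have hUc : ∀ s, s ∉ Uᶜ → ContinuousAt τ s := by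
    intro s hs
    obtain ⟨M, hM⟩ := not_not.1 hs
    exact topo_tendsto hγ hinj hp hτ le_rfl hM
  have hZ : IsClosed Uᶜ := hUo.isClosed_compl
  rw [continuous_iff_continuousAt]
  intro s0
  refine hUc s0 fun hs0 => ?_
  haveI : CompleteSpace (Uᶜ : Set ℝ) := hZ.completeSpace_coe
  haveI : Nonempty (Uᶜ : Set ℝ) := ⟨⟨s0, hs0⟩⟩
  have hcl : ∀ n : ℕ, IsClosed {z : (Uᶜ : Set ℝ) | |τ z| ≤ n} := by
    intro n
    have h1 : IsClosed (γ '' Icc (-(n : ℝ)) n) := (isCompact_Icc.image hγ).isClosed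
    have h2 := h1.preimage (hp.comp (continuous_subtype_val (p := fun x => x ∈ Uᶜ)))
    convert h2 using 1
    ext z
    simp only [mem_ofPred_eq, mem_preimage, Function.comp_apply, ← hτ, hinj.mem_set_image,
      mem_Icc, abs_le]
  obtain ⟨n, z, hz⟩ := nonempty_interior_of_iUnion_of_closed hcl (by
    ext z
    simpa using exists_nat_ge |τ z|)
  have hzn : |τ z| ≤ n := (interior_subset hz :)
  have e1 : ∀ᶠ s in 𝓝 (z : ℝ), s ∈ Uᶜ → |τ s| < n + 1 := by
    have := mem_interior_iff_mem_nhds.1 hz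
    rw [nhds_subtype_eq_comap, mem_comap] at this
    obtain ⟨V, hV, hsub⟩ := this
    filter_upwards [hV] with s hs hsZ
    have : |τ s| ≤ n := hsub (a := ⟨s, hsZ⟩) hs
    linarith
  have e2 : ∀ w : ℝ, |w| = n + 1 → ∀ᶠ s in 𝓝 (z : ℝ), τ s ≠ w := by
    intro w hw
    have : p z ≠ γ w := by
      rw [← hτ]
      intro h
      rw [hinj h] at hzn
      linarith
    filter_upwards [hp.continuousAt.eventually_ne this] with s hs h
    exact hs (by rw [← hτ, h])
  have hn1 : (0 : ℝ) ≤ n + 1 := by positivity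
  obtain ⟨ε, hε, hball⟩ := Metric.eventually_nhds_iff.1 (e1.and ((e2 (n + 1)
    (abs_of_nonneg hn1)).and (e2 (-(n + 1)) (by rw [abs_neg, abs_of_nonneg hn1]))))
  refine z.2 ⟨n + 1, Metric.eventually_nhds_iff.2 ⟨ε, hε, fun s hs => le_of_lt ?_⟩⟩
  rw [Real.dist_eq, abs_lt] at hs
  rcases le_total (z : ℝ) s with h | h
  · have hd : ∀ s' ∈ Icc (z : ℝ) s, dist s' z < ε := fun s' hs' => by
      rw [Real.dist_eq, abs_lt]
      constructor <;> linarith [hs'.1, hs'.2]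
    exact topo_right hγ hinj hp hτ htop hbot hZ hUc z.2 h (fun s' hs' => (hball (hd s' hs')).1)
      fun s' hs' => (hball (hd s' hs')).2
  · have hd : ∀ s' ∈ Icc (-(z : ℝ)) (-s), dist (-s') z < ε := fun s' hs' => by
      rw [Real.dist_eq, abs_lt]
      constructor <;> linarith [hs'.1, hs'.2]
    have := topo_right (p := fun s => p (-s)) (τ := fun s => τ (-s)) (Z := Neg.neg ⁻¹' Uᶜ)
      hγ hinj (hp.comp continuous_neg) (fun s => hτ (-s)) (fun s => htop (-s))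
      (fun s => hbot (-s)) (hZ.preimage continuous_neg)
      (fun s hs => (hUc (-s) hs).comp continuous_neg.continuousAt) (z := -z) (s := -s)
      (by rw [mem_preimage, neg_neg]; exact z.2) (by linarith) (fun s' hs' => (hball (hd s' hs')).1)
      fun s' hs' => (hball (hd s' hs')).2
    simpa using this

theorem topo_bounded_of_tendsto {X : Type*} [MetricSpace X] {γ : ℝ → X} (hγ : Continuous γ)
    {y : X} (h : Tendsto γ atTop (𝓝 y)) : Bornology.IsBounded (γ '' Ioi 0) := by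
  obtain ⟨T, hT⟩ := eventually_atTop.1 (h.eventually (Metric.ball_mem_nhds y one_pos))
  refine (((isCompact_Icc (a := 0) (b := T)).image hγ).isBounded.union
    (Metric.isBounded_ball (x := y) (r := 1))).subset ?_
  rintro _ ⟨t, ht, rfl⟩
  rcases le_total t T with h | h
  · exact Or.inl ⟨t, ⟨le_of_lt ht, h⟩, rfl⟩
  · exact Or.inr (hT t h)

/-- Unboundedness of both halves does not depend on the parametrisation. -/
theorem unbounded_of_range_eq {X : Type*} [MetricSpace X] {γ φ : ℝ → X}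
    (hγ : Continuous γ) (hγi : Function.Injective γ) (hφ : Continuous φ)
    (hφi : Function.Injective φ) (hr : range γ = range φ) (h0 : γ 0 = φ 0)
    (h1 : ¬ Bornology.IsBounded (γ '' Ioi 0)) (h2 : ¬ Bornology.IsBounded (γ '' Iio 0)) :
    ¬ Bornology.IsBounded (φ '' Ioi 0) ∧ ¬ Bornology.IsBounded (φ '' Iio 0) := by
  have hex : ∀ s, ∃ t, γ t = φ s := fun s => by
    have : φ s ∈ range γ := hr ▸ mem_range_self s
    exact this
  choose τ hτ using hex
  have hτc : Continuous τ := by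
    refine continuous_lift hγ hγi hφ hτ (fun s h => h1 (topo_bounded_of_tendsto hγ h))
      fun s h => h2 ?_
    have := topo_bounded_of_tendsto (γ := fun t => γ (-t)) (hγ.comp continuous_neg)
      (h.comp tendsto_neg_atTop_atBot)
    refine this.subset ?_
    rintro _ ⟨t, ht, rfl⟩
    exact ⟨-t, by simpa using ht, by simp⟩
  have hτi : Function.Injective τ := fun a b h => hφi (by rw [← hτ, ← hτ, h])
  have hτ0 : τ 0 = 0 := hγi (by rw [hτ, h0])
  have hτs : ∀ t, ∃ s, τ s = t := fun t => by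
    obtain ⟨s, hs⟩ : γ t ∈ range φ := hr ▸ mem_range_self t
    exact ⟨s, hγi (by rw [hτ, hs])⟩
  have key : ∀ A B : Set ℝ, (∀ s, τ s ∈ A → s ∈ B) → ¬ Bornology.IsBounded (γ '' A) →
      ¬ Bornology.IsBounded (φ '' B) := by
    intro A B hAB hA hB
    refine hA (hB.subset ?_)
    rintro _ ⟨t, ht, rfl⟩
    obtain ⟨s, rfl⟩ := hτs t
    exact ⟨s, hAB s ht, (hτ s).symm⟩
  rcases hτc.strictMono_of_inj hτi with hm | hm
  · exact ⟨key _ _ (fun s hs => hm.lt_iff_lt.1 (by rw [hτ0]; exact hs)) h1,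
      key _ _ (fun s hs => hm.lt_iff_lt.1 (by rw [hτ0]; exact hs)) h2⟩
  · exact ⟨key _ _ (fun s hs => hm.lt_iff_gt.1 (by rw [hτ0]; exact hs)) h2,
      key _ _ (fun s hs => hm.lt_iff_gt.1 (by rw [hτ0]; exact hs)) h1⟩

end Pool.Agent.P.MP_c34bf4_an
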