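import Pool.Agent.P.MP_c34bf4_an.RegAE
import Pool.Agent.P.MP_c34bf4_an.LinT
import Pool.Agent.P.MP_c34bf4_an.StabEx
import Pool.Agent.P.MP_c34bf4_an.Curve
import Pool.Agent.P.MP_c34bf4_an.EClosed
import Pool.Agent.P.MP_c34bf4_an.Topo
import Pool.Agent.P.MP_c34bf4_an.Param
import Pool.Agent.P.MP_c34bf4_an.Back

namespace Pool.Agent.P.MP_c34bf4_an

open MeasureTheory Filter Set Topology

/-- Almost every point of a non-sink ergodic measure has an entire stable parametrisation. -/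
theorem ae_stab {C0 c b τ : ℝ} (hc : |c| ≤ C0) (hb0 : b ≠ 0) (hτ : |b| < τ) (hτ1 : τ < 1)
    {μ : Measure (ℝ × ℝ)} [IsProbabilityMeasure μ] (hμ : Ergodic (henon c b) μ)
    (hns : ¬ OnSink (henon c b) μ) :
    ∀ᵐ x ∂μ, (∀ n, |orb c b x n| ≤ 3 + C0) ∧ ∃ φ, Stab (orb c b x) b τ φ := by
  have hb : |b| < 1 := hτ.trans hτ1
  filter_upwards [ae_orb_le hc hb.le hμ.toMeasurePreserving, ae_reg hb0 hb.le hμ hns] with x h1 h2
  obtain ⟨r, s, t, hl⟩ := h2.exists_lin hb h1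
  exact ⟨h1, hl.exists_stab (hl.r_le.trans_lt hτ) hτ1⟩

theorem box_null {C0 c b : ℝ} (hc : |c| ≤ C0) (hb : |b| ≤ 1) {μ : Measure (ℝ × ℝ)}
    [IsProbabilityMeasure μ] (hμ : MeasurePreserving (henon c b) μ μ) :
    μ (Metric.closedBall 0 (3 + C0))ᶜ = 0 := by
  have : ∀ᵐ x ∂μ, x ∈ Metric.closedBall (0 : ℝ × ℝ) (3 + C0) := by
    filter_upwards [ae_orb_le hc hb hμ] with x hx
    rw [mem_closedBall_zero_iff, Prod.norm_def]
    exact max_le (hx 1) (hx 0)
  exact this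

/-- Uniform lower bound for the mass of the set of arcs, for a measure violating mildness. -/
theorem mass_of_not_mild (C0 b0 τ : ℝ) (hC0 : 0 ≤ C0) (hb0 : 0 < b0) (hτ : 0 < τ)
    (hτ1 : τ < 1) :
    ∃ L δ κ θ : ℝ, 0 < δ ∧ 0 ≤ κ ∧ κ < 1 ∧ 0 < θ ∧ ∀ (c b : ℝ) (μ : Measure (ℝ × ℝ)),
      |c| ≤ C0 → b0 ≤ |b| → |b| < τ → IsProbabilityMeasure μ → Ergodic (henon c b) μ →
      ¬ OnSink (henon c b) μ → (¬ ∀ᵐ x ∂μ, BothUnbounded (Ws (henon c b) x) x) →
      θ ≤ μ.real {x | ECurve (4 + C0) L δ κ univ c b x} := by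
  obtain ⟨L, δ, κ, θ, hδ, hκ0, hκ, hθ, H⟩ := curve_density C0 b0 τ hC0 hb0 hτ hτ1
  refine ⟨L, δ, κ, θ, hδ, hκ0, hκ, hθ, fun c b μ hc hb hbτ _ hμ hns hbad => ?_⟩
  have hbne : b ≠ 0 := abs_pos.1 (hb0.trans_le hb)
  set E : ℕ → Set (ℝ × ℝ) := fun j => {x | ECurve (4 + C0) L δ κ (Ici (-(j : ℤ))) c b x} with hE
  have hEm : ∀ j, MeasurableSet (E j) := fun j =>
    ((isClosed_eCurve (4 + C0) L δ κ (Ici (-(j : ℤ)))).preimage
      (f := fun x : ℝ × ℝ => ((c, b), x)) (by fun_prop)).measurableSet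
  have hj : ∀ j, θ ≤ μ.real (E j) := by
    intro j
    refine le_measure_of_density hμ (hEm j) fun hae => hbad ?_
    filter_upwards [hae, ae_stab hc hbne hbτ hτ1 hμ hns] with x hx ⟨h1, φ, hφ⟩
    refine ⟨curve (orb c b x) φ, hφ.isParam, ?_⟩
    by_contra hcon
    rw [not_and_or, not_not, not_not] at hcon
    obtain ⟨C, hC⟩ := H c b (orb c b x) φ hc hb (hbτ.trans hτ1).le h1 (orb_rec c b x)
      hφ.toStab0 hcon j
    refine hx ⟨C, fun N => ?_⟩
    convert hC N using 4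
    rw [iterate_eq]
    rfl
  have hanti : Antitone E := fun i j hij x hx =>
    ECurve.mono (Ici_subset_Ici.2 (by omega)) hx
  have hlim := tendsto_measure_iInter_atTop (μ := μ) (fun j => (hEm j).nullMeasurableSet) hanti
    ⟨0, measure_ne_top _ _⟩
  have hlim' := (ENNReal.tendsto_toReal (measure_ne_top μ _)).comp hlim
  refine (ge_of_tendsto' hlim' hj).trans (measureReal_mono fun x hx => ?_)
  exact eCurve_univ (mem_iInter.1 hx)

/-- A non-sink ergodic measure charging the set of arcs violates mildness. -/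
theorem not_mild_of_mass {c b R L δ κ : ℝ} (hb0 : b ≠ 0) (hb : |b| < 1) (hδ : 0 < δ)
    (hκ0 : 0 ≤ κ) (hκ : κ < 1) {μ : Measure (ℝ × ℝ)} [IsProbabilityMeasure μ]
    (hμ : Ergodic (henon c b) μ) (hns : ¬ OnSink (henon c b) μ)
    (hE : μ {x | ECurve R L δ κ univ c b x} ≠ 0) :
    ¬ ∀ᵐ x ∂μ, BothUnbounded (Ws (henon c b) x) x := by
  intro hae
  apply hE
  have hEm : MeasurableSet {x | ECurve R L δ κ univ c b x} :=
    ((isClosed_eCurve R L δ κ univ).preimage
      (f := fun x : ℝ × ℝ => ((c, b), x)) (by fun_prop)).measurableSet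
  have hrec := hμ.toMeasurePreserving.conservative.ae_mem_imp_frequently_image_mem
    hEm.nullMeasurableSet
  have : ∀ᵐ x ∂μ, x ∉ {x | ECurve R L δ κ univ c b x} := by
    filter_upwards [hae, hrec, ae_stab (τ := (1 + |b|) / 2) (le_refl |c|) hb0 (by linarith)
      (by linarith) hμ hns] with x ⟨γ, hγ, h1, h2⟩ h3 ⟨_, φ, hφ⟩ hx
    have hp := hφ.isParam
    have := unbounded_of_range_eq hγ.1.continuous hγ.2.1 hp.1.continuous hp.2.1
      (hγ.2.2.2.2.trans hp.2.2.2.2.symm) (hγ.2.2.2.1.trans hp.2.2.2.1.symm) h1 h2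
    rcases hφ.bounded_of_frequently hb0 hδ hκ0 hκ (h3 hx) with h | h
    · exact this.1 h
    · exact this.2 h
  simpa [ae_iff] using this

theorem isOpen_mildSet : IsOpen MildSet := by
  rw [isOpen_iff_mem_nhds]
  rintro ⟨c0, b0⟩ ⟨hb0, hb1, -, hmild⟩
  simp only at hb0 hb1 hmild
  by_contra hcon
  set C0 := |c0| + 1 with hC0
  set τ := (1 + |b0|) / 2 with hτ
  have hnear : ∀ᶠ w : ℝ × ℝ in 𝓝 (c0, b0), |w.1| ≤ C0 ∧ |b0| / 2 ≤ |w.2| ∧ |w.2| < τ := by
    have c1 : ContinuousAt (fun w : ℝ × ℝ => |w.1|) (c0, b0) := by fun_prop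
    have c2 : ContinuousAt (fun w : ℝ × ℝ => |w.2|) (c0, b0) := by fun_prop
    refine ((c1.eventually_lt continuousAt_const (g := fun _ => C0) (by simp [hC0])).mono
      fun _ h => h.le).and (((continuousAt_const.eventually_lt c2 (f := fun _ => |b0| / 2)
      (by show |b0| / 2 < |b0|; linarith)).mono fun _ h => h.le).and
      (c2.eventually_lt continuousAt_const (g := fun _ => τ) (by simp [hτ]; linarith)))
  have hfreq : ∃ᶠ w : ℝ × ℝ in 𝓝 (c0, b0), w ∉ MildSet := by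
    simpa [Filter.Frequently, Filter.Eventually] using hcon
  obtain ⟨p, hp, hpl⟩ := exists_seq_forall_of_frequently (hfreq.and_eventually hnear)
  have hτ1 : τ < 1 := by rw [hτ]; linarith
  obtain ⟨L, δ, κ, θ, hδ, hκ0, hκ, hθ, H⟩ := mass_of_not_mild C0 (|b0| / 2) τ
    (by positivity) (by positivity) (by positivity) hτ1
  have hex : ∀ n, ∃ ν : Measure (ℝ × ℝ), IsProbabilityMeasure ν ∧
      Ergodic (henon (p n).1 (p n).2) ν ∧ ¬ OnSink (henon (p n).1 (p n).2) ν ∧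
      ¬ ∀ᵐ x ∂ν, BothUnbounded (Ws (henon (p n).1 (p n).2) x) x := by
    intro n
    obtain ⟨h1, h2, h3, h4⟩ := hpl n
    by_contra hno
    push Not at hno
    exact h1 ⟨by linarith, by linarith, by linarith, hno⟩
  choose ν hνp hνe hνs hνb using hex
  obtain ⟨ν0, hν0p, hν0i, hν0Z, hν0E, hν0U⟩ := exists_limit_measure
    (F := fun w : ℝ × ℝ => henon w.1 w.2) continuous_henon_param hp
    (fun n => (hνe n).toMeasurePreserving) (isCompact_closedBall (0 : ℝ × ℝ) (3 + C0))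
    (fun n => box_null (hpl n).2.1 ((hpl n).2.2.2.trans hτ1).le (hνe n).toMeasurePreserving)
    (isClosed_eCurve (4 + C0) L δ κ univ) (θ := θ)
    (fun n => H _ _ _ (hpl n).2.1 (hpl n).2.2.1 (hpl n).2.2.2 (hνp n) (hνe n) (hνs n) (hνb n))
  have hsupp : ∀ y, IsSinkPoint (henon c0 b0) y → y ∉ ν0.support := by
    intro y hy
    obtain ⟨r, hr, hev⟩ := sink_persist hy
    refine Measure.notMem_support_iff_exists.2 ⟨Metric.ball y r, Metric.ball_mem_nhds y hr, ?_⟩
    refine hν0U _ Metric.isOpen_ball ?_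
    filter_upwards [hp.eventually hev] with n hn
    exact hn _ (hνp n) (hνe n) (hνs n)
  have hZ : IsCompact (Metric.closedBall (0 : ℝ × ℝ) (3 + C0) ∩ ν0.support) :=
    (isCompact_closedBall _ _).inter_right Measure.isClosed_support
  have hEc : IsClosed {x | ECurve (4 + C0) L δ κ univ c0 b0 x} :=
    (isClosed_eCurve (4 + C0) L δ κ univ).preimage
      (f := fun x : ℝ × ℝ => ((c0, b0), x)) (by fun_prop)
  obtain ⟨μ, hμp, hμe, hμZ, hμE⟩ := exists_ergodic_pos (continuous_henon c0 b0) hZ hEc hν0i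
    (by rw [compl_inter]; exact measure_union_null hν0Z Measure.measure_compl_support)
    (by
      intro h0
      have : ν0.real {x | ECurve (4 + C0) L δ κ univ c0 b0 x} = 0 := by
        simp [Measure.real, h0]
      have h2 : θ ≤ ν0.real {x | ECurve (4 + C0) L δ κ univ c0 b0 x} := hν0E
      linarith)
  have hns : ¬ OnSink (henon c0 b0) μ := not_onSink_of_null hμe.toMeasurePreserving
    fun y hy => measure_mono_null (by
      rintro _ rfl h
      exact hsupp _ hy h.2) hμZ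
  exact not_mild_of_mass (abs_pos.1 hb0) hb1 hδ hκ0 hκ hμe hns hμE (hmild μ hμp hμe hns)

end Pool.Agent.P.MP_c34bf4_an
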