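import Pool.Agent.P.MP_c34bf4_an.Basic
import Pool.Agent.P.MP_c34bf4_an.Charpoly

namespace Pool.Agent.P.MP_c34bf4_an

open MeasureTheory Filter Set Topology

theorem sinkc_lip {c b : ℝ} {j : ℕ} {y : ℝ × ℝ} {r : ℝ}
    (hD : ∀ z ∈ Metric.closedBall y r, ‖dIt c b j z‖ ≤ 1 / 4) {u v : ℝ × ℝ}
    (hu : u ∈ Metric.closedBall y r) (hv : v ∈ Metric.closedBall y r) :
    dist ((henon c b)^[j] u) ((henon c b)^[j] v) ≤ 1 / 4 * dist u v := by
  rw [dist_eq_norm, dist_eq_norm]
  exact Convex.norm_image_sub_le_of_norm_hasFDerivWithin_le (𝕜 := ℝ) (f' := dIt c b j)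
    (fun z _ => (hasFDerivAt_iterate c b j z).hasFDerivWithinAt) hD (convex_closedBall y r) hv hu

theorem sinkc_fixed {G : ℝ × ℝ → ℝ × ℝ} (hG : Continuous G) {B : Set (ℝ × ℝ)} (hm : MapsTo G B B)
    (hl : ∀ u ∈ B, ∀ v ∈ B, dist (G u) (G v) ≤ 1 / 4 * dist u v) {z : ℝ × ℝ} (hz : z ∈ B)
    (hr : ∀ s ∈ 𝓝 z, ∃ᶠ n in atTop, G^[n] z ∈ s) : G z = z := by
  by_contra hne
  have hd : 0 < dist (G z) z := dist_pos.2 hne
  have key : ∀ m : ℕ, dist (G (G^[m + 1] z)) (G^[m + 1] z) ≤ 1 / 4 * dist (G z) z := by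
    intro m
    induction m with
    | zero => exact hl _ (hm hz) _ hz
    | succ m ih =>
      have hB : G^[m + 1] z ∈ B := hm.iterate _ hz
      have h1 := hl _ (hm hB) _ hB
      rw [Function.iterate_succ_apply' G (m + 1)]
      have h2 : 0 ≤ dist (G (G^[m + 1] z)) (G^[m + 1] z) := dist_nonneg
      linarith
  have hU : {w | dist (G z) z / 2 < dist (G w) w} ∈ 𝓝 z :=
    (isOpen_lt continuous_const (hG.dist continuous_id)).mem_nhds (by simpa using hd)
  obtain ⟨n, hn, hn1⟩ := ((hr _ hU).and_eventually (eventually_ge_atTop 1)).exists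
  obtain ⟨m, rfl⟩ : ∃ m, n = m + 1 := ⟨n - 1, by omega⟩
  have h3 := key m
  simp only [mem_ofPred_eq] at hn
  linarith

/-- A contracting ball of positive measure forces an ergodic measure onto a sink. -/
theorem onSink_of_ball {c b : ℝ} {μ : Measure (ℝ × ℝ)} [IsProbabilityMeasure μ]
    (hμ : Ergodic (henon c b) μ) {j : ℕ} (hj : 0 < j) {y : ℝ × ℝ} {r : ℝ}
    (hmaps : MapsTo (henon c b)^[j] (Metric.closedBall y r) (Metric.closedBall y r))
    (hD : ∀ z ∈ Metric.closedBall y r, ‖dIt c b j z‖ ≤ 1 / 4)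
    (hpos : μ (Metric.closedBall y r) ≠ 0) : OnSink (henon c b) μ := by
  have hG : Continuous (henon c b)^[j] := (continuous_henon c b).iterate j
  have hrec := (hμ.toMeasurePreserving.conservative.iterate j).ae_frequently_mem_of_mem_nhds
  have hfix : ∀ᵐ z ∂μ, z ∈ Metric.closedBall y r → (henon c b)^[j] z = z := by
    filter_upwards [hrec] with z hz hzB
    exact sinkc_fixed hG hmaps (fun u hu v hv => sinkc_lip hD hu hv) hzB hz
  obtain ⟨p, hpB, hp⟩ := Measure.exists_mem_of_measure_ne_zero_of_ae hpos (ae_restrict_of_ae hfix)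
  have hp := hp hpB
  have hsub : Metric.closedBall y r ≤ᵐ[μ] ({p} : Set (ℝ × ℝ)) := by
    filter_upwards [hfix] with z hz hzB
    have h1 := sinkc_lip hD hzB hpB
    rw [hz hzB, hp] at h1
    have h2 : dist z p = 0 := by linarith [dist_nonneg (x := z) (y := p)]
    exact dist_eq_zero.1 h2
  have hp0 : μ {p} ≠ 0 := fun h => hpos (le_antisymm ((measure_mono_ae hsub).trans h.le) zero_le)
  refine ⟨p, ⟨j, hj, hp, fun z hz => ?_⟩, ?_⟩
  · rw [fderiv_iterate] at hz
    exact roots_lt_one_of_norm_le _ (hD p hpB) z hz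
  · have hO : MeasurableSet (range fun n : ℕ => (henon c b)^[n] p) := (countable_range _).measurableSet
    have hin : (range fun n : ℕ => (henon c b)^[n] p) ⊆
        henon c b ⁻¹' range fun n : ℕ => (henon c b)^[n] p := by
      rintro _ ⟨n, rfl⟩
      exact ⟨n + 1, Function.iterate_succ_apply' _ _ _⟩
    rcases hμ.ae_empty_or_univ_of_ae_le_preimage hO.nullMeasurableSet hin.eventuallyLE with h | h
    · exfalso
      apply hp0
      rw [ae_eq_empty] at h
      exact measure_mono_null (singleton_subset_iff.2 (mem_range_self (f := fun n : ℕ =>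
        (henon c b)^[n] p) 0)) h
    · exact ae_eq_univ.1 h

theorem sinkc_dIt_mul {c b : ℝ} {k : ℕ} {p : ℝ × ℝ} (hp : (henon c b)^[k] p = p) (n : ℕ) :
    dIt c b (k * n) p = dIt c b k p ^ n := by
  induction n with
  | zero => rfl
  | succ n ih =>
    rw [Nat.mul_succ, dIt_add, hp, ih, pow_succ]
    rfl

/-- Sinks persist: nearby maps have no other ergodic measure near a sink. -/
theorem sink_persist {c0 b0 : ℝ} {p : ℝ × ℝ} (hp : IsSinkPoint (henon c0 b0) p) :
    ∃ r : ℝ, 0 < r ∧ ∀ᶠ w : ℝ × ℝ in 𝓝 (c0, b0), ∀ μ : Measure (ℝ × ℝ),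
      IsProbabilityMeasure μ → Ergodic (henon w.1 w.2) μ → ¬ OnSink (henon w.1 w.2) μ →
      μ (Metric.ball p r) = 0 := by
  obtain ⟨k, hk, hpk, hroots⟩ := hp
  rw [fderiv_iterate] at hroots
  obtain ⟨n, hn, hnorm⟩ := exists_pow_norm_le _ hroots
  rw [← sinkc_dIt_mul hpk] at hnorm
  have hj : 0 < k * n := Nat.mul_pos hk hn
  have hpj : (henon c0 b0)^[k * n] p = p := by
    rw [Function.iterate_mul]
    exact Function.iterate_fixed hpk n
  have h1 : ∀ᶠ w : (ℝ × ℝ) × (ℝ × ℝ) in 𝓝 ((c0, b0), p), ‖dIt w.1.1 w.1.2 (k * n) w.2‖ < 1 / 4 :=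
    (continuous_dIt_param (k * n)).norm.continuousAt.eventually_lt continuousAt_const
      (hnorm.trans_lt (by norm_num))
  rw [nhds_prod_eq, eventually_prod_iff] at h1
  obtain ⟨pa, hpa, pb, hpb, h1⟩ := h1
  obtain ⟨r, hr, hrb⟩ := Metric.nhds_basis_closedBall.mem_iff.1 hpb
  have h2 : ∀ᶠ w : ℝ × ℝ in 𝓝 (c0, b0), dist ((henon w.1 w.2)^[k * n] p) p < r / 2 := by
    have hc : Continuous fun w : ℝ × ℝ => dist ((henon w.1 w.2)^[k * n] p) p :=
      ((continuous_iterate_param (k * n)).comp (f := fun w : ℝ × ℝ => (w, p))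
        (by fun_prop)).dist continuous_const
    refine hc.continuousAt.eventually_lt continuousAt_const ?_
    simp only [hpj, dist_self]
    positivity
  refine ⟨r, hr, ?_⟩
  filter_upwards [hpa, h2] with w hw hw2 μ hμ herg hns
  by_contra hne
  apply hns
  have hD : ∀ z ∈ Metric.closedBall p r, ‖dIt w.1 w.2 (k * n) z‖ ≤ 1 / 4 := fun z hz =>
    (h1 hw (hrb hz)).le
  refine onSink_of_ball herg hj (y := p) (r := r) (fun z hz => ?_) hD
    fun h => hne (measure_mono_null Metric.ball_subset_closedBall h)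
  have h3 := sinkc_lip hD hz (Metric.mem_closedBall_self hr.le)
  have h4 := dist_triangle ((henon w.1 w.2)^[k * n] z) ((henon w.1 w.2)^[k * n] p) p
  rw [Metric.mem_closedBall] at hz ⊢
  linarith

/-- An invariant measure giving no mass to any sink point is not supported on a sink. -/
theorem not_onSink_of_null {f : ℝ × ℝ → ℝ × ℝ} {μ : Measure (ℝ × ℝ)} [IsProbabilityMeasure μ]
    (hμ : MeasurePreserving f μ μ) (h : ∀ p, IsSinkPoint f p → μ {p} = 0) : ¬ OnSink f μ := by
  rintro ⟨p, hp, hO⟩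
  have h0 := h p hp
  obtain ⟨k, hk, hpk, -⟩ := hp
  have h1 : ∀ n : ℕ, μ {f^[n] p} = 0 := by
    intro n
    have h2 : μ (f^[(k - 1) * n] ⁻¹' {p}) = 0 := by
      rw [(hμ.iterate _).measure_preimage (measurableSet_singleton p).nullMeasurableSet, h0]
    refine measure_mono_null ?_ h2
    rintro _ rfl
    show f^[(k - 1) * n] (f^[n] p) = p
    rw [← Function.iterate_add_apply]
    have e : (k - 1) * n + n = k * n := by
      obtain ⟨k', rfl⟩ : ∃ k', k = k' + 1 := ⟨k - 1, by omega⟩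
      simp [Nat.succ_mul]
    rw [e, Function.iterate_mul]
    exact Function.iterate_fixed hpk n
  have h3 : μ (range fun n : ℕ => f^[n] p) = 0 := by
    rw [range_eq_iUnion]
    exact measure_iUnion_null h1
  have h4 := measure_union_null h3 hO
  rw [union_compl_self] at h4
  simp at h4

end Pool.Agent.P.MP_c34bf4_an
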