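import Pool.Agent.P.MP_c34bf4_an.ErgMax
import Pool.Agent.P.MP_c34bf4_an.SinkC
import Pool.Agent.P.MP_c34bf4_an.Filt

namespace Pool.Agent.P.MP_c34bf4_an

open MeasureTheory Filter Set Topology

theorem nonsink_lip {c b : ℝ} {j : ℕ} {y : ℝ × ℝ} {r : ℝ}
    (hD : ∀ z ∈ Metric.closedBall y r, ‖dIt c b j z‖ ≤ 1) {u v : ℝ × ℝ}
    (hu : u ∈ Metric.closedBall y r) (hv : v ∈ Metric.closedBall y r) :
    dist ((henon c b)^[j] u) ((henon c b)^[j] v) ≤ 1 * dist u v := by
  rw [dist_eq_norm, dist_eq_norm]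
  exact Convex.norm_image_sub_le_of_norm_hasFDerivWithin_le (𝕜 := ℝ) (f' := dIt c b j)
    (fun z _ => (hasFDerivAt_iterate c b j z).hasFDerivWithinAt) hD (convex_closedBall y r) hv hu

theorem nonsink_ind {c b a r : ℝ} (hb0 : b ≠ 0) (ha : 0 < a) (hr : 0 ≤ r) {N : ℕ} {y : ℝ × ℝ}
    (hP : ∀ k, birkhoffSum (henon c b)^[N] (fun x => Real.log ‖dIt c b N x‖ + a) k y ≤ 0)
    (hU : ∀ n : ℕ, ∀ z, dist z ((henon c b)^[n] y) ≤ r →
      Real.log ‖dIt c b N z‖ ≤ Real.log ‖dIt c b N ((henon c b)^[n] y)‖ + a / 2) (k : ℕ) :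
    ∀ z ∈ Metric.closedBall y r, ‖dIt c b (N * k) z‖ ≤ Real.exp
      (birkhoffSum (henon c b)^[N] (fun x => Real.log ‖dIt c b N x‖ + a) k y - a * k / 2) := by
  induction k with
  | zero =>
    intro z _
    simp only [Nat.mul_zero, birkhoffSum_zero, Nat.cast_zero, mul_zero, zero_div, sub_zero,
      Real.exp_zero]
    exact ContinuousLinearMap.norm_id_le
  | succ k ih =>
    intro z hz
    have h1 : ∀ w ∈ Metric.closedBall y r, ‖dIt c b (N * k) w‖ ≤ 1 := by
      intro w hw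
      refine (ih w hw).trans (Real.exp_le_one_iff.2 ?_)
      have := hP k
      have : 0 ≤ a * k / 2 := by positivity
      linarith
    have h2 := nonsink_lip h1 hz (Metric.mem_closedBall_self hr)
    have h3 := hU (N * k) _ (h2.trans (by rw [one_mul]; exact hz))
    have h4 : ‖dIt c b N ((henon c b)^[N * k] z)‖ ≤
        Real.exp (Real.log ‖dIt c b N ((henon c b)^[N * k] y)‖ + a / 2) := by
      rw [← Real.exp_log (norm_pos_iff.2 (dIt_ne_zero c hb0 N ((henon c b)^[N * k] z)))]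
      exact Real.exp_le_exp.2 h3
    rw [Nat.mul_succ, add_comm (N * k) N, dIt_add, birkhoffSum_succ, ← Function.iterate_mul]
    refine (ContinuousLinearMap.opNorm_comp_le _ _).trans ?_
    refine (mul_le_mul h4 (ih z hz) (norm_nonneg _) (Real.exp_pos _).le).trans ?_
    rw [← Real.exp_add]
    refine Real.exp_le_exp.2 (le_of_eq ?_)
    push_cast
    ring

/-- Away from sinks the top exponent is non-negative. -/
theorem integral_log_norm_nonneg {c b : ℝ} (hb0 : b ≠ 0) (hb : |b| ≤ 1) {μ : Measure (ℝ × ℝ)}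
    [IsProbabilityMeasure μ] (hμ : Ergodic (henon c b) μ) (hns : ¬ OnSink (henon c b) μ)
    {N : ℕ} (hN : 0 < N) : 0 ≤ ∫ x, Real.log ‖dIt c b N x‖ ∂μ := by
  by_contra hneg
  rw [not_le] at hneg
  have hm := hμ.toMeasurePreserving
  have hψ : Continuous fun x => Real.log ‖dIt c b N x‖ :=
    (continuous_dIt c b N).norm.log fun x => norm_ne_zero_iff.2 (dIt_ne_zero c hb0 N x)
  have hbox : ∀ᵐ x ∂μ, ∀ n, (henon c b)^[n] x ∈ Metric.closedBall (0 : ℝ × ℝ) (3 + |c|) := by
    filter_upwards [ae_orb_le (le_refl |c|) hb hm] with x hx n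
    rw [mem_closedBall_zero_iff, iterate_eq, Prod.norm_def]
    exact max_le (hx _) (hx _)
  obtain ⟨M, hM⟩ := (isCompact_closedBall (0 : ℝ × ℝ) (3 + |c|)).exists_bound_of_continuousOn
    hψ.continuousOn
  have hi : Integrable (fun x => Real.log ‖dIt c b N x‖) μ := by
    refine Integrable.of_bound hψ.aestronglyMeasurable M ?_
    filter_upwards [hbox] with x hx
    exact hM x (hx 0)
  obtain ⟨a, ha, hI⟩ : ∃ a : ℝ, 0 < a ∧ ∫ x, Real.log ‖dIt c b N x‖ ∂μ + a < 0 :=
    ⟨-(∫ x, Real.log ‖dIt c b N x‖ ∂μ) / 2, by linarith, by linarith⟩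
  have hP := maximal_ergodic (hm.iterate N) (g := fun x => Real.log ‖dIt c b N x‖ + a)
    (hψ.measurable.add_const a) (hi.add (integrable_const a)) (by
      rw [integral_add hi (integrable_const a)]
      simpa using hI)
  have hrec := (hm.conservative.iterate N).ae_frequently_mem_of_mem_nhds
  obtain ⟨y, hyP, hyB, hyR, hyS⟩ := Measure.exists_mem_of_measure_ne_zero_of_ae hP
    (ae_restrict_of_ae (hbox.and (hrec.and μ.support_mem_ae)))
  obtain ⟨δ, hδ, hU⟩ := Metric.uniformContinuousOn_iff.1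
    ((isCompact_closedBall (0 : ℝ × ℝ) (3 + |c| + 1)).uniformContinuousOn_of_continuous
      hψ.continuousOn) (a / 2) (by positivity)
  have hr : 0 < min (δ / 2) 1 := by positivity
  have hr1 : min (δ / 2) 1 ≤ δ / 2 := min_le_left _ _
  have hr2 : min (δ / 2) 1 ≤ 1 := min_le_right _ _
  generalize min (δ / 2) 1 = r at hr hr1 hr2
  have hU' : ∀ n : ℕ, ∀ z, dist z ((henon c b)^[n] y) ≤ r →
      Real.log ‖dIt c b N z‖ ≤ Real.log ‖dIt c b N ((henon c b)^[n] y)‖ + a / 2 := by
    intro n z hz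
    have h1 := Metric.mem_closedBall.1 (hyB n)
    have h2 := hU z (by
        rw [Metric.mem_closedBall]
        linarith [dist_triangle z ((henon c b)^[n] y) 0])
      ((henon c b)^[n] y) (by rw [Metric.mem_closedBall]; linarith) (by linarith)
    rw [Real.dist_eq] at h2
    linarith [(abs_lt.1 h2).2]
  obtain ⟨K, hK⟩ := exists_nat_ge (6 / a)
  obtain ⟨k, hk1, hk2⟩ := ((hyR _ (Metric.closedBall_mem_nhds y (half_pos hr))).and_eventually
    (eventually_ge_atTop (K + 1))).exists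
  rw [← Function.iterate_mul] at hk1
  have hD : ∀ z ∈ Metric.closedBall y r, ‖dIt c b (N * k) z‖ ≤ 1 / 4 := by
    intro z hz
    refine (nonsink_ind hb0 ha hr.le hyP hU' k z hz).trans ?_
    have h1 : (K : ℝ) ≤ k := by exact_mod_cast (by omega : K ≤ k)
    have h2 : 6 ≤ a * k := by
      rw [div_le_iff₀ ha] at hK
      nlinarith
    have h3 := hyP k
    have h4 : Real.exp (-3) ≤ 1 / 4 := by
      rw [Real.exp_neg, one_div]
      exact inv_anti₀ (by norm_num) (by linarith [Real.add_one_le_exp (3:ℝ)])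
    exact (Real.exp_le_exp.2 (by linarith)).trans h4
  refine hns (onSink_of_ball hμ (Nat.mul_pos hN (by omega)) (fun z hz => ?_) hD ?_)
  · have h1 := sinkc_lip hD hz (Metric.mem_closedBall_self hr.le)
    rw [Metric.mem_closedBall] at hz hk1 ⊢
    linarith [dist_triangle ((henon c b)^[N * k] z) ((henon c b)^[N * k] y) y]
  · exact (Measure.mem_support_iff_forall y).1 hyS _ (Metric.closedBall_mem_nhds y hr) |>.ne'

end Pool.Agent.P.MP_c34bf4_an
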