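import Pool.Agent.P.MP_c34bf4_an.Filt

namespace Pool.Agent.P.MP_c34bf4_an

open MeasureTheory Filter Set Topology

/-- The radius up to which the `n`-th coordinate function stays in the box. -/
theorem Stab0.exists_radius {C0 b0 τ c b : ℝ} (hb0 : 0 < b0) (hτ : 0 < τ) (hc : |c| ≤ C0)
    (hb : b0 ≤ |b|) (hb1 : |b| ≤ 1) {q : ℕ → ℝ} (hq : ∀ n, |q n| ≤ 3 + C0)
    (hrec : ∀ n, q (n + 2) = q (n + 1) ^ 2 + c - b * q n) {φ : ℕ → ℂ → ℂ}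
    (h : Stab0 q b τ φ) :
    ∃ (Rad : ℕ → ℝ) (c1 : ℝ), 0 < c1 ∧ (∀ n, c1 ≤ Rad n * τ ^ n) ∧
      (∀ n (ζ : ℂ), ‖ζ‖ < Rad n → ‖(q n : ℂ) + φ n ζ‖ ≤ 4 + C0) ∧
      (∀ n (ρ : ℝ), Rad n < ρ → ∃ ζ : ℂ, ‖ζ‖ < ρ ∧ 4 + C0 < ‖(q n : ℂ) + φ n ζ‖) ∧
      ∀ n, Rad (n + 1) ≤ (((4 + C0) + (4 + C0) ^ 2 + C0) / b0 + (3 + C0)) * Rad n := by
  have h0 : 0 ≤ C0 := (abs_nonneg c).trans hc
  have hbne : b ≠ 0 := by
    intro e
    rw [e, abs_zero] at hb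
    linarith
  have hqn : ∀ n, ‖(q n : ℂ)‖ ≤ 3 + C0 := fun n => by
    rw [Complex.norm_real, Real.norm_eq_abs]; exact hq n
  have hΦ : ∀ (ζ : ℂ) (n : ℕ), (q (n + 2) : ℂ) + φ (n + 2) ζ =
      ((q (n + 1) : ℂ) + φ (n + 1) ζ) ^ 2 + c - b * ((q n : ℂ) + φ n ζ) := by
    intro ζ n
    have e1 : φ (n + 2) ζ = _ := h.sol ζ n
    rw [e1, hrec n]
    push_cast
    ring
  have hM : ∀ ζ : ℂ, ∃ M : ℝ, ∃ᶠ n in atTop, ‖(q n : ℂ) + φ n ζ‖ ≤ M := by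
    intro ζ
    obtain ⟨D, θ, t0, t1, hD⟩ := h.decay ‖ζ‖
    refine ⟨3 + C0 + |D|, Frequently.of_forall fun n => ?_⟩
    have e1 := hD n ζ le_rfl
    have e2 : D * θ ^ n ≤ |D| :=
      (mul_le_mul_of_nonneg_right (le_abs_self D) (pow_nonneg t0 n)).trans
        (mul_le_of_le_one_right (abs_nonneg D) (pow_le_one₀ t0 t1.le))
    have e3 := norm_add_le (q n : ℂ) (φ n ζ)
    linarith [hqn n]
  have hstep : ∀ (ζ : ℂ) (n : ℕ), ‖(q n : ℂ) + φ n ζ‖ ≤ 4 + C0 →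
      ‖(q (n + 1) : ℂ) + φ (n + 1) ζ‖ ≤ 4 + C0 := by
    intro ζ n hn
    refine (filt_succ hc hb1 (Φ := fun n => (q n : ℂ) + φ n ζ) (hΦ ζ) (hM ζ) n).trans ?_
    exact max_le (by linarith) (by linarith)
  have hsub : ∀ (ζ : ℂ) (n : ℕ) (A : ℝ), ‖(q n : ℂ) + φ n ζ‖ ≤ A → ‖φ n ζ‖ ≤ A + (3 + C0) := by
    intro ζ n A hA
    have e1 : φ n ζ = ((q n : ℂ) + φ n ζ) - (q n : ℂ) := by ring
    have e2 := norm_sub_le ((q n : ℂ) + φ n ζ) (q n : ℂ)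
    rw [← e1] at e2
    linarith [hqn n]
  have hone : ∀ (ζ : ℂ) (n : ℕ), ‖φ n ζ‖ ≤ 1 → ‖(q n : ℂ) + φ n ζ‖ ≤ 4 + C0 := by
    intro ζ n h1
    have e3 := norm_add_le (q n : ℂ) (φ n ζ)
    linarith [hqn n]
  set S : ℕ → Set ℝ := fun n => {ρ | ∀ ζ : ℂ, ‖ζ‖ < ρ → ‖(q n : ℂ) + φ n ζ‖ ≤ 4 + C0} with hS
  have hne : ∀ n, (S n).Nonempty := fun n =>
    ⟨0, fun ζ hζ => absurd hζ (not_lt.2 (norm_nonneg ζ))⟩
  have hbdd : ∀ n, BddAbove (S n) := by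
    intro n
    by_contra hc'
    have hall : ∀ ζ : ℂ, ‖(q n : ℂ) + φ n ζ‖ ≤ 4 + C0 := by
      intro ζ
      obtain ⟨ρ, hρ, hρ'⟩ := not_bddAbove_iff.1 hc' ‖ζ‖
      exact hρ ζ hρ'
    have hL : ∀ m, (∀ ζ : ℂ, ‖(q m : ℂ) + φ m ζ‖ ≤ 4 + C0) → φ m 1 = φ m 0 := by
      intro m hm
      refine (h.diff m).apply_eq_apply_of_bounded ?_ 1 0
      refine isBounded_iff_forall_norm_le.2 ⟨4 + C0 + (3 + C0), ?_⟩
      rintro _ ⟨ζ, rfl⟩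
      exact hsub ζ m _ (hm ζ)
    have e := NSol.eq_of_eq hbne (h.sol 1) (h.sol 0) n (hL n hall)
      (hL (n + 1) fun ζ => hstep ζ n (hall ζ))
    exact one_ne_zero (h.inj 1 0 (congrFun e 0) (congrFun e 1))
  obtain ⟨c1, hc1, hg⟩ := h.grow
  have hin : ∀ n (ζ : ℂ), ‖ζ‖ < sSup (S n) → ‖(q n : ℂ) + φ n ζ‖ ≤ 4 + C0 := by
    intro n ζ hζ
    obtain ⟨ρ, hρ, hρ'⟩ := exists_lt_of_lt_csSup (hne n) hζ
    exact hρ ζ hρ'
  have hlow : ∀ n, c1 / τ ^ n ≤ sSup (S n) := by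
    intro n
    refine le_csSup (hbdd n) fun ζ hζ => hone ζ n (hg n ζ ?_)
    exact ((lt_div_iff₀ (pow_pos hτ n)).1 hζ).le
  refine ⟨fun n => sSup (S n), c1, hc1, fun n => (div_le_iff₀ (pow_pos hτ n)).1 (hlow n), hin,
    fun n ρ hρ => ?_, fun n => ?_⟩
  · by_contra hcon
    refine absurd (le_csSup (hbdd n) (show ρ ∈ S n from fun ζ hζ => ?_)) (not_le.2 hρ)
    by_contra h2
    exact hcon ⟨ζ, hζ, not_le.1 h2⟩
  · set Λ : ℝ := ((4 + C0) + (4 + C0) ^ 2 + C0) / b0 + (3 + C0) with hΛ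
    have hA : 0 ≤ ((4 + C0) + (4 + C0) ^ 2 + C0) / b0 := by positivity
    have hΛ1 : 1 ≤ Λ := by rw [hΛ]; linarith
    have hΛ0 : 0 < Λ := by linarith
    have hR : 0 < sSup (S (n + 1)) := lt_of_lt_of_le (by positivity) (hlow (n + 1))
    have hmaps : MapsTo (φ n) (Metric.ball 0 (sSup (S (n + 1)))) (Metric.closedBall (φ n 0) Λ) := by
      intro ζ hζ
      rw [mem_ball_zero_iff] at hζ
      rw [h.zero n, mem_closedBall_zero_iff]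
      have a1 := hin (n + 1) ζ hζ
      have a2 : ‖(q (n + 2) : ℂ) + φ (n + 2) ζ‖ ≤ 4 + C0 := hstep ζ (n + 1) a1
      refine hsub ζ n _ ?_
      have e1 : (b : ℂ) * ((q n : ℂ) + φ n ζ) =
          ((q (n + 1) : ℂ) + φ (n + 1) ζ) ^ 2 + c - ((q (n + 2) : ℂ) + φ (n + 2) ζ) := by
        rw [hΦ ζ n]; ring
      have e2 := norm_sub_le (((q (n + 1) : ℂ) + φ (n + 1) ζ) ^ 2 + c)
        ((q (n + 2) : ℂ) + φ (n + 2) ζ)
      have e3 := norm_add_le (((q (n + 1) : ℂ) + φ (n + 1) ζ) ^ 2) (c : ℂ)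
      have e4 : ‖(c : ℂ)‖ ≤ C0 := by rwa [Complex.norm_real, Real.norm_eq_abs]
      have e5 : ‖((q (n + 1) : ℂ) + φ (n + 1) ζ) ^ 2‖ ≤ (4 + C0) ^ 2 := by
        rw [norm_pow]
        exact pow_le_pow_left₀ (norm_nonneg _) a1 2
      rw [← e1, norm_mul, Complex.norm_real, Real.norm_eq_abs] at e2
      rw [le_div_iff₀ hb0]
      have e6 := mul_le_mul_of_nonneg_right hb (norm_nonneg ((q n : ℂ) + φ n ζ))
      linarith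
    show sSup (S (n + 1)) ≤ Λ * sSup (S n)
    rw [← div_le_iff₀' hΛ0]
    refine le_csSup (hbdd n) fun ζ hζ => hone ζ n ?_
    have hζ' : ‖ζ‖ < sSup (S (n + 1)) := hζ.trans_le (div_le_self hR.le hΛ1)
    have e := Complex.dist_le_div_mul_dist_of_mapsTo_ball (h.diff n).differentiableOn hmaps
      (mem_ball_zero_iff.2 hζ')
    rw [h.zero n, dist_zero_right, dist_zero_right] at e
    refine e.trans ?_
    rw [div_mul_eq_mul_div, div_le_one hR]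
    rw [lt_div_iff₀' hΛ0] at hζ
    exact hζ.le

end Pool.Agent.P.MP_c34bf4_an
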