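import Pool.Agent.P.MP_c34bf4_an.Basic

namespace Pool.Agent.P.MP_c34bf4_an

open MeasureTheory Filter Set Topology

theorem smallvec_apply (A : (ℝ × ℝ) →L[ℝ] (ℝ × ℝ)) (x y : ℝ) :
    A (x, y) = (x * (A (1, 0)).1 + y * (A (0, 1)).1, x * (A (1, 0)).2 + y * (A (0, 1)).2) := by
  have e : ((x, y) : ℝ × ℝ) = x • ((1, 0) : ℝ × ℝ) + y • ((0, 1) : ℝ × ℝ) := by simp
  rw [e, map_add, map_smul, map_smul]
  ext <;> simp

/-- First column of the adjugate. -/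
def smallvecW1 (A : (ℝ × ℝ) →L[ℝ] (ℝ × ℝ)) : ℝ × ℝ := ((A (0, 1)).2, -(A (1, 0)).2)

/-- Second column of the adjugate. -/
def smallvecW2 (A : (ℝ × ℝ) →L[ℝ] (ℝ × ℝ)) : ℝ × ℝ := (-(A (0, 1)).1, (A (1, 0)).1)

/-- The larger column of the adjugate. -/
noncomputable def smallvecW (A : (ℝ × ℝ) →L[ℝ] (ℝ × ℝ)) : ℝ × ℝ :=
  if ‖smallvecW1 A‖ ≤ ‖smallvecW2 A‖ then smallvecW2 A else smallvecW1 A

theorem smallvec_norm_apply (A : (ℝ × ℝ) →L[ℝ] (ℝ × ℝ)) :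
    ‖A (smallvecW A)‖ = |(A (1, 0)).1 * (A (0, 1)).2 - (A (0, 1)).1 * (A (1, 0)).2| := by
  unfold smallvecW
  split_ifs
  · unfold smallvecW2
    rw [smallvec_apply, Prod.norm_def]
    have e1 : -(A (0, 1)).1 * (A (1, 0)).1 + (A (1, 0)).1 * (A (0, 1)).1 = 0 := by ring
    have e2 : -(A (0, 1)).1 * (A (1, 0)).2 + (A (1, 0)).1 * (A (0, 1)).2 =
        (A (1, 0)).1 * (A (0, 1)).2 - (A (0, 1)).1 * (A (1, 0)).2 := by ring
    simp only [e1, e2, norm_zero, Real.norm_eq_abs]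
    exact max_eq_right (abs_nonneg _)
  · unfold smallvecW1
    rw [smallvec_apply, Prod.norm_def]
    have e1 : (A (0, 1)).2 * (A (1, 0)).2 + -(A (1, 0)).2 * (A (0, 1)).2 = 0 := by ring
    have e2 : (A (0, 1)).2 * (A (1, 0)).1 + -(A (1, 0)).2 * (A (0, 1)).1 =
        (A (1, 0)).1 * (A (0, 1)).2 - (A (0, 1)).1 * (A (1, 0)).2 := by ring
    simp only [e1, e2, norm_zero, Real.norm_eq_abs]
    exact max_eq_left (abs_nonneg _)

theorem smallvec_w1_le (A : (ℝ × ℝ) →L[ℝ] (ℝ × ℝ)) : ‖smallvecW1 A‖ ≤ ‖smallvecW A‖ := by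
  unfold smallvecW
  split_ifs with h
  · exact h
  · exact le_rfl

theorem smallvec_w2_le (A : (ℝ × ℝ) →L[ℝ] (ℝ × ℝ)) : ‖smallvecW2 A‖ ≤ ‖smallvecW A‖ := by
  unfold smallvecW
  split_ifs with h
  · exact le_rfl
  · exact (not_le.1 h).le

theorem smallvec_lin (x y a a' m n : ℝ) (ha : |a| ≤ m) (ha' : |a'| ≤ m) (hx : |x| ≤ n)
    (hy : |y| ≤ n) : |x * a + y * a'| ≤ 2 * m * n := by
  have hn : 0 ≤ n := (abs_nonneg _).trans hx
  have h1 : |x * a| ≤ n * m := by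
    rw [abs_mul]; exact mul_le_mul hx ha (abs_nonneg _) hn
  have h2 : |y * a'| ≤ n * m := by
    rw [abs_mul]; exact mul_le_mul hy ha' (abs_nonneg _) hn
  have h3 := abs_add_le (x * a) (y * a')
  linarith

theorem smallvec_opNorm (A : (ℝ × ℝ) →L[ℝ] (ℝ × ℝ)) : ‖A‖ ≤ 2 * ‖smallvecW A‖ := by
  have h1 := smallvec_w1_le A
  have h2 := smallvec_w2_le A
  have a22 : |(A (0, 1)).2| ≤ ‖smallvecW A‖ := (norm_fst_le (smallvecW1 A)).trans h1
  have a21 : |(A (1, 0)).2| ≤ ‖smallvecW A‖ := by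
    have := (norm_snd_le (smallvecW1 A)).trans h1
    simpa [smallvecW1] using this
  have a12 : |(A (0, 1)).1| ≤ ‖smallvecW A‖ := by
    have := (norm_fst_le (smallvecW2 A)).trans h2
    simpa [smallvecW2] using this
  have a11 : |(A (1, 0)).1| ≤ ‖smallvecW A‖ := (norm_snd_le (smallvecW2 A)).trans h2
  refine ContinuousLinearMap.opNorm_le_bound _ (by positivity) ?_
  rintro ⟨x, y⟩
  have hx : |x| ≤ ‖((x, y) : ℝ × ℝ)‖ := norm_fst_le ((x, y) : ℝ × ℝ)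
  have hy : |y| ≤ ‖((x, y) : ℝ × ℝ)‖ := norm_snd_le ((x, y) : ℝ × ℝ)
  rw [smallvec_apply, Prod.norm_def]
  exact max_le (smallvec_lin _ _ _ _ _ _ a11 a12 hx hy) (smallvec_lin _ _ _ _ _ _ a21 a22 hx hy)

theorem smallvec_measurable (A : ℝ × ℝ → (ℝ × ℝ) →L[ℝ] (ℝ × ℝ)) (hA : Continuous A) :
    Measurable fun z => smallvecW (A z) := by
  have c1 : Continuous fun z => A z (1, 0) := hA.clm_apply continuous_const
  have c2 : Continuous fun z => A z (0, 1) := hA.clm_apply continuous_const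
  have w1 : Continuous fun z => smallvecW1 (A z) := c2.snd.prodMk c1.snd.neg
  have w2 : Continuous fun z => smallvecW2 (A z) := c2.fst.neg.prodMk c1.fst
  unfold smallvecW
  exact Measurable.ite (measurableSet_le w1.norm.measurable w2.norm.measurable)
    w2.measurable w1.measurable

/-- A measurable choice of an almost most contracted unit vector. -/
theorem exists_small_vec (c : ℝ) {b : ℝ} (hb0 : b ≠ 0) (N : ℕ) :
    ∃ v : ℝ × ℝ → ℝ × ℝ, Measurable v ∧ ∀ z, ‖v z‖ = 1 ∧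
      ‖dIt c b N z (v z)‖ * ‖dIt c b N z‖ ≤ 2 * |b| ^ N := by
  have hm := smallvec_measurable (dIt c b N) (continuous_dIt c b N)
  refine ⟨fun z => ‖smallvecW (dIt c b N z)‖⁻¹ • smallvecW (dIt c b N z),
    hm.norm.inv.smul hm, fun z => ?_⟩
  have hop := smallvec_opNorm (dIt c b N z)
  have hA : 0 < ‖dIt c b N z‖ := norm_pos_iff.2 (dIt_ne_zero c hb0 N z)
  have hw : 0 < ‖smallvecW (dIt c b N z)‖ := by linarith
  have hn := smallvec_norm_apply (dIt c b N z)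
  rw [dIt_det, abs_pow] at hn
  refine ⟨?_, ?_⟩
  · rw [norm_smul, norm_inv, norm_norm, inv_mul_cancel₀ hw.ne']
  · rw [map_smul, norm_smul, norm_inv, norm_norm, hn]
    calc ‖smallvecW (dIt c b N z)‖⁻¹ * |b| ^ N * ‖dIt c b N z‖
        ≤ ‖smallvecW (dIt c b N z)‖⁻¹ * |b| ^ N * (2 * ‖smallvecW (dIt c b N z)‖) :=
          mul_le_mul_of_nonneg_left hop (by positivity)
      _ = 2 * |b| ^ N := by field_simp

/-- Two-sided bounds for the derivative on unit vectors over a box. -/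
theorem dH_bounds {b : ℝ} (hb0 : b ≠ 0) (R : ℝ) :
    ∃ M : ℝ, ∀ z v : ℝ × ℝ, ‖z‖ ≤ R → ‖v‖ = 1 → |Real.log ‖dH b z v‖| ≤ M := by
  have hK : IsCompact (Metric.closedBall (0 : ℝ × ℝ) R ×ˢ Metric.sphere (0 : ℝ × ℝ) 1) :=
    (isCompact_closedBall _ _).prod (isCompact_sphere _ _)
  have c1 : Continuous fun w : (ℝ × ℝ) × (ℝ × ℝ) => dH b w.1 w.2 := by
    simp only [dH_apply]
    fun_prop
  have c2 : ContinuousOn (fun w : (ℝ × ℝ) × (ℝ × ℝ) => Real.log ‖dH b w.1 w.2‖)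
      (Metric.closedBall (0 : ℝ × ℝ) R ×ˢ Metric.sphere (0 : ℝ × ℝ) 1) := by
    refine c1.norm.continuousOn.log ?_
    rintro ⟨z, v⟩ hw
    have hv : ‖v‖ = 1 := by simpa using hw.2
    refine norm_ne_zero_iff.2 (dH_ne_zero hb0 z ?_)
    intro h0
    have h1 : v = 0 := h0
    rw [h1, norm_zero] at hv
    exact zero_ne_one hv
  obtain ⟨M, hM⟩ := hK.exists_bound_of_continuousOn c2
  refine ⟨M, fun z v hz hv => ?_⟩
  exact hM (z, v) ⟨by simpa using hz, by simpa using hv⟩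

end Pool.Agent.P.MP_c34bf4_an
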