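import Pool.Agent.P.MP_c34bf4_an.ErgLift
import Pool.Agent.P.MP_c34bf4_an.ErgProj
import Pool.Agent.P.MP_c34bf4_an.NonSink
import Pool.Agent.P.MP_c34bf4_an.SmallVec

namespace Pool.Agent.P.MP_c34bf4_an

open MeasureTheory Filter Set Topology

/-- The unit tangent bundle. -/
abbrev regaeX : Type := (ℝ × ℝ) × Metric.sphere (0 : ℝ × ℝ) 1

theorem regae_ne (w : regaeX) : (w.2 : ℝ × ℝ) ≠ 0 := by
  intro h
  have := w.2.2
  rw [h] at this
  simp at this

theorem regae_norm (w : regaeX) : ‖(w.2 : ℝ × ℝ)‖ = 1 := by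
  simp

/-- The projectivised derivative cocycle. -/
noncomputable def regaeT (c : ℝ) {b : ℝ} (hb0 : b ≠ 0) (w : regaeX) : regaeX :=
  (henon c b w.1, ⟨‖dH b w.1 w.2‖⁻¹ • dH b w.1 w.2, by
    have := norm_ne_zero_iff.2 (dH_ne_zero hb0 w.1 (regae_ne w))
    simp [norm_smul, this]⟩)

theorem regae_cont_dH (b : ℝ) : Continuous fun w : regaeX => dH b w.1 w.2 := by
  simp only [dH_apply]
  fun_prop

theorem regae_cont (c : ℝ) {b : ℝ} (hb0 : b ≠ 0) : Continuous (regaeT c hb0) := by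
  refine ((continuous_henon c b).comp continuous_fst).prodMk (Continuous.subtype_mk ?_ _)
  exact ((regae_cont_dH b).norm.inv₀
    fun w => norm_ne_zero_iff.2 (dH_ne_zero hb0 w.1 (regae_ne w))).smul (regae_cont_dH b)

theorem regae_iter (c : ℝ) {b : ℝ} (hb0 : b ≠ 0) (w : regaeX) (n : ℕ) :
    ((regaeT c hb0)^[n] w).1 = (henon c b)^[n] w.1 ∧
      (((regaeT c hb0)^[n] w).2 : ℝ × ℝ) = ‖dIt c b n w.1 w.2‖⁻¹ • dIt c b n w.1 w.2 := by
  induction n with
  | zero => simp [dIt]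
  | succ n ih =>
    have h0 := norm_pos_iff.2 (dIt_apply_ne_zero c hb0 n w.1 (regae_ne w))
    rw [Function.iterate_succ_apply', Function.iterate_succ_apply']
    refine ⟨by rw [← ih.1]; rfl, ?_⟩
    change ‖dH b _ _‖⁻¹ • dH b _ _ = _
    rw [ih.1, ih.2, dIt_succ_apply, map_smul, norm_smul, smul_smul, norm_inv, norm_norm]
    congr 1
    field_simp

theorem regae_sum (c : ℝ) {b : ℝ} (hb0 : b ≠ 0) (w : regaeX) (n : ℕ) :
    birkhoffSum (regaeT c hb0) (fun w : regaeX => Real.log ‖dH b w.1 w.2‖) n w =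
      Real.log ‖dIt c b n w.1 w.2‖ := by
  induction n with
  | zero => simp [dIt]
  | succ n ih =>
    have h0 := norm_pos_iff.2 (dIt_apply_ne_zero c hb0 n w.1 (regae_ne w))
    have h1 := norm_pos_iff.2 (dIt_apply_ne_zero c hb0 (n + 1) w.1 (regae_ne w))
    rw [birkhoffSum_succ, ih, (regae_iter c hb0 w n).1, (regae_iter c hb0 w n).2, map_smul,
      norm_smul, norm_inv, norm_norm, ← dIt_succ_apply, Real.log_mul (inv_pos.2 h0).ne' h1.ne',
      Real.log_inv]
    ring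

theorem regae_psi {b : ℝ} (hb0 : b ≠ 0) (R : ℝ) :
    ∃ ψ : BoundedContinuousFunction regaeX ℝ, ∀ w : regaeX, ‖w.1‖ ≤ R →
      ψ w = Real.log ‖dH b w.1 w.2‖ := by
  obtain ⟨M, hM⟩ := dH_bounds hb0 R
  have hc : Continuous fun w : regaeX => Real.log ‖dH b w.1 w.2‖ :=
    (regae_cont_dH b).norm.log fun w => norm_ne_zero_iff.2 (dH_ne_zero hb0 w.1 (regae_ne w))
  refine ⟨BoundedContinuousFunction.ofNormedAddCommGroup
    (fun w : regaeX => max (-|M|) (min |M| (Real.log ‖dH b w.1 w.2‖)))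
    (continuous_const.max (continuous_const.min hc)) |M| fun w => ?_, fun w hw => ?_⟩
  · rw [Real.norm_eq_abs, abs_le]
    exact ⟨le_max_left _ _, max_le (by linarith [abs_nonneg M]) (min_le_left _ _)⟩
  · have h := abs_le.1 ((hM w.1 w.2 hw (regae_norm w)).trans (le_abs_self M))
    change max (-|M|) (min |M| (Real.log ‖dH b w.1 w.2‖)) = _
    rw [min_eq_right h.2, max_eq_right h.1]

theorem regae_final {a : ℕ → ℝ} (ha : ∀ n, 0 < a n) {l : ℝ}
    (h1 : ∀ i : ℕ, ∃ C : ℝ, ∀ n : ℕ, Real.log (a n) ≤ C + (l + 1 / ((i : ℝ) + 1)) * n)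
    (h2 : ∀ i : ℕ, ∃ C : ℝ, ∀ n : ℕ, -Real.log (a n) ≤ C + (-l + 1 / ((i : ℝ) + 1)) * n)
    {ω : ℝ} (hω : 1 < ω) : ∃ C : ℝ, ∀ n : ℕ,
      a n ≤ C * (Real.exp l * ω) ^ n ∧ (Real.exp l / ω) ^ n ≤ C * a n := by
  obtain ⟨i, hi⟩ := exists_nat_one_div_lt (Real.log_pos hω)
  obtain ⟨C1, h1⟩ := h1 i
  obtain ⟨C2, h2⟩ := h2 i
  have hω0 : 0 < ω := by linarith
  refine ⟨Real.exp (max C1 C2), fun n => ?_⟩
  have hn : (0 : ℝ) ≤ n := Nat.cast_nonneg n
  have k := mul_le_mul_of_nonneg_right hi.le hn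
  have e1 : Real.exp l * ω = Real.exp (l + Real.log ω) := by
    rw [Real.exp_add, Real.exp_log hω0]
  have e2 : Real.exp l / ω = Real.exp (l - Real.log ω) := by
    rw [Real.exp_sub, Real.exp_log hω0]
  rw [e1, e2, ← Real.exp_nat_mul, ← Real.exp_nat_mul, ← Real.exp_add]
  constructor
  · rw [← Real.exp_log (ha n)]
    exact Real.exp_le_exp.2 (by linarith [h1 n, le_max_left C1 C2])
  · rw [← Real.exp_log (ha n), ← Real.exp_add]
    exact Real.exp_le_exp.2 (by linarith [h2 n, le_max_right C1 C2])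

/-- Almost every point of a non-sink ergodic measure is regular. -/
theorem ae_reg {c b : ℝ} (hb0 : b ≠ 0) (hb : |b| ≤ 1) {μ : Measure (ℝ × ℝ)}
    [IsProbabilityMeasure μ] (hμ : Ergodic (henon c b) μ) (hns : ¬ OnSink (henon c b) μ) :
    ∀ᵐ x ∂μ, Reg c b x := by
  obtain ⟨R, hR⟩ : ∃ R, R = 3 + |c| := ⟨_, rfl⟩
  obtain ⟨ψ, hψ⟩ := regae_psi hb0 R
  have hT := regae_cont c hb0
  have hbox : ∀ᵐ x ∂μ, ∀ k, ‖(henon c b)^[k] x‖ ≤ R := by
    filter_upwards [ae_orb_le (le_refl |c|) hb hμ.toMeasurePreserving] with x hx k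
    rw [iterate_eq, Prod.norm_def, hR]
    exact max_le (hx _) (hx _)
  have hZ : IsCompact (Metric.closedBall (0 : ℝ × ℝ) R ×ˢ
      (univ : Set (Metric.sphere (0 : ℝ × ℝ) 1))) :=
    (isCompact_closedBall _ _).prod isCompact_univ
  have hsum : ∀ w : regaeX, (∀ k, (regaeT c hb0)^[k] w ∈ Metric.closedBall (0 : ℝ × ℝ) R ×ˢ
      (univ : Set (Metric.sphere (0 : ℝ × ℝ) 1))) → ∀ n,
      birkhoffSum (regaeT c hb0) ψ n w = Real.log ‖dIt c b n w.1 w.2‖ := by
    intro w hw n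
    rw [← regae_sum c hb0]
    exact Finset.sum_congr rfl fun k _ => hψ _ (by simpa using (hw k).1)
  choose v hv hv' using exists_small_vec c hb0
  let σ : ℕ → ℝ × ℝ → regaeX := fun N z => (z, ⟨v N z, by simpa using (hv' N z).1⟩)
  have hσ : ∀ N, Measurable (σ N) := fun N => measurable_id.prodMk (hv N).subtype_mk
  have hσZ : ∀ N, ∀ᵐ y ∂μ, ∀ k, (regaeT c hb0)^[k] (σ N y) ∈
      Metric.closedBall (0 : ℝ × ℝ) R ×ˢ (univ : Set (Metric.sphere (0 : ℝ × ℝ) 1)) := by
    intro N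
    filter_upwards [hbox] with y hy k
    refine ⟨?_, mem_univ _⟩
    rw [(regae_iter c hb0 _ k).1]
    simpa using hy k
  have hint : ∀ N : ℕ, 0 < N → ∫ y, birkhoffSum (regaeT c hb0) ψ N (σ N y) ∂μ ≤
      Real.log |b| * N + Real.log 2 := by
    intro N hN
    have hc : Continuous fun x => Real.log ‖dIt c b N x‖ :=
      (continuous_dIt c b N).norm.log fun x => norm_ne_zero_iff.2 (dIt_ne_zero c hb0 N x)
    have i1 : Integrable (fun x => Real.log ‖dIt c b N x‖) μ := by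
      obtain ⟨C, hC⟩ := (isCompact_closedBall (0 : ℝ × ℝ) R).exists_bound_of_continuousOn
        hc.continuousOn
      refine Integrable.of_bound hc.aestronglyMeasurable C ?_
      filter_upwards [hbox] with y hy
      exact hC y (by simpa using hy 0)
    have i2 : Integrable (fun y => birkhoffSum (regaeT c hb0) ψ N (σ N y)) μ := by
      refine integrable_finsetSum _ fun k _ => ?_
      refine Integrable.of_bound ?_ ‖ψ‖ (Eventually.of_forall fun y => ψ.norm_coe_le_norm _)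
      exact (ψ.continuous.measurable.comp
        ((hT.iterate k).measurable.comp (hσ N))).aestronglyMeasurable
    have i3 := integral_log_norm_nonneg hb0 hb hμ hns hN
    calc _ ≤ ∫ y, ((Real.log |b| * N + Real.log 2) - Real.log ‖dIt c b N y‖) ∂μ := by
          refine integral_mono_ae i2 ((integrable_const _).sub i1) ?_
          filter_upwards [hσZ N] with y hy
          rw [hsum _ hy]
          have p1 := norm_pos_iff.2 (dIt_apply_ne_zero c hb0 N y (regae_ne (σ N y)))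
          have p2 := norm_pos_iff.2 (dIt_ne_zero c hb0 N y)
          have p3 := Real.log_le_log (mul_pos p1 p2) (hv' N y).2
          rw [Real.log_mul p1.ne' p2.ne', Real.log_mul two_ne_zero
            (pow_ne_zero _ (abs_ne_zero.2 hb0)), Real.log_pow] at p3
          change Real.log ‖dIt c b N y (σ N y).2‖ ≤ _
          linarith
      _ ≤ _ := by
          rw [integral_sub (integrable_const _) i1, integral_const]
          simp only [probReal_univ, smul_eq_mul, one_mul]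
          linarith
  obtain ⟨m0, hm0, k1, k2, k3, k4⟩ := exists_invariant_lift hT (S := henon c b)
    (π := Prod.fst) continuous_fst (fun _ => rfl) hμ.toMeasurePreserving hZ ψ σ hσ
    (fun _ _ => rfl) hσZ hint
  obtain ⟨m, hm, l1, l2, l3, l4⟩ := exists_ergodic_lift hT (S := henon c b)
    (π := Prod.fst) continuous_fst (fun _ => rfl) hμ hZ ψ k1 k2 k3
  have hr : Real.exp (∫ z, ψ z ∂m) ≤ |b| := by
    rw [← Real.exp_log (abs_pos.2 hb0)]
    exact Real.exp_le_exp.2 (l4.trans k4)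
  have a1 : ∀ᵐ w ∂m, ∀ k, (regaeT c hb0)^[k] w ∈ Metric.closedBall (0 : ℝ × ℝ) R ×ˢ
      (univ : Set (Metric.sphere (0 : ℝ × ℝ) 1)) :=
    ae_all_iff.2 fun k => (l1.toMeasurePreserving.iterate k).quasiMeasurePreserving.ae l2
  have a2 : ∀ᵐ w ∂m, ∀ i : ℕ, ∃ C : ℝ, ∀ n : ℕ, birkhoffSum (regaeT c hb0) ψ n w ≤
      C + (∫ z, ψ z ∂m + 1 / ((i : ℝ) + 1)) * n :=
    ae_all_iff.2 fun i => ergodic_upper l1 ψ.continuous.measurable (ψ.integrable m)
      (lt_add_of_pos_right _ (by positivity))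
  have a3 : ∀ᵐ w ∂m, ∀ i : ℕ, ∃ C : ℝ, ∀ n : ℕ,
      birkhoffSum (regaeT c hb0) (fun z => -ψ z) n w ≤
      C + (-∫ z, ψ z ∂m + 1 / ((i : ℝ) + 1)) * n :=
    ae_all_iff.2 fun i => ergodic_upper l1 (g := fun z => -ψ z) ψ.continuous.measurable.neg
      (ψ.integrable m).neg
      (by rw [integral_neg]; exact lt_add_of_pos_right _ (by positivity))
  have a4 : ∀ᵐ w ∂m, Reg c b w.1 := by
    filter_upwards [a1, a2, a3] with w h1 h2 h3
    refine ⟨w.2, _, Real.exp_pos _, hr, fun ω hω => ?_⟩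
    refine regae_final (a := fun n => ‖dIt c b n w.1 w.2‖)
      (fun n => norm_pos_iff.2 (dIt_apply_ne_zero c hb0 n w.1 (regae_ne w)))
      (fun i => ?_) (fun i => ?_) hω
    · obtain ⟨C, hC⟩ := h2 i
      exact ⟨C, fun n => by rw [← hsum w h1]; exact hC n⟩
    · obtain ⟨C, hC⟩ := h3 i
      refine ⟨C, fun n => ?_⟩
      rw [← hsum w h1]
      simpa only [birkhoffSum, Finset.sum_neg_distrib] using hC n
  have a5 := ae_exists_fiber (π := (Prod.fst : regaeX → ℝ × ℝ)) continuous_fst a4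
  rw [l3] at a5
  filter_upwards [a5] with y ⟨z, hz, h⟩
  exact hz ▸ h

end Pool.Agent.P.MP_c34bf4_an
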