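import Pool.Agent.P.MP_c34bf4_an.Basic

namespace Pool.Agent.P.MP_c34bf4_an

open MeasureTheory Filter Set Topology

variable {q : ℕ → ℝ} {b r : ℝ} {s t : ℕ → ℝ}

theorem Lin.bC_ne (h : Lin q b r s t) : (b : ℂ) ≠ 0 := by exact_mod_cast h.b_ne

theorem Lin.wrC (h : Lin q b r s t) (n : ℕ) :
    (s (n + 1) : ℂ) * t n - s n * t (n + 1) = (b : ℂ) ^ n := by exact_mod_cast h.wr n

theorem Lin.decomp (h : Lin q b r s t) (u : ℕ → ℂ) (n : ℕ) :
    u n = xi b t u n * (s n : ℂ) + eta b s u n * (t n : ℂ) := by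
  have hb := pow_ne_zero n h.bC_ne
  unfold xi eta
  field_simp
  rw [← h.wrC n]
  ring

theorem Lin.xi_succ (h : Lin q b r s t) {g u : ℕ → ℂ} (hu : ISol q b g u) (n : ℕ) :
    xi b t u (n + 1) = xi b t u n + g (n + 1) * (t (n + 1) : ℂ) / (b : ℂ) ^ (n + 1) := by
  have hb := h.bC_ne
  have ht : (t (n + 2) : ℂ) = 2 * q (n + 1) * t (n + 1) - b * t n := by exact_mod_cast h.ht n
  unfold xi
  rw [hu n, ht]
  field_simp
  ring

theorem Lin.eta_succ (h : Lin q b r s t) {g u : ℕ → ℂ} (hu : ISol q b g u) (n : ℕ) :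
    eta b s u (n + 1) = eta b s u n - g (n + 1) * (s (n + 1) : ℂ) / (b : ℂ) ^ (n + 1) := by
  have hb := h.bC_ne
  have hs : (s (n + 2) : ℂ) = 2 * q (n + 1) * s (n + 1) - b * s n := by exact_mod_cast h.hs n
  unfold eta
  rw [hu n, hs]
  field_simp
  ring

theorem Lin.xi_smul (h : Lin q b r s t) (ζ : ℂ) (u : ℕ → ℂ) (n : ℕ) :
    xi b t u n - ζ = xi b t (fun k => u k - ζ * (s k : ℂ)) n := by
  have hb := pow_ne_zero n h.bC_ne
  unfold xi
  field_simp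
  rw [← h.wrC n]
  ring

/-- Variation of constants. -/
theorem Lin.volterra (h : Lin q b r s t) {g u : ℕ → ℂ} (hu : ISol q b g u) {n M : ℕ}
    (hn : n ≤ M) :
    u n = xi b t u M * (s n : ℂ) + eta b s u M * (t n : ℂ) +
      ∑ k ∈ Finset.Ioc n M, (gr b s t n k : ℂ) * g k := by
  induction M, hn using Nat.le_induction with
  | base => simpa using h.decomp u n
  | succ M hM ih =>
    rw [Finset.sum_Ioc_succ_top hM, h.xi_succ hu, h.eta_succ hu, ih]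
    simp only [gr]
    push_cast
    ring

theorem Lin.lin_term (h : Lin q b r s t) (u : ℕ → ℂ) (n M : ℕ) :
    xi b t u M * (s n : ℂ) + eta b s u M * (t n : ℂ) =
      (b : ℂ) * u M * (gr b s t n (M + 1) : ℂ) - u (M + 1) * (gr b s t n M : ℂ) := by
  have hb := h.bC_ne
  simp only [xi, eta, gr]
  push_cast
  field_simp
  ring

theorem Lin.gr_bound (h : Lin q b r s t) {ω C : ℝ} (hω : 1 < ω) (hC : 1 ≤ C)
    (hbd : ∀ n : ℕ, |s n| ≤ C * (r * ω) ^ n ∧ |t n| ≤ C * (|b| * ω / r) ^ n) {n k : ℕ}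
    (hnk : n ≤ k) : |gr b s t n k| ≤ 2 * C ^ 2 * r ^ n * (ω ^ 2 / r) ^ k := by
  obtain ⟨d, rfl⟩ := Nat.exists_eq_add_of_le hnk
  have hr := h.r_pos
  have hβ : 0 < |b| := hr.trans_le h.r_le
  have hr1 : r ≤ 1 := h.r_le.trans h.b_lt.le
  have hω0 : 0 < ω := by linarith
  unfold gr
  rw [abs_div, abs_pow, div_le_iff₀ (by positivity)]
  have e1 : |t n * s (n + d)| ≤ C * (|b| * ω / r) ^ n * (C * (r * ω) ^ (n + d)) := by
    rw [abs_mul]
    exact mul_le_mul (hbd n).2 (hbd _).1 (abs_nonneg _) (by positivity)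
  have e2 : |s n * t (n + d)| ≤ C * (r * ω) ^ n * (C * (|b| * ω / r) ^ (n + d)) := by
    rw [abs_mul]
    exact mul_le_mul (hbd n).1 (hbd _).2 (abs_nonneg _) (by positivity)
  have hW : ω ^ (2 * n + d) ≤ ω ^ (2 * n + 2 * d) := pow_le_pow_right₀ hω.le (by omega)
  have f1 : C * (|b| * ω / r) ^ n * (C * (r * ω) ^ (n + d)) =
      C ^ 2 * |b| ^ n * (ω ^ (2 * n + d) * r ^ d) := by
    simp only [div_pow, mul_pow, pow_add]
    field_simp
    ring
  have f2 : C * (r * ω) ^ n * (C * (|b| * ω / r) ^ (n + d)) =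
      C ^ 2 * |b| ^ n * (ω ^ (2 * n + d) * (|b| ^ d / r ^ d)) := by
    simp only [div_pow, mul_pow, pow_add]
    field_simp
    ring
  have f3 : 2 * C ^ 2 * r ^ n * (ω ^ 2 / r) ^ (n + d) * |b| ^ (n + d) =
      2 * (C ^ 2 * |b| ^ n * (ω ^ (2 * n + 2 * d) * (|b| ^ d / r ^ d))) := by
    simp only [div_pow, pow_add, ← pow_mul]
    field_simp
  have g1 : r ^ d ≤ |b| ^ d / r ^ d := by
    refine (pow_le_one₀ hr.le hr1).trans ?_
    rw [le_div_iff₀ (by positivity), one_mul]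
    exact pow_le_pow_left₀ hr.le h.r_le d
  have g2 : ω ^ (2 * n + d) * r ^ d ≤ ω ^ (2 * n + 2 * d) * (|b| ^ d / r ^ d) :=
    mul_le_mul hW g1 (by positivity) (by positivity)
  have g3 : ω ^ (2 * n + d) * (|b| ^ d / r ^ d) ≤ ω ^ (2 * n + 2 * d) * (|b| ^ d / r ^ d) :=
    mul_le_mul_of_nonneg_right hW (by positivity)
  have g4 := mul_le_mul_of_nonneg_left g2 (show 0 ≤ C ^ 2 * |b| ^ n by positivity)
  have g5 := mul_le_mul_of_nonneg_left g3 (show 0 ≤ C ^ 2 * |b| ^ n by positivity)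
  rw [f3]
  rw [f1] at e1
  rw [f2] at e2
  linarith [abs_sub (t n * s (n + d)) (s n * t (n + d))]

/-- Backward Gronwall estimate on a finite range. -/
theorem gronwall_back {y κ : ℕ → ℝ} {N M : ℕ} {E : ℝ} (hκ : ∀ k, 0 ≤ κ k)
    (hsum : ∑ k ∈ Finset.Ioc N M, κ k ≤ 1 / 2) (hE : 0 ≤ E)
    (hy : ∀ n, N ≤ n → n ≤ M → y n ≤ E + ∑ k ∈ Finset.Ioc n M, κ k * y k) :
    ∀ n, N ≤ n → n ≤ M → y n ≤ 2 * E := by
  intro n h1 h2
  obtain ⟨m, hm, hmax⟩ := (Finset.Icc N M).exists_max_image y ⟨n, Finset.mem_Icc.2 ⟨h1, h2⟩⟩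
  rw [Finset.mem_Icc] at hm
  refine (hmax n (Finset.mem_Icc.2 ⟨h1, h2⟩)).trans ?_
  rcases le_total (y m) 0 with h0 | h0
  · linarith
  have a1 : ∑ k ∈ Finset.Ioc m M, κ k * y k ≤ (∑ k ∈ Finset.Ioc m M, κ k) * y m := by
    rw [Finset.sum_mul]
    refine Finset.sum_le_sum fun k hk => mul_le_mul_of_nonneg_left (hmax k ?_) (hκ k)
    rw [Finset.mem_Ioc] at hk
    exact Finset.mem_Icc.2 ⟨by omega, hk.2⟩
  have a2 : ∑ k ∈ Finset.Ioc m M, κ k ≤ 1 / 2 :=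
    (Finset.sum_le_sum_of_subset_of_nonneg (Finset.Ioc_subset_Ioc_left hm.1)
      fun k _ _ => hκ k).trans hsum
  have a3 := mul_le_mul_of_nonneg_right a2 h0
  linarith [hy m hm.1 hm.2]

theorem sum_Ioc_pow_le {σ : ℝ} (h0 : 0 ≤ σ) (h1 : σ < 1) (n M : ℕ) :
    ∑ k ∈ Finset.Ioc n M, σ ^ k ≤ σ ^ n / (1 - σ) := by
  rw [le_div_iff₀ (by linarith)]
  rcases le_total M n with h | h
  · rw [Finset.Ioc_eq_empty_of_le h]
    simp
    positivity
  · have : (∑ k ∈ Finset.Ioc n M, σ ^ k) * (1 - σ) = σ ^ (n + 1) - σ ^ (M + 1) := by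
      induction M, h using Nat.le_induction with
      | base => simp
      | succ M hM ih =>
        rw [Finset.sum_Ioc_succ_top hM, add_mul, ih]
        ring
    rw [this]
    have : σ ^ (n + 1) ≤ σ ^ n := pow_le_pow_of_le_one h0 h1.le (by omega)
    have : 0 ≤ σ ^ (M + 1) := by positivity
    linarith

end Pool.Agent.P.MP_c34bf4_an
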